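import Pool.Agent.H25.T4P.Pow
import Pool.Agent.H64.VS.Few
import Pool.Agent.H60.NA.Pfr

/-!
# A block of the row is full along the hops of the order `j`

Three samples: `ω'` over the record `G` of `ω` and a fresh time `ν` of the line of `ω'`. The position of
`ν` is the position of the line of `ω` at the same time, moved by `(Δ D) (τ - τ₀) ^ j`. If `Δ D` is not
small off a small event then the last digits of the position are full given the upper digits and the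
side information: `blk_row`.
-/

set_option autoImplicit false

namespace Pool.NA97

open Finset Real
open Pool.Agent.H49.Ent Pool.Agent.H32.Dense Pool.STK Pool.OWN68 Pool.T4P
open Pool.PR46 (P1 P1_law P1_f P1_s P1_pos P2 P2_law P2_f P2_s P2_z P2_pos full_one swap_full)
open Pool.BFL (Pb)
open Pool.VS64 (CH_near_off Pb_one_le)

/-- Integers which are near given the condition. -/
theorem ch_nr {Ω W : Type} [Fintype Ω] {q : Ω → ℝ} (hq : IsLaw q) (X : Ω → ℤ) (Z : Ω → W) {L : ℝ}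
    (h : ∀ ω ω', 0 < q ω → 0 < q ω' → Z ω = Z ω' → |(X ω : ℝ) - X ω'| ≤ L) :
    CH q X Z ≤ Real.log (2 * L + 1) := by
  have h1 := CH_le_int hq.nonneg hq.sum_one X Z (fun _ => L) (fun ω ω' a b e => by
    push_cast
    exact h ω ω' a b e)
  rwa [Ex_const hq.sum_one] at h1

theorem log_two_pow {M : ℕ} : Real.log (2 * 2 ^ M + 1) ≤ M * Real.log 2 + 2 := by
  have h2 : (1 : ℝ) ≤ 2 ^ M := one_le_pow₀ (by norm_num)
  have h3 : Real.log (2 * 2 ^ M + 1) ≤ Real.log (2 ^ M * 3) :=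
    Real.log_le_log (by positivity) (by linarith)
  rw [Real.log_mul (by positivity) (by norm_num), Real.log_pow] at h3
  have h4 := Real.log_le_sub_one_of_pos (show (0 : ℝ) < 3 by norm_num)
  linarith

theorem log_five : Real.log 5 ≤ 1.65 := by
  have h1 : Real.log 5 = Real.log (5 / 4) + 2 * Real.log 2 := by
    have h2 : Real.log 4 = 2 * Real.log 2 := by
      rw [show (4 : ℝ) = 2 ^ 2 by norm_num, Real.log_pow]
      norm_num
    rw [← h2, ← Real.log_mul (by norm_num) (by norm_num)]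
    norm_num
  have h3 := Real.log_le_sub_one_of_pos (show (0 : ℝ) < 5 / 4 by norm_num)
  have h4 := Real.log_two_lt_d9
  linarith

theorem Pb_nn {Ω : Type} [Fintype Ω] {q : Ω → ℝ} (hq : IsLaw q) (F : Ω → Prop) : 0 ≤ Pb q F := by
  classical
  unfold Pb
  refine Finset.sum_nonneg fun ω _ => ?_
  split_ifs
  · exact hq.nonneg ω
  · exact le_rfl

theorem Pb_not {Ω : Type} [Fintype Ω] {q : Ω → ℝ} (hq : IsLaw q) (F : Ω → Prop) :
    Pb q F + Pb q (fun ω => ¬ F ω) = 1 := by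
  classical
  have h1 := hq.sum_one
  rw [← h1]
  unfold Pb
  rw [← Finset.sum_add_distrib]
  refine Finset.sum_congr rfl fun ω _ => ?_
  by_cases hF : F ω
  · rw [if_pos hF, if_neg (not_not.mpr hF), add_zero]
  · rw [if_neg hF, if_pos hF, zero_add]

theorem Pb_or_le {Ω : Type} [Fintype Ω] {q : Ω → ℝ} (hq : IsLaw q) {F : Ω → Prop} (A B : Ω → Prop)
    (h : ∀ ω, F ω → A ω ∨ B ω) : Pb q F ≤ Pb q A + Pb q B := by
  classical
  unfold Pb
  rw [← Finset.sum_add_distrib]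
  refine Finset.sum_le_sum fun ω _ => ?_
  have h0 := hq.nonneg ω
  by_cases hF : F ω
  · rw [if_pos hF]
    rcases h ω hF with h1 | h1
    · rw [if_pos h1]
      split_ifs <;> linarith
    · rw [if_pos h1]
      split_ifs <;> linarith
  · rw [if_neg hF]
    split_ifs <;> linarith

/-- Quotients of near integers. -/
theorem div_nr {x y : ℤ} {k : ℕ} {B : ℝ} (h : |(x : ℝ) - y| ≤ B * 2 ^ k) :
    |((x / (2 ^ k : ℤ) : ℤ) : ℝ) - (y / (2 ^ k : ℤ) : ℤ)| ≤ B + 1 := by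
  have hk : (0 : ℝ) < 2 ^ k := by positivity
  have key : ∀ a : ℤ, ((a / (2 ^ k : ℤ) : ℤ) : ℝ) * 2 ^ k ≤ a ∧
      (a : ℝ) ≤ ((a / (2 ^ k : ℤ) : ℤ) : ℝ) * 2 ^ k + 2 ^ k := by
    intro a
    have h1 := Int.ediv_mul_le a (show (2 ^ k : ℤ) ≠ 0 by positivity)
    have h2 := Int.lt_ediv_add_one_mul_self a (show (0 : ℤ) < 2 ^ k by positivity)
    have h3 : (((a / (2 ^ k : ℤ) * 2 ^ k : ℤ)) : ℝ) ≤ a := by exact_mod_cast h1
    have h4 : (a : ℝ) ≤ (((a / (2 ^ k : ℤ) + 1) * 2 ^ k : ℤ) : ℝ) := by exact_mod_cast h2.le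
    push_cast at h3 h4
    constructor
    · exact_mod_cast h3
    · linarith
  obtain ⟨a1, a2⟩ := key x
  obtain ⟨b1, b2⟩ := key y
  obtain ⟨c1, c2⟩ := abs_le.1 h
  rw [abs_le]
  constructor
  · by_contra hc
    push Not at hc
    have := mul_lt_mul_of_pos_right hc hk
    linarith
  · by_contra hc
    push Not at hc
    have := mul_lt_mul_of_pos_right hc hk
    linarith

/-- Integers with the same quotient. -/
theorem div_back {x y : ℤ} {k : ℕ} (h : x / (2 ^ k : ℤ) = y / (2 ^ k : ℤ)) :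
    |(x : ℝ) - y| ≤ 2 ^ k := by
  have p : (0 : ℤ) < 2 ^ k := by positivity
  have h1 := Int.emod_add_mul_ediv x (2 ^ k)
  have h2 := Int.emod_add_mul_ediv y (2 ^ k)
  have h3 := Int.emod_nonneg x p.ne'
  have h4 := Int.emod_lt_of_pos x p
  have h5 := Int.emod_nonneg y p.ne'
  have h6 := Int.emod_lt_of_pos y p
  rw [h] at h1
  have h7 : |x - y| ≤ 2 ^ k := by
    rw [abs_le]
    constructor <;> linarith
  have h8 : ((|x - y| : ℤ) : ℝ) ≤ ((2 ^ k : ℤ) : ℝ) := by exact_mod_cast h7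
  push_cast at h8
  exact h8

section

variable {Ω Λ Γ 𝒞 𝒩 Φ υ : Type} [Fintype Ω] {c : ℕ} {p : Ω → ℝ} {L : Ω → Λ} {tf : Ω → ℤ} {G : Ω → Γ}
  {D : Λ → Fin c → ℤ} {Pt : Λ → Fin c → ℝ → ℝ} {C : Λ → 𝒞} {Nt : Λ → 𝒩} {Fp : Ω → Φ}
  {z : Φ → Fin c → ℤ} {Yb : Φ → υ} {j m M K : ℕ} {e : ℝ}

/-- **The three samples**: the time of the first hop is full given the first line, the velocity of the
second line and the fresh time. -/
theorem full_hop (h : HpP p L tf G D Pt C Nt Fp z Yb j m M K e) :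
    M * Real.log 2 - (3 * e + 2) ≤ CH (P2 p L G) (fun w => tf w.1.1)
      (fun w => (tf w.2, (D (L w.1.2), L w.1.1))) := by
  have hp := h.law
  have h0 := hp.nonneg
  have hQ := P2_law hp L G
  have a1 := full_one (l := M * Real.log 2) hp L tf G C D Nt h.GC h.full h.free
  have a2 : CH (P1 p G) (fun w => tf w.1) (fun w => (D (L w.2), L w.1)) =
      CH (P2 p L G) (fun w => tf w.1.1) (fun w => (D (L w.1.2), L w.1.1)) :=
    ((P2_f hp L G).CH (fun w : Ω × Ω => tf w.1) (fun w : Ω × Ω => (D (L w.2), L w.1))).symm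
  rw [a2] at a1
  have b1 : CH (P2 p L G) (fun w => tf w.2) (fun w => (L w.2, w.1)) = CH p tf L :=
    CH_glue_snd (P1_law hp G).nonneg h0 (P2_z hp L G) tf (Y := L) (fun w => w) (fun _ _ _ _ e => e)
  have b2 : CH (P2 p L G) (fun w => tf w.2) (fun w => (L w.2, w.1)) ≤
      CH (P2 p L G) (fun w => tf w.2) (fun w => (tf w.1.1, (D (L w.1.2), L w.1.1))) := by
    refine CH_mono_cond hQ.nonneg fun w w' hw hw' hz => ?_
    have e1 : w.1 = w'.1 := (Prod.ext_iff.mp hz).2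
    show (tf w.1.1, (D (L w.1.2), L w.1.1)) = (tf w'.1.1, (D (L w'.1.2), L w'.1.1))
    rw [e1]
  have b3 : CH (P2 p L G) (fun w => tf w.2) (fun w => (D (L w.1.2), L w.1.1)) ≤
      M * Real.log 2 + 2 := by
    refine (ch_nr hQ (fun w => tf w.2) (fun w => (D (L w.1.2), L w.1.1)) (L := 2 ^ M)
      fun w w' hw hw' _ => ?_).trans log_two_pow
    have t1 := h.tfb _ (P2_pos hp L G hw).2.1
    have t2 := h.tfb _ (P2_pos hp L G hw').2.1
    have t3 : |tf w.2 - tf w'.2| ≤ ((2 ^ M : ℕ) : ℤ) := by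
      rw [abs_le]
      constructor <;> linarith [t1.1, t1.2, t2.1, t2.2]
    have t4 : ((|tf w.2 - tf w'.2| : ℤ) : ℝ) ≤ (((2 ^ M : ℕ) : ℤ) : ℝ) := by exact_mod_cast t3
    push_cast at t4
    exact t4
  have c1 := swap_full hQ.nonneg (fun w : (Ω × Ω) × Ω => tf w.1.1) (fun w => tf w.2)
    (fun w => (D (L w.1.2), L w.1.1)) (l := M * Real.log 2) (h := M * Real.log 2 + 2)
    (e₁ := e + e) (e₂ := e + 2) (by linarith) (by linarith [h.full]) b3
  linarith

/-- **The fresh time is not near the time of the hop**, off a small event. -/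
theorem time_off (h : HpP p L tf G D Pt C Nt Fp z Yb j m M K e) {v : ℕ} (hv : v ≤ M) {μ : ℝ}
    (hμ : 2 * (e + 3) ≤ μ * v) (hv0 : 0 < v) :
    Pb (P2 p L G) (fun w => |(tf w.2 : ℝ) / 2 ^ M - tf w.1.1 / 2 ^ M| < (1 / 2) ^ v) ≤ μ := by
  have hp := h.law
  have h0 := hp.nonneg
  have hQ := P2_law hp L G
  obtain ⟨N, hN⟩ : ∃ N : (Ω × Ω) × Ω → Prop, N = fun w =>
      |(tf w.2 : ℝ) / 2 ^ M - tf w.1.1 / 2 ^ M| < (1 / 2) ^ v := ⟨_, rfl⟩
  rw [← hN]
  have hM : (0 : ℝ) < 2 ^ M := by positivity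
  have b1 : CH (P2 p L G) (fun w => tf w.2) (fun w => (L w.2, w.1)) = CH p tf L :=
    CH_glue_snd (P1_law hp G).nonneg h0 (P2_z hp L G) tf (Y := L) (fun w => w) (fun _ _ _ _ e => e)
  have b2 : CH (P2 p L G) (fun w => tf w.2) (fun w => (L w.2, w.1)) ≤
      CH (P2 p L G) (fun w => tf w.2) (fun w => w.1) :=
    CH_mono_cond hQ.nonneg fun w w' hw hw' hz => (Prod.ext_iff.mp hz).2
  have b3 := CH_near_off hQ (fun w : (Ω × Ω) × Ω => tf w.2) (fun w => w.1) (fun w => ¬ N w)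
    (B := 2 ^ M) (D := 2 * (2 ^ M * (1 / 2) ^ v)) (fun w hw => by
      have t1 := h.tfb _ (P2_pos hp L G hw).2.1
      have t2 : (0 : ℝ) ≤ tf w.2 := by exact_mod_cast t1.1
      have t3 : (tf w.2 : ℝ) ≤ 2 ^ M := by exact_mod_cast t1.2
      rw [abs_of_nonneg t2]
      exact t3) (fun w w' hw hw' n1 n2 e1 => by
      rw [not_not, hN] at n1 n2
      have e2 : w.1 = w'.1 := e1
      rw [← e2] at n2
      have n1' := abs_lt.1 n1
      have n2' := abs_lt.1 n2
      have k1 : |(tf w.2 : ℝ) / 2 ^ M - tf w'.2 / 2 ^ M| ≤ 2 * (1 / 2) ^ v := by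
        rw [abs_le]
        constructor <;> linarith [n1'.1, n1'.2, n2'.1, n2'.2]
      rw [← sub_div, abs_div, abs_of_pos hM, div_le_iff₀ hM] at k1
      linarith)
  have l2 := Real.log_two_lt_d9
  have l2' : 0.69 ≤ Real.log 2 := by
    have := Real.log_two_gt_d9
    linarith
  have k0 : ∀ X : ℝ, 1 ≤ X → Real.log (2 * (2 * X) + 1) ≤ Real.log X + 1.65 := by
    intro X hX
    have h3 : Real.log (2 * (2 * X) + 1) ≤ Real.log (X * 5) :=
      Real.log_le_log (by positivity) (by linarith)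
    rw [Real.log_mul (by positivity) (by norm_num)] at h3
    have := log_five
    linarith
  have k1 := k0 (2 ^ M) (one_le_pow₀ (by norm_num))
  rw [Real.log_pow] at k1
  have e1 : (2 : ℝ) ^ M * (1 / 2) ^ v = 2 ^ (M - v) := by
    obtain ⟨w, rfl⟩ : ∃ w, M = w + v := ⟨M - v, by omega⟩
    rw [Nat.add_sub_cancel, pow_add, mul_assoc, ← mul_pow]
    norm_num
  have k2 := k0 (2 ^ M * (1 / 2) ^ v) (by rw [e1]; exact one_le_pow₀ (by norm_num))
  rw [Real.log_mul (by positivity) (by positivity), Real.log_pow, Real.log_pow,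
    show Real.log (1 / 2) = - Real.log 2 by rw [one_div, Real.log_inv]] at k2
  obtain ⟨P, hP⟩ : ∃ P, P = Pb (P2 p L G) N := ⟨_, rfl⟩
  have P0 : 0 ≤ P := by rw [hP]; exact Pb_nn hQ N
  have P1 : P ≤ 1 := by rw [hP]; exact Pb_one_le hQ N
  have c1 : Pb (P2 p L G) (fun w => ¬ N w) = 1 - P := by
    have := Pb_not hQ N
    rw [hP]
    linarith
  have c2 : Pb (P2 p L G) (fun w => ¬ ¬ N w) = P := by
    rw [hP]
    congr 1
    funext w
    exact propext not_not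
  rw [c1, c2] at b3
  rw [← hP]
  have d1 : (1 - P) * Real.log (2 * (2 * 2 ^ M) + 1) ≤ (1 - P) * (M * Real.log 2 + 1.65) :=
    mul_le_mul_of_nonneg_left (by linarith) (by linarith)
  have d2 : P * Real.log (2 * (2 * (2 ^ M * (1 / 2) ^ v)) + 1) ≤
      P * (M * Real.log 2 - v * Real.log 2 + 1.65) :=
    mul_le_mul_of_nonneg_left (by linarith) P0
  have d3 : P * (v * Real.log 2) ≤ e + 3 := by
    have h1 := h.full
    nlinarith
  have hv1 : (0 : ℝ) < v := by exact_mod_cast hv0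
  have d4 : P * v ≤ μ * v := by
    have h1 : P * v * 0.69 ≤ P * v * Real.log 2 :=
      mul_le_mul_of_nonneg_left l2' (mul_nonneg P0 hv1.le)
    have h2 := h.e0
    nlinarith
  exact le_of_mul_le_mul_right d4 hv1

/-- The constant of `blk_row`. -/
noncomputable def cB (K : ℕ) : ℝ := 8 + 2 * Real.log (8 * K + 7)

/-- **A block of the row is full** given the upper digits and the side information. -/
theorem blk_row (h : HpP p L tf G D Pt C Nt Fp z Yb j m M K e) (hj : 1 ≤ j) (i : Fin c)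
    {n u v : ℕ} (hm : n + u + j * v = m) (hv0 : 0 < v) {δ μ : ℝ} (hμ : 2 * (e + 3) ≤ μ * v)
    (hsep : Pb (P1 p G) (fun w => |(D (L w.2) i : ℝ) - D (L w.1) i| < 2 ^ (m - u)) ≤ δ) :
    n * Real.log 2 - (3 * e + cB K + (δ + μ) * (n * Real.log 2 + 2)) ≤
      CH p (fun ω => z (Fp ω) i) (fun ω => (z (Fp ω) i / (2 ^ m : ℤ), Yb (Fp ω))) := by
  have hp := h.law
  have h0 := hp.nonneg
  have hQ := P2_law hp L G
  have Q0 := hQ.nonneg
  have hmM := h.mM
  have hM : (0 : ℝ) < 2 ^ M := by positivity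
  have l2 := Real.log_two_lt_d9
  have l2' : 0.69 ≤ Real.log 2 := by
    have := Real.log_two_gt_d9
    linarith
  obtain ⟨Q, hQd⟩ : ∃ Q, Q = P2 p L G := ⟨_, rfl⟩
  -- the geometry
  have geo : ∀ w : (Ω × Ω) × Ω, 0 < Q w →
      |(z (Fp w.2) i : ℝ) - Pt (L w.1.1) i (tf w.2 / 2 ^ M) -
        ((D (L w.1.2) i : ℝ) - D (L w.1.1) i) * ((tf w.2 : ℝ) / 2 ^ M - tf w.1.1 / 2 ^ M) ^ j| ≤
        2 * K ∧ C (L w.2) = C (L w.1.1) ∧ |(D (L w.1.2) i : ℝ) - D (L w.1.1) i| ≤ 2 ^ m ∧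
        |(tf w.2 : ℝ) / 2 ^ M - tf w.1.1 / 2 ^ M| ≤ 1 := by
    intro w hw
    rw [hQd] at hw
    obtain ⟨a1, a2, a3⟩ := P2_pos hp L G hw
    obtain ⟨b1, b2, b3⟩ := P1_pos hp G a1
    have c1 := h.jmp w.1.2 w.1.1 w.2 b2 b1 a2 b3.symm a3.symm i
    have c2 := h.pos w.2 a2 i
    have c3 := h.Gt w.1.1 w.1.2 b1 b2 b3
    rw [← c3] at c1
    rw [← a3] at c2
    have t1 := h.tfb _ a2
    have t2 := h.tfb _ b1
    have u1 : (0 : ℝ) ≤ tf w.2 := by exact_mod_cast t1.1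
    have u2 : (tf w.2 : ℝ) ≤ 2 ^ M := by exact_mod_cast t1.2
    have u3 : (0 : ℝ) ≤ tf w.1.1 := by exact_mod_cast t2.1
    have u4 : (tf w.1.1 : ℝ) ≤ 2 ^ M := by exact_mod_cast t2.2
    refine ⟨?_, ?_, ?_, ?_⟩
    · have e1 : (z (Fp w.2) i : ℝ) - Pt (L w.1.1) i (tf w.2 / 2 ^ M) -
          ((D (L w.1.2) i : ℝ) - D (L w.1.1) i) * ((tf w.2 : ℝ) / 2 ^ M - tf w.1.1 / 2 ^ M) ^ j =
          ((z (Fp w.2) i : ℝ) - Pt (L w.1.2) i (tf w.2 / 2 ^ M)) -
          (Pt (L w.1.1) i (tf w.2 / 2 ^ M) - Pt (L w.1.2) i (tf w.2 / 2 ^ M) -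
            ((D (L w.1.1) i : ℝ) - D (L w.1.2) i) *
              ((tf w.2 : ℝ) / 2 ^ M - tf w.1.1 / 2 ^ M) ^ j) := by ring
      rw [e1]
      refine (abs_sub _ _).trans ?_
      linarith
    · rw [← a3]
      exact (h.GC _ _ b1 b2 b3).1.symm
    · have := h.GD w.1.2 w.1.1 b2 b1 b3.symm i
      exact this
    · rw [← sub_div, abs_div, abs_of_pos hM, div_le_one hM, abs_le]
      constructor <;> linarith
  -- the letters
  obtain ⟨Z, hZ⟩ : ∃ Z : (Ω × Ω) × Ω → ℤ, Z = fun w => z (Fp w.2) i := ⟨_, rfl⟩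
  obtain ⟨W, hW⟩ : ∃ W : (Ω × Ω) × Ω → ℤ × ((Fin c → ℤ) × Λ),
      W = fun w => (tf w.2, (D (L w.1.2), L w.1.1)) := ⟨_, rfl⟩
  obtain ⟨g, hg⟩ : ∃ g : (Ω × Ω) × Ω → ℤ, g = fun w => tf w.1.1 / (2 ^ (M - n) : ℤ) := ⟨_, rfl⟩
  have Wd : ∀ w w' : (Ω × Ω) × Ω, W w = W w' → tf w.2 = tf w'.2 ∧ D (L w.1.2) = D (L w'.1.2) ∧
      L w.1.1 = L w'.1.1 := by
    intro w w' hh
    rw [hW] at hh
    simp only [Prod.mk.injEq] at hh
    exact hh
  rw [← hQd] at hQ Q0
  -- the row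
  have s1 : CH p (fun ω => z (Fp ω) i) (fun ω => (z (Fp ω) i / (2 ^ m : ℤ), Yb (Fp ω))) =
      CH Q Z (fun w => (Z w / (2 ^ m : ℤ), Yb (Fp w.2))) := by
    rw [hQd, hZ]
    exact ((P2_s hp L G).CH (fun ω => z (Fp ω) i)
      (fun ω => (z (Fp ω) i / (2 ^ m : ℤ), Yb (Fp ω)))).symm
  have s2 : CH Q Z (fun w => (Z w / (2 ^ m : ℤ), W w)) ≤
      CH Q Z (fun w => (Z w / (2 ^ m : ℤ), Yb (Fp w.2))) := by
    refine CH_mono_cond Q0 fun w w' hw hw' hz => ?_
    obtain ⟨z1, z2⟩ := Prod.ext_iff.mp hz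
    obtain ⟨y1, y2, y3⟩ := Wd _ _ z2
    refine Prod.ext z1 ?_
    have g1 := (geo w hw).2.1
    have g2 := (geo w' hw').2.1
    rw [hQd] at hw hw'
    exact h.Yt _ _ (P2_pos hp L G hw).2.1 (P2_pos hp L G hw').2.1 y1 (by rw [g1, g2, y3])
  -- the upper digits are few
  have s3 : CH Q (fun w => Z w / (2 ^ m : ℤ)) W ≤ Real.log (8 * K + 7) := by
    refine (ch_nr hQ (fun w => Z w / (2 ^ m : ℤ)) W (L := 4 * K + 2 + 1) fun w w' hw hw' hz => ?_).trans
      (le_of_eq (by ring_nf))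
    refine div_nr ?_
    obtain ⟨y1, y2, y3⟩ := Wd _ _ hz
    obtain ⟨g1, -, g2, g3⟩ := geo w hw
    obtain ⟨g1', -, g2', g3'⟩ := geo w' hw'
    rw [← y1, ← y3] at g1'
    have hb : ∀ w : (Ω × Ω) × Ω, |(D (L w.1.2) i : ℝ) - D (L w.1.1) i| ≤ 2 ^ m →
        |(tf w.2 : ℝ) / 2 ^ M - tf w.1.1 / 2 ^ M| ≤ 1 →
        |((D (L w.1.2) i : ℝ) - D (L w.1.1) i) *
          ((tf w.2 : ℝ) / 2 ^ M - tf w.1.1 / 2 ^ M) ^ j| ≤ 2 ^ m := by
      intro w q1 q2
      rw [abs_mul, abs_pow]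
      calc _ ≤ (2 : ℝ) ^ m * 1 := mul_le_mul q1 (pow_le_one₀ (abs_nonneg _) q2) (by positivity)
            (by positivity)
        _ = _ := mul_one _
    have r1 := abs_le.1 (hb w g2 g3)
    have r2 := abs_le.1 (hb w' g2' g3')
    rw [← y1, ← y3] at r2
    rw [hZ]
    have g1 := abs_le.1 g1
    have g1' := abs_le.1 g1'
    have hk : (1 : ℝ) ≤ 2 ^ m := one_le_pow₀ (by norm_num)
    have hK : (0 : ℝ) ≤ K := Nat.cast_nonneg K
    have hKm : (K : ℝ) * 1 ≤ K * 2 ^ m := mul_le_mul_of_nonneg_left hk hK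
    rw [abs_le]
    constructor <;> nlinarith [g1.1, g1.2, g1'.1, g1'.2, r1.1, r1.2, r2.1, r2.2]
  have s4 := CH_le_add Q0 Z (fun w => Z w / (2 ^ m : ℤ)) W
  -- the digits of the time
  have s5 := CH_le_add Q0 g Z W
  have s6 : n * Real.log 2 - (3 * e + 4) ≤ CH Q g W := by
    have f1 := full_hop h
    rw [← hQd, ← hW] at f1
    have f2 := CH_le_add Q0 (fun w => tf w.1.1) g W
    have f3 : CH Q (fun w => tf w.1.1) (fun w => (g w, W w)) ≤ ((M - n : ℕ) : ℝ) * Real.log 2 + 2 := by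
      refine (ch_nr hQ (fun w => tf w.1.1) (fun w => (g w, W w)) (L := 2 ^ (M - n))
        fun w w' hw hw' hz => ?_).trans log_two_pow
      have z1 : g w = g w' := (Prod.ext_iff.mp hz).1
      rw [hg] at z1
      exact div_back z1
    have f4 : ((M - n : ℕ) : ℝ) = M - n := by
      rw [Nat.cast_sub (by omega)]
    rw [f4] at f3
    linarith
  -- given the position
  obtain ⟨F, hF⟩ : ∃ F : (Ω × Ω) × Ω → Prop, F = fun w =>
      |(D (L w.1.2) i : ℝ) - D (L w.1.1) i| < 2 ^ (m - u) ∨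
      |(tf w.2 : ℝ) / 2 ^ M - tf w.1.1 / 2 ^ M| < (1 / 2) ^ v := ⟨_, rfl⟩
  have pF : Pb Q F ≤ δ + μ := by
    have q1 : Pb Q (fun w => |(D (L w.1.2) i : ℝ) - D (L w.1.1) i| < 2 ^ (m - u)) ≤ δ := by
      rw [hQd]
      have := Pool.MIC.Marg.Pb_eq (P2_f hp L G)
        (fun w : Ω × Ω => |(D (L w.2) i : ℝ) - D (L w.1) i| < 2 ^ (m - u))
      rw [this]
      exact hsep
    have q2 : Pb Q (fun w => |(tf w.2 : ℝ) / 2 ^ M - tf w.1.1 / 2 ^ M| < (1 / 2) ^ v) ≤ μ := by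
      rw [hQd]
      refine time_off h ?_ hμ hv0
      have : v ≤ j * v := Nat.le_mul_of_pos_left v (by omega)
      omega
    refine (Pb_or_le hQ _ _ ?_).trans (add_le_add q1 q2)
    intro w hw
    rw [hF] at hw
    exact hw
  have s7 : CH Q g (fun w => (Z w, W w)) ≤ 4 + (δ + μ) * (n * Real.log 2 + 2) +
      Real.log (8 * K + 7) := by
    obtain ⟨sg, hsg⟩ : ∃ sg : (Ω × Ω) × Ω → ℤ, sg = fun w =>
      if 0 ≤ (tf w.2 : ℝ) / 2 ^ M - tf w.1.1 / 2 ^ M then 1 else 0 := ⟨_, rfl⟩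
    have v1 := CH_le_add Q0 g sg (fun w => (Z w, W w))
    have v2 : CH Q sg (fun w => (Z w, W w)) ≤ Real.log (2 * 1 + 1) := by
      refine ch_nr hQ sg _ fun w w' _ _ _ => ?_
      rw [hsg]
      beta_reduce
      split_ifs <;> norm_num
    have v3 := CH_near_off hQ g (fun w => (sg w, (Z w, W w))) F (B := 2 ^ n) (D := 4 * K + 1)
      (fun w hw => ?_) (fun w w' hw hw' n1 n2 hz => ?_)
    · obtain ⟨P, hP⟩ : ∃ P, P = Pb Q F := ⟨_, rfl⟩
      have P0 : 0 ≤ P := by rw [hP]; exact Pb_nn hQ F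
      have P1' : P ≤ 1 := by rw [hP]; exact Pb_one_le hQ F
      have c1 : Pb Q (fun w => ¬ F w) = 1 - P := by
        have := Pb_not hQ F
        rw [hP]
        linarith
      rw [c1, ← hP] at v3
      rw [← hP] at pF
      have k1 : Real.log (2 * (2 * 2 ^ n) + 1) ≤ n * Real.log 2 + 2 := by
        have h3 : Real.log (2 * (2 * 2 ^ n) + 1) ≤ Real.log (2 ^ n * 5) :=
          Real.log_le_log (by positivity) (by
            have : (1 : ℝ) ≤ 2 ^ n := one_le_pow₀ (by norm_num)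
            linarith)
        rw [Real.log_mul (by positivity) (by norm_num), Real.log_pow] at h3
        have := log_five
        linarith
      have k2 : P * Real.log (2 * (2 * 2 ^ n) + 1) ≤ (δ + μ) * (n * Real.log 2 + 2) :=
        mul_le_mul pF k1 (Real.log_nonneg (by
          have : (1 : ℝ) ≤ 2 ^ n := one_le_pow₀ (by norm_num)
          linarith)) (P0.trans pF)
      have hK : (0 : ℝ) ≤ K := Nat.cast_nonneg K
      have k3 : Real.log (2 * (4 * K + 1) + 1) ≤ Real.log (8 * K + 7) :=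
        Real.log_le_log (by positivity) (by linarith)
      have k4 : 0 ≤ Real.log (2 * (4 * K + 1) + 1) := Real.log_nonneg (by linarith)
      have k5 : (1 - P) * Real.log (2 * (4 * K + 1) + 1) ≤ Real.log (2 * (4 * K + 1) + 1) := by
        nlinarith
      have k6 : Real.log (2 * 1 + 1) ≤ 2 := by
        have := Real.log_le_sub_one_of_pos (show (0 : ℝ) < 2 * 1 + 1 by norm_num)
        linarith
      linarith
    · rw [hQd] at hw
      obtain ⟨a1, -, -⟩ := P2_pos hp L G hw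
      obtain ⟨b1, -, -⟩ := P1_pos hp G a1
      have t2 := h.tfb _ b1
      have hp1 : (0 : ℤ) < 2 ^ (M - n) := by positivity
      have u1 : 0 ≤ tf w.1.1 / (2 ^ (M - n) : ℤ) := Int.ediv_nonneg t2.1 hp1.le
      have u2 : tf w.1.1 / (2 ^ (M - n) : ℤ) ≤ 2 ^ n := by
        have e1 : ((2 ^ M : ℕ) : ℤ) = 2 ^ n * 2 ^ (M - n) := by
          rw [← pow_add]
          push_cast
          congr 1
          omega
        have h2 := Int.ediv_le_ediv hp1 t2.2
        rw [e1, Int.mul_ediv_cancel _ hp1.ne'] at h2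
        exact h2
      have u3 : |g w| ≤ 2 ^ n := by
        rw [hg, abs_of_nonneg u1]
        exact u2
      have u4 : ((|g w| : ℤ) : ℝ) ≤ ((2 ^ n : ℤ) : ℝ) := by exact_mod_cast u3
      push_cast at u4
      exact u4
    · obtain ⟨z1, z2⟩ := Prod.ext_iff.mp hz
      obtain ⟨z3, z4⟩ := Prod.ext_iff.mp z2
      obtain ⟨y1, y2, y3⟩ := Wd _ _ z4
      obtain ⟨g1, -, -, -⟩ := geo w hw
      obtain ⟨g1', -, -, -⟩ := geo w' hw'
      rw [hF, not_or, not_lt, not_lt] at n1 n2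
      have z3' : z (Fp w.2) i = z (Fp w'.2) i := by
        have : Z w = Z w' := z3
        rwa [hZ] at this
      rw [← y1, ← y2, ← y3, ← z3'] at g1'
      rw [← y1, ← y2, ← y3] at n2
      obtain ⟨x, hx⟩ : ∃ x, x = (tf w.2 : ℝ) / 2 ^ M - tf w.1.1 / 2 ^ M := ⟨_, rfl⟩
      obtain ⟨y, hy⟩ : ∃ y, y = (tf w.2 : ℝ) / 2 ^ M - tf w'.1.1 / 2 ^ M := ⟨_, rfl⟩
      obtain ⟨d, hd⟩ : ∃ d, d = (D (L w.1.2) i : ℝ) - D (L w.1.1) i := ⟨_, rfl⟩
      rw [← hx, ← hd] at g1 n1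
      rw [← hy, ← hd] at g1' n2
      have hsgn : 0 ≤ x ↔ 0 ≤ y := by
        have z1' : sg w = sg w' := z1
        rw [hsg] at z1'
        beta_reduce at z1'
        rw [← y1, ← hx, ← hy] at z1'
        by_cases h1 : 0 ≤ x <;> by_cases h2 : 0 ≤ y <;> simp [h1, h2] at z1' ⊢
      have hr : (0 : ℝ) < (1 / 2) ^ v := by positivity
      have pw := pow_near' hr n1.2 n2.2 hj hsgn
      have dxy : |d| * |x ^ j - y ^ j| ≤ 4 * K := by
        rw [← abs_mul]
        have g1 := abs_le.1 g1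
        have g1' := abs_le.1 g1'
        rw [abs_le]
        constructor <;> nlinarith [g1.1, g1.2, g1'.1, g1'.2]
      have d1 : (2 : ℝ) ^ (m - u) * ((1 / 2) ^ v) ^ (j - 1) * |x - y| ≤ 4 * K := by
        calc (2 : ℝ) ^ (m - u) * ((1 / 2) ^ v) ^ (j - 1) * |x - y|
            = 2 ^ (m - u) * (((1 / 2) ^ v) ^ (j - 1) * |x - y|) := by ring
          _ ≤ |d| * |x ^ j - y ^ j| := mul_le_mul n1.1 pw (by positivity) (abs_nonneg _)
          _ ≤ _ := dxy
      have e1 : (2 : ℝ) ^ n * |x - y| ≤ 2 ^ (m - u) * ((1 / 2) ^ v) ^ (j - 1) * |x - y| := by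
        refine mul_le_mul_of_nonneg_right ?_ (abs_nonneg _)
        have e2 : m - u = n + v + v * (j - 1) := by
          obtain ⟨j', rfl⟩ : ∃ j', j = j' + 1 := ⟨j - 1, by omega⟩
          rw [Nat.add_sub_cancel]
          have : (j' + 1) * v = v + v * j' := by ring
          omega
        rw [e2, pow_add, ← pow_mul, mul_assoc, ← mul_pow]
        norm_num
        rw [pow_add]
        exact le_mul_of_one_le_right (by positivity) (one_le_pow₀ (by norm_num))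
      have e3 : |x - y| * 2 ^ M = |(tf w.1.1 : ℝ) - tf w'.1.1| := by
        have e4 : x - y = ((tf w'.1.1 : ℝ) - tf w.1.1) / 2 ^ M := by
          rw [hx, hy]
          ring
        rw [e4, abs_div, abs_of_pos hM, div_mul_cancel₀ _ hM.ne', abs_sub_comm]
      have e5 : (2 : ℝ) ^ M = 2 ^ n * 2 ^ (M - n) := by
        rw [← pow_add]
        congr 1
        omega
      rw [hg]
      refine div_nr ?_
      rw [← e3, e5]
      have h5 : (0 : ℝ) < 2 ^ (M - n) := by positivity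
      calc |x - y| * (2 ^ n * 2 ^ (M - n)) = (2 ^ n * |x - y|) * 2 ^ (M - n) := by ring
        _ ≤ 4 * K * 2 ^ (M - n) := mul_le_mul_of_nonneg_right (e1.trans d1) h5.le
  have hcB : cB K = 8 + 2 * Real.log (8 * K + 7) := rfl
  rw [s1, hcB]
  linarith

end

end Pool.NA97
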