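import Pool.Agent.H97.NA.Mem
import Pool.Agent.H62.V0C.Cfb
import Pool.Agent.H30.LPJ.Ipj
import Pool.Agent.H74.STAT.NNo

/-!
# The fullness of the lower order: the class

`labD`: labels with own jets of natural size, on a large part. `vf_box`: the inequality between the
numbers of the lists.
-/

set_option autoImplicit false

namespace Pool.NA97

open Finset Real MvPolynomial
open Pool.Agent.H49.Ent Pool.Agent.H32.Dense Pool.STK Pool.KA Pool.KSAT Pool.K2S Pool.PB Pool.GEN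
open Pool.S6C Pool.RCD Pool.LA91 Pool.OWN68 Pool.LPJ30 Pool.LP30 Pool.RJ28
open Pool.GRD (LbP)
open Pool.BFL (Pb)
open Pool.RV28 (SdI)
open Pool.PB.Trl (rt rt_mem)
open Pool.AVG5 (jt)

variable {m : ℕ}

/-- The own jets of high order vanish. -/
theorem ojet_hi {J : ℕ} (F : Fam m J) {W : ℕ} (hW : W ≤ J) {V : Type} (z' : LnT F → V)
    (G : V → MvPolynomial (Option (Fin m)) ℝ) (κ : Fin m) {D : ℕ}
    (hG : ∀ v, (G v).totalDegree ≤ D) (ω : F.Ω) {j : ℕ} (hj : D + 2 ≤ j) :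
    ojet F κ j (G (z' (slam F W ω))) ω = 0 := by
  have h1 := Pool.AVG57.ojet_tay F hW ω κ (fun s (_ : Fin m) => G (z' s)) j
  have hQd : (dv W (fun s (_ : Fin m) => G (z' s)) κ (slam F W ω)).natDegree ≤ D + 1 :=
    natDegree_dv W (K := D) (G := fun s (_ : Fin m) => G (z' s)) (fun s _ => hG _) _ _
  have e0 : jt (dv W (fun s (_ : Fin m) => G (z' s)) κ (slam F W ω)) (rt F W ω) j = 0 := by
    unfold jt
    refine Polynomial.coeff_eq_zero_of_natDegree_lt ?_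
    rw [Polynomial.natDegree_taylor]
    omega
  have h2 : ojet F κ j (G (z' (slam F W ω))) ω / ((j.factorial : ℝ) * (2 ^ W) ^ j) = 0 := by
    rw [← e0]
    exact h1.symm
  have h3 : ((j.factorial : ℝ) * (2 ^ W) ^ j) ≠ 0 := by positivity
  rcases div_eq_zero_iff.1 h2 with h | h
  · exact h
  · exact absurd h h3

/-- **Labels with own jets of natural size**, on a large part. -/
theorem labD {S : PCl m} {C₀ : ℝ} (htm : TmC S C₀)
    (hpos : ∀ (τ : ℝ) (J : ℕ) (F : Fam m J) (A : F.Ω → Prop), S.St τ J F A → 0 < Pe F.p A)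
    {c : ℕ → Fin m} {d : ℕ} {sn : ℕ → ℝ → ℝ} {b : ℝ} (hb0 : 0 ≤ b) (hb1 : b < 1) {rd : ℕ → ℝ}
    (hat : ∀ i < d + 1, Att S ((range i).image c) (c i) b (sn i b) (rd i)) {e e₁ : ℝ}
    (he : 0 < e) (he₁ : 0 < e₁) : ∃ K₀ : ℕ, Bas S (fun J F A => ∃ B₀ : F.Ω → Prop, Sub B₀ A ∧
      Pe F.p A ≤ 2 * Pe F.p B₀ ∧ ∃ (V : Type) (z : PtT F → V) (z' : LnT F → V)
      (g : V → ℕ → MvPolynomial (Option (Fin m)) ℝ), LbD F c sn d K₀ b e e₁ B₀ z z' g) := by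
  classical
  obtain ⟨K₀, hK⟩ := exs_lbC (c := c) (r₀ := 0) (n := d + 1) (w := b) (rd := rd)
    (p := fun i => sn i b) (fun i _ hi => hat i hi) he
  obtain ⟨η, hη⟩ : ∃ η : ℝ, η = 1 / (2 * ((d : ℝ) + 1) * ((K₀ : ℝ) + 2)) := ⟨_, rfl⟩
  have hη0 : 0 < η := by
    rw [hη]
    positivity
  have hbas : Bas S (fun J F A => ∀ k < d + 1, ∀ j < K₀ + 2, ∀ (P : ℕ) (V : Type)
      (z : PtT F → V) (z' : LnT F → V) (G : V → MvPolynomial (Option (Fin m)) ℝ),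
      LbP F ((range k).image c) (c k) K₀ J ⌊b * J⌋₊ P A z z' G →
      Pb (Pool.Agent.H49.Ent.cond F.p A True) (fun ω =>
        ¬ |ojet F (c k) j (G (z' (slam F ⌊b * J⌋₊ ω))) ω| ≤
          2 ^ ((e₁ + j * b) * J) * (1 / 2 ^ P)) ≤ η) :=
    Bas.all (d + 1) fun k _ => Bas.all (K₀ + 2) fun j _ =>
      own_cls htm ((range k).image c) (c k) j K₀ hb0 hb1 hη0 he₁
  refine ⟨K₀, Bas.mono 0 ((hK.and hbas).and (pos_bas hpos)) ?_⟩
  rintro J - F A ⟨⟨⟨V, z, z', g, hlb, -⟩, hb⟩, hA⟩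
  have hbJ : ⌊b * (J : ℝ)⌋₊ ≤ J := floor_le hb1.le J
  have hlaw := isLaw_cond F.isLaw hA
  have hL : ∀ i < d + 1, LbP F ((range i).image c) (c i) K₀ J ⌊b * J⌋₊ ⌊(sn i b - e) * J⌋₊ A z z'
      (fun v => g v i) := fun i hi => LbP.of (hlb i (Nat.zero_le i) hi)
  obtain ⟨Bad, hBad⟩ : ∃ Bad : F.Ω → Prop, Bad = fun ω =>
      ∃ i ∈ (Finset.range (d + 1) ×ˢ Finset.range (K₀ + 2)),
        ¬ |ojet F (c i.1) i.2 (g (z' (slam F ⌊b * J⌋₊ ω)) i.1) ω| ≤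
          2 ^ ((e₁ + i.2 * b) * J) * (1 / 2 ^ ⌊(sn i.1 b - e) * J⌋₊) := ⟨_, rfl⟩
  have hPB : Pb (Pool.Agent.H49.Ent.cond F.p A True) Bad ≤ 1 / 2 := by
    rw [hBad]
    refine (Pool.V0C62.Pb_un hlaw (Finset.range (d + 1) ×ˢ Finset.range (K₀ + 2)) _
      (e := η) ?_).trans ?_
    · rintro ⟨k, j⟩ hi
      rw [Finset.mem_product, Finset.mem_range, Finset.mem_range] at hi
      exact hb k hi.1 j hi.2 _ V z z' (fun v => g v k) (hL k hi.1)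
    · rw [Finset.card_product, Finset.card_range, Finset.card_range, hη, mul_one_div,
        div_le_div_iff₀ (by positivity) (by norm_num)]
      push_cast
      nlinarith [(Nat.cast_nonneg d : (0 : ℝ) ≤ d), (Nat.cast_nonneg K₀ : (0 : ℝ) ≤ K₀)]
  refine ⟨fun ω => A ω ∧ ¬ Bad ω, fun ω h => h.1, ?_, V, z, z', g, ?_⟩
  · have h1 : Pb (Pool.Agent.H49.Ent.cond F.p A True) Bad = Pe F.p (fun ω => A ω ∧ Bad ω) /
        Pe F.p A := Pb_cond hA Bad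
    rw [h1, div_le_iff₀ hA] at hPB
    have h2 : Pe F.p A = Pe F.p (fun ω => A ω ∧ Bad ω) + Pe F.p (fun ω => A ω ∧ ¬ Bad ω) := by
      show law F.p A True = law F.p _ True + law F.p _ True
      unfold law
      rw [← Finset.sum_add_distrib]
      refine Finset.sum_congr rfl fun ω _ => ?_
      by_cases h3 : A ω
      · by_cases h4 : Bad ω
        · simp [h3, h4]
        · simp [h3, h4]
      · simp [h3]
    linarith
  · refine ⟨fun l hl => (hL l (by omega)).sub fun ω h => h.1, ?_⟩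
    rintro l hl j ω ⟨hω, hnb⟩
    rcases Nat.lt_or_ge j (K₀ + 2) with hj | hj
    · by_contra hcon
      refine hnb ?_
      rw [hBad]
      refine ⟨(l, j), ?_, ?_⟩
      · rw [Finset.mem_product, Finset.mem_range, Finset.mem_range]
        exact ⟨by omega, hj⟩
      · exact hcon
    · rw [ojet_hi F hbJ z' (fun v => g v l) (c l) (hL l (by omega)).deg ω hj, abs_zero]
      positivity

theorem nat_list {α : Type} (L : List α) (f : α → ℝ) : ∃ N : ℕ, ∀ t ∈ L, f t ≤ N := by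
  induction L with
  | nil => exact ⟨0, fun t ht => absurd ht (by simp)⟩
  | cons a L ih =>
    obtain ⟨N, hN⟩ := ih
    obtain ⟨N', hN'⟩ := exists_nat_ge (f a)
    refine ⟨max N N', fun t ht => ?_⟩
    rw [Nat.cast_max]
    rcases List.mem_cons.1 ht with rfl | ht
    · exact hN'.trans (le_max_right _ _)
    · exact (hN t ht).trans (le_max_left _ _)

theorem nat_fin (n : ℕ) (f : ℕ → ℝ) : ∃ N : ℕ, ∀ i ≤ n, f i ≤ N := by
  obtain ⟨N, hN⟩ := nat_list (List.range (n + 1)) f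
  exact ⟨N, fun i hi => hN i (List.mem_range.2 (by omega))⟩

theorem nat_list2 {α : Type} (L : List α) (n : ℕ) (f : α → ℕ → ℝ) :
    ∃ N : ℕ, ∀ t ∈ L, ∀ i ≤ n, f t i ≤ N := by
  choose N hN using fun t => nat_fin n (f t)
  obtain ⟨M, hM⟩ := nat_list L fun t => (N t : ℝ)
  exact ⟨M, fun t ht i hi => (hN t i hi).trans (hM t ht)⟩

theorem nat_fin2 (n n' : ℕ) (f : ℕ → ℕ → ℝ) : ∃ N : ℕ, ∀ l < n, ∀ i ≤ n', f l i ≤ N := by
  obtain ⟨N, hN⟩ := nat_list2 (List.range n) n' f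
  exact ⟨N, fun l hl => hN l (List.mem_range.2 hl)⟩

/-- **The inequality between the numbers of the lists.** -/
theorem vf_box {S : PCl m} {γ₀ : ∀ J : ℕ, Fam m J → Type}
    {y₀ : ∀ (J : ℕ) (F : Fam m J), F.Ω → γ₀ J F} {C₀ : ℝ} (hS : S.Ne) (htm : TmC S C₀)
    (hpos : ∀ (τ : ℝ) (J : ℕ) (F : Fam m J) (A : F.Ω → Prop), S.St τ J F A → 0 < Pe F.p A)
    {c : ℕ → Fin m} (hyI : SdI c y₀)
    (hyT : ∀ (J : ℕ) (F : Fam m J), ∃ (R : Type) (β : F.ζ → R), ∀ ω ω',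
      y₀ J F ω = y₀ J F ω' ↔ F.T ω = F.T ω' ∧ β (F.Z ω) = β (F.Z ω'))
    {d : ℕ} {sn : ℕ → ℝ → ℝ} {G : Set ℝ} (hG : ChG S c d sn G) {b : ℝ} (hb : b ∈ G) {rk : ℝ}
    (hat : Att S ((range d).image c) (c d) b (sn d b) rk)
    {K K' s j₀ n' : ℕ} {oB : Fin n' → ℕ} {nB : Fin n' → ℝ} {nH nV lv : ℕ → ℝ}
    {σ₀ v x₃ x y o o' o'' O Bm μ γ Λ η₂ e₁ : ℝ}
    (hN : VfB sn d K K' s j₀ oB nB lv σ₀ b v x₃ x y o o' o'' O Bm μ γ Λ η₂ e₁) (he₁ : 0 < e₁)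
    (hnH : ∀ l < d, nH l = sn l b + lv l + σ₀) (hnV : ∀ l < d, nV l = nH l - b)
    (hr : NrC sn d nH nV lv σ₀ b b) (hi : HiW sn d lv (σ₀ / 2) G b) {ηv ηx ηy : ℝ}
    (hηv : RNum S (fun J F => ptr F J) (vg v) ηv) (hηx : RNum S (fun J F => ptr F J) (vg x₃) ηx)
    (hηy : RNum S (fun J F => ptr F J) (vg y) ηy) {κ : ℝ} {φ : ℕ → ℝ}
    (hq : ∀ t ∈ Lq K s v x₃ x y o o' o'' O, RtJ S y₀ c d
      (fun _ : Fin (K' + 1 - t.1) => c d) (fun i => odv t.1 i) (fun _ : Fin n' => c d) oB sn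
      (fun _ w => sn d w) (fun _ w => sn d w) nH nV nB b t.2.1 t.2.2
      (φ t.1 * (t.2.2 - t.2.1)) κ)
    (hκ : 0 < κ) (hdσ : d * σ₀ ≤ κ) (hφ : φ (K + 1) = 0) (hφK : 5 * κ < φ K * (o'' - y))
    {E δ η₁ : ℝ} (hE : E = φ K * (o - o') + 8 * κ) (hE0 : 8 * κ ≤ E) (hδ : 0 < δ) (hδ2 : δ ≤ 2)
    (hη₁ : 0 < η₁) (hqμ : η₂ + (K - s : ℕ) * η₁ ≤ μ) (hsm : δ + 3 * E / η₁ ≤ 1) :
    (1 - δ - 3 * E / η₁) * (μ - η₂ - (K - s : ℕ) * η₁) * Real.log 2 - 3 * E ≤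
      (φ s - φ (s + 1)) * (x - x₃) + 8 * κ + Λ * Real.log 2 := by
  classical
  have hEp : 0 < E := by linarith
  have hb0 : 0 ≤ b := hN.b0
  have hv1 : v < 1 := by linarith [hN.v3, hN.x3, hN.xy, hN.y1]
  have hb1 : b < 1 := by linarith [hN.bv]
  obtain ⟨u₁, rd₀, -, hch⟩ := hG.ch b hb
  have hatt : ∀ i < d + 1, Att S ((range i).image c) (c i) b (sn i b)
      ((fun i => if i < d then rd₀ i else rk) i) := by
    intro i hi
    by_cases h : i < d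
    · simp only [if_pos h]
      exact hch.att i (Nat.zero_le i) h
    · obtain rfl : i = d := by omega
      simp only [if_neg h]
      exact hat
  obtain ⟨k₁, hk₁, ea, hea, HQ⟩ := qn_list (Lq K s v x₃ x y o o' o'' O) hq
  obtain ⟨eb, heb, HF⟩ := few_pv (f := fun J F => ptr F J) htm hpos hG
    (fun J F => ⟨id, fun _ => rfl⟩) hyI.kn hb hr hi j₀ (κ / 10) (by positivity)
  obtain ⟨e₀, he₀⟩ : ∃ e₀ : ℝ, e₀ = min ea eb := ⟨_, rfl⟩
  have he₀p : 0 < e₀ := by rw [he₀]; exact lt_min hea heb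
  have he₀a : e₀ ≤ ea := by rw [he₀]; exact min_le_left _ _
  have he₀b : e₀ ≤ eb := by rw [he₀]; exact min_le_right _ _
  obtain ⟨e, he⟩ : ∃ e : ℝ, e = min e₁ e₀ := ⟨_, rfl⟩
  have hep : 0 < e := by rw [he]; exact lt_min he₁ he₀p
  have he1 : e ≤ e₁ := by rw [he]; exact min_le_left _ _
  have he2 : e ≤ e₀ := by rw [he]; exact min_le_right _ _
  obtain ⟨κ₁, hκ₁⟩ : ∃ κ₁ : ℝ, κ₁ = min k₁ (κ / 10) := ⟨_, rfl⟩
  have hκ₁p : 0 < κ₁ := by rw [hκ₁]; exact lt_min hk₁ (by positivity)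
  have hκ₁a : κ₁ ≤ k₁ := by rw [hκ₁]; exact min_le_left _ _
  have hκ₁b : κ₁ ≤ κ / 10 := by rw [hκ₁]; exact min_le_right _ _
  obtain ⟨K₀, HL⟩ := labD htm hpos hb0 hb1 hatt hep he₁
  -- records
  obtain ⟨w, hw⟩ : ∃ w : Fin 3 → ℝ, w = ![v, x₃, y] := ⟨_, rfl⟩
  have hw0 : w 0 = v := by rw [hw]; rfl
  have hw1 : w 1 = x₃ := by rw [hw]; rfl
  have hw2 : w 2 = y := by rw [hw]; rfl
  obtain ⟨ηw, hηw⟩ : ∃ ηw : Fin 3 → ℝ, ηw = ![ηv, ηx, ηy] := ⟨_, rfl⟩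
  have hRN : ∀ i, RNum S (fun J F => ptr F J) (vg (w i)) (ηw i) := by
    intro i
    rw [hw, hηw]
    fin_cases i
    · exact hηv
    · exact hηx
    · exact hηy
  have hwl : ∀ i, w i ≤ 1 := by
    intro i
    rw [hw]
    fin_cases i
    · exact hv1.le
    · show x₃ ≤ 1
      linarith [hN.x3, hN.xy, hN.y1]
    · exact hN.y1.le
  obtain ⟨k₂, hk₂, HR⟩ := records (ι := Fin 3) (S := S) hpos (le := fun i j => w i ≤ w j)
    (fun i => le_rfl) (fun i j k h1 h2 => le_trans h1 h2)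
    (f := fun _ J F => ptr F J) (g := fun i => vg (w i))
    (fun i j _ J F => ⟨id, fun _ => rfl⟩) (fun i j h J F => vg_mono h (hwl j) J F) hRN κ₁ hκ₁p
  -- the bounds of the digits
  obtain ⟨N₁, hN₁⟩ := nat_list2 (Lq K s v x₃ x y o o' o'' O) K' fun t i =>
    |sn d t.2.2 - (i : ℝ) * t.2.2| + |e₁ + (i : ℝ) * b| + 2
  obtain ⟨N₂, hN₂⟩ := nat_fin2 d 1 fun l j =>
    |(if j = 0 then nH l else nV l)| + |e₁ + (j : ℝ) * b| + 2
  obtain ⟨N₃, hN₃⟩ := nat_fin2 d j₀ fun l j =>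
    |sn l b + lv l + σ₀ / 2 - (j : ℕ) * b| + |e₁ + (j : ℝ) * b| + 2
  obtain ⟨N₄, hN₄⟩ := nat_list (List.finRange n') fun i => |nB i| + |e₁ + (oB i : ℝ) * b| + 2
  obtain ⟨Kc, hKc⟩ : ∃ Kc : ℕ, Kc = max K₀ (max (max N₁ N₂) (max N₃ N₄)) := ⟨_, rfl⟩
  have hKc0 : K₀ ≤ Kc := by rw [hKc]; exact le_max_left _ _
  have hKc1 : (N₁ : ℝ) ≤ Kc := by
    have : N₁ ≤ Kc := by rw [hKc]; exact (le_max_left _ _).trans ((le_max_left _ _).trans (le_max_right _ _))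
    exact_mod_cast this
  have hKc2 : (N₂ : ℝ) ≤ Kc := by
    have : N₂ ≤ Kc := by rw [hKc]; exact (le_max_right _ _).trans ((le_max_left _ _).trans (le_max_right _ _))
    exact_mod_cast this
  have hKc3 : (N₃ : ℝ) ≤ Kc := by
    have : N₃ ≤ Kc := by rw [hKc]; exact (le_max_left _ _).trans ((le_max_right _ _).trans (le_max_right _ _))
    exact_mod_cast this
  have hKc4 : (N₄ : ℝ) ≤ Kc := by
    have : N₄ ≤ Kc := by rw [hKc]; exact (le_max_right _ _).trans ((le_max_right _ _).trans (le_max_right _ _))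
    exact_mod_cast this
  -- the limit
  obtain ⟨C₁, hC₁⟩ : ∃ C₁ : ℝ, C₁ = 1 - δ - 3 * E / η₁ := ⟨_, rfl⟩
  have hC₁0 : 0 ≤ C₁ := by rw [hC₁]; linarith
  have hEη : 0 < 3 * E / η₁ := by positivity
  have hC₁1 : C₁ ≤ 1 := by rw [hC₁]; linarith
  have hl2 : 0 < Real.log 2 := Real.log_pos one_lt_two
  have hl21 : Real.log 2 ≤ 1 := by
    have := Real.log_two_lt_d9
    linarith
  refine le_of_bas hS fun ε hε => ?_
  have hδ4 : (0 : ℝ) < δ / 4 := by positivity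
  have hB1 := Pool.STAT.NL.Bas.frac (HQ Kc) hδ4
  have hB2 := Pool.STAT.NL.Bas.frac (HF Kc) hδ4
  have hB3 := Pool.STAT.NL.Bas.frac (Pool.GRW.tmc_bas htm (ψ := κ / 10) (by positivity)) hδ4
  obtain ⟨J₁, hJ₁⟩ := exists_nat_ge (-Real.log (δ / 4) / k₂)
  obtain ⟨J₂, hJ₂⟩ := exists_nat_ge (1 / η₁)
  obtain ⟨J₃, hJ₃⟩ := exists_nat_ge ((6 + 3 * E / η₁) / E)
  obtain ⟨J₄, hJ₄⟩ := exists_nat_ge (Cst d K₀ K' δ / (κ / 10))
  obtain ⟨J₅, hJ₅⟩ := exists_nat_ge (1 / ε)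
  refine Bas.mono (J₁ + J₂ + J₃ + J₄ + J₅ + 1)
    ((((hB1.and hB2).and hB3).and (HL.and HR)).and (pos_bas hpos)) ?_
  rintro J hJ F A ⟨⟨⟨⟨g1, g2⟩, g3⟩, ⟨B₀, hB₀A, hPB₀, V, z, z', g, hl⟩, Vr, zr, hrcd⟩, hA⟩
  have hJ0 : (0 : ℝ) ≤ J := Nat.cast_nonneg J
  have hJc : (J₁ : ℝ) + J₂ + J₃ + J₄ + J₅ + 1 ≤ J := by exact_mod_cast hJ
  have hn1 : (0 : ℝ) ≤ J₁ := Nat.cast_nonneg _
  have hn2 : (0 : ℝ) ≤ J₂ := Nat.cast_nonneg _
  have hn3 : (0 : ℝ) ≤ J₃ := Nat.cast_nonneg _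
  have hn4 : (0 : ℝ) ≤ J₄ := Nat.cast_nonneg _
  have hn5 : (0 : ℝ) ≤ J₅ := Nat.cast_nonneg _
  have hj1 : -Real.log (δ / 4) ≤ k₂ * J := by
    have h1 : -Real.log (δ / 4) / k₂ ≤ J := by linarith
    rw [div_le_iff₀ hk₂] at h1
    linarith
  have hj2 : 1 ≤ η₁ * J := by
    have h1 : 1 / η₁ ≤ J := by linarith
    rw [div_le_iff₀ hη₁] at h1
    linarith
  have hj3 : 6 + 3 * E / η₁ ≤ E * J := by
    have h1 : (6 + 3 * E / η₁) / E ≤ J := by linarith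
    rw [div_le_iff₀ hEp] at h1
    linarith
  have hj4 : Cst d K₀ K' δ ≤ κ / 10 * J := by
    have h1 : Cst d K₀ K' δ / (κ / 10) ≤ J := by linarith
    rw [div_le_iff₀ (by positivity)] at h1
    linarith
  have hj5 : 1 ≤ ε * J := by
    have h1 : 1 / ε ≤ J := by linarith
    rw [div_le_iff₀ hε] at h1
    linarith
  have hJ1 : 1 ≤ J := by omega
  have hPB0 : 0 < Pe F.p B₀ := by linarith
  obtain ⟨R, β, hβ⟩ := hyT J F
  obtain ⟨-, χ, hχ⟩ := hrcd.cl 0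
  obtain ⟨φx, hφx⟩ := hrcd.nest 0 1 (by rw [hw0, hw1]; exact hN.v3)
  obtain ⟨φy, hφy⟩ := hrcd.nest 0 2 (by
    rw [hw0, hw2]
    exact hN.v3.trans (hN.x3.trans hN.xy))
  have key := vf_mem (y₀ := y₀) (κ := κ) (φ := φ) (zv := zr 0) (zx := zr 1) (zy := zr 2)
    (e₀ := e₀) (κ₁ := κ₁) (Kc := Kc) (E := E) (δ := δ) (η₁ := η₁) (χ := χ) hN hJ1 hnH hnV hl he1
    he2 hKc0 ?_ ?_ ?_ ?_ ?_ ?_ ?_ hβ hδ hδ2 hPB0 ?_ hκ₁b hκ hdσ hφ hφK hE hE0 hη₁ ?_ ?_ ?_ hsm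
    hj4
  · have h1 : C₁ * Real.log 2 ≤ 1 := by nlinarith
    rw [← hC₁] at key ⊢
    have h2 : C₁ * ((μ - η₂ - (K - s : ℕ) * η₁) * J - 1) * Real.log 2 - 3 * E * J =
        (C₁ * (μ - η₂ - (K - s : ℕ) * η₁) * Real.log 2 - 3 * E) * J - C₁ * Real.log 2 := by ring
    rw [h2] at key
    linarith
  · exact fun t ht i hi' => (hN₁ t ht i hi').trans hKc1
  · exact fun l hl' j hj => (hN₂ l hl' j hj).trans hKc2
  · exact fun l hl' j hj => (hN₃ l hl' j hj).trans hKc3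
  · exact fun i => (hN₄ i (List.mem_finRange i)).trans hKc4
  · intro ω hω
    have h1 := hχ ω (hB₀A ω hω)
    rw [hw0] at h1
    exact h1
  · intro ω ω' h
    rw [hφx ω, hφx ω', h]
  · intro ω ω' h
    rw [hφy ω, hφy ω', h]
  · intro B hB hPB
    have hBA : Sub B A := fun ω hω => hB₀A ω (hB ω hω)
    have hP4 : δ / 4 * Pe F.p A ≤ Pe F.p B := by
      have : δ / 4 * Pe F.p A ≤ δ / 4 * (2 * Pe F.p B₀) :=
        mul_le_mul_of_nonneg_left hPB₀ hδ4.le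
      linarith
    have hLg : Lg F k₂ A B := by
      refine ⟨hBA, le_trans (mul_le_mul_of_nonneg_right ?_ hA.le) hP4⟩
      rw [← Real.le_log_iff_exp_le hδ4]
      linarith
    have hMx : ∀ i, Mx (fun J F => ptr F J) (vg (w i)) κ₁ F B (zr i) := fun i =>
      ⟨(hrcd.cl i).sub hBA, fun V' z' hz' => hrcd.max B hLg i V' z' hz'⟩
    refine ⟨?_, ?_, ?_, ?_, ?_, ?_⟩
    · have h1 := hMx 0
      rw [hw0] at h1
      exact h1
    · have h1 := hMx 1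
      rw [hw1] at h1
      exact h1
    · have h1 := hMx 2
      rw [hw2] at h1
      exact h1
    · exact fun t ht => (g1 B hBA hP4 t ht).le hκ₁a he₀a
    · intro pa vp hpa hvp
      exact g2 B hBA hP4 pa vp ((paQ _ _ _ _ _ _ _).mono le_rfl he₀b hpa)
        ((vpQ _ _ _ _ _ _ _ _).mono le_rfl he₀b hvp)
    · exact (g3 B hBA hP4).2
  · rw [Nat.one_le_floor_iff] 
    exact hj2
  · have h1 : η₁ * J - 1 ≤ ⌊η₁ * (J : ℝ)⌋₊ := by
      have := (Nat.lt_floor_add_one (η₁ * (J : ℝ))).le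
      linarith
    have h2 := mul_le_mul_of_nonneg_left h1 hEη.le
    have h3 : 3 * E / η₁ * (η₁ * J - 1) = 3 * E * J - 3 * E / η₁ := by
      field_simp
    linarith
  · refine Nat.le_floor ?_
    push_cast
    have h1 : (⌊η₂ * (J : ℝ)⌋₊ : ℝ) ≤ η₂ * J := Nat.floor_le (mul_nonneg hN.η0.le hJ0)
    have h2 : (⌊η₁ * (J : ℝ)⌋₊ : ℝ) ≤ η₁ * J := Nat.floor_le (mul_nonneg hη₁.le hJ0)
    have h3 : (0 : ℝ) ≤ ((K - s : ℕ) : ℝ) := Nat.cast_nonneg _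
    have h4 := mul_le_mul_of_nonneg_left h2 h3
    have h5 := mul_le_mul_of_nonneg_right hqμ hJ0
    nlinarith

end Pool.NA97
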