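import Pool.Agent.H97.NA.Res
import Pool.Agent.H16.STR.Evp

/-!
# The codes of the hops of the order `K` for the derivative of order `s`

`hh`: the jets at the time (relative time of the window), `cf`: the coefficients at the beginning of
the window. `cdc`: the codes of the coefficients of order more than `j`; `lst`: a list of jets.
`few_D`, `few_H`, `few_L`, `few_U`, `few_K`: the codes of the system of hops have few bits given a
variable which determines jets and coefficients.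
-/

set_option autoImplicit false

namespace Pool.NA97

open Finset Real
open Pool.Agent.H49.Ent Pool.Agent.H32.Dense Pool.STK Pool.KA Pool.KSAT Pool.K2S Pool.PB Pool.GEN
open Pool.OWN68
open Pool.T4E (vtf vtf_nonneg vtf_lt)
open Pool.STR16 (pD pH pL pU pK rho rho_mem)
open Pool.AVG5 (jt jt_dif co_sub of_fl CH_near fl_mul)

variable {m J : ℕ} {F : Fam m J}

/-- The jets at the time, relative time of the window `W`. -/
noncomputable def hh (Pu : LnT F → Polynomial ℝ) (W k : ℕ) (ω : F.Ω) : ℝ :=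
  jt (Pu (slam F W ω)) (rho F W ω) k

/-- The coefficients at the beginning of the window. -/
noncomputable def cf (Pu : LnT F → Polynomial ℝ) (W k : ℕ) (ω : F.Ω) : ℝ :=
  (Pu (slam F W ω)).coeff k

/-- The derivative of order `s` of the path. -/
noncomputable def hP (Pu : LnT F → Polynomial ℝ) (s : ℕ) (x : LnT F) (_ : Fin 1) : Polynomial ℝ :=
  Polynomial.hasseDeriv s (Pu x)

/-- The codes of the coefficients of order more than `j`, scale `τ`. -/
noncomputable def cdc (Pu : LnT F → Polynomial ℝ) (j D : ℕ) (τ : ℝ) (x : LnT F)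
    (k : Fin (D + 1)) : ℤ := if j < (k : ℕ) then ⌊τ * (Pu x).coeff k⌋ else 0

/-- A list of jets of the orders `j, …, j + n - 1`, scales `σ`. -/
noncomputable def lst (Pu : LnT F → Polynomial ℝ) (W j n : ℕ) (σ : ℕ → ℝ) (ω : F.Ω)
    (i : Fin n) : ℤ := ⌊σ (j + i) * hh Pu W (j + i) ω⌋

/-- The constant. -/
noncomputable def bb (D : ℕ) (C : ℝ) : ℝ :=
  Real.log (2 * (2 ^ D * (2 ^ (D + 1) * (2 ^ (D + 1) * C)) + 1) + 1)

theorem bb_nonneg (D : ℕ) {C : ℝ} (hC : 0 ≤ C) : 0 ≤ bb D C := by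
  unfold bb
  refine Real.log_nonneg ?_
  have : 0 ≤ (2 : ℝ) ^ D * (2 ^ (D + 1) * (2 ^ (D + 1) * C)) := by positivity
  linarith

theorem bb_one (D : ℕ) {C : ℝ} (hC : 0 ≤ C) : Real.log (2 * (C + 1) + 1) ≤ bb D C := by
  unfold bb
  have p1 : (1 : ℝ) ≤ 2 ^ D := one_le_pow₀ (by norm_num)
  have p2 : (1 : ℝ) ≤ 2 ^ (D + 1) := one_le_pow₀ (by norm_num)
  have h1 : C ≤ 2 ^ (D + 1) * C := le_mul_of_one_le_left hC p2
  have h2 : 2 ^ (D + 1) * C ≤ 2 ^ (D + 1) * (2 ^ (D + 1) * C) :=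
    le_mul_of_one_le_left (by positivity) p2
  have h3 : 2 ^ (D + 1) * (2 ^ (D + 1) * C) ≤ 2 ^ D * (2 ^ (D + 1) * (2 ^ (D + 1) * C)) :=
    le_mul_of_one_le_left (by positivity) p1
  exact Real.log_le_log (by linarith) (by linarith)

variable {p : F.Ω → ℝ} {W : ℕ} {Pu : LnT F → Polynomial ℝ} {D : ℕ} {𝒵 : Type} {Z : F.Ω → 𝒵}

theorem det_rho (hT : Det p Z F.T) : Det p Z (rho F W) := fun ω ω' a b e => by
  have := hT ω ω' a b e
  unfold rho vtf
  rw [this]

theorem rho_abs (ω : F.Ω) : |rho F W ω| ≤ 1 := by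
  obtain ⟨h1, h2⟩ := rho_mem (F := F) (a := W) ω
  rwa [abs_of_nonneg h1]

/-- The coefficients from jets and coefficients. -/
theorem rs_cf (hd : ∀ x, (Pu x).natDegree ≤ D) (hT : Det p Z F.T) {k M : ℕ} {δ : ℝ} (hδ : 0 ≤ δ)
    (hj : ∀ i, k ≤ i → i ≤ M → Rs p Z (hh Pu W i) δ)
    (hc : ∀ i, k ≤ i → M < i → i ≤ D → Rs p Z (cf Pu W i) δ) :
    Rs p Z (cf Pu W k) (2 ^ (D + 1) * (2 ^ (D + 1) * δ)) :=
  rs_co (P := fun ω => Pu (slam F W ω)) (θ := rho F W) (fun _ _ => hd _) (det_rho hT)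
    (fun ω _ => rho_abs ω) hδ hj hc

/-- The jets from the coefficients. -/
theorem rs_hh (hd : ∀ x, (Pu x).natDegree ≤ D) (hT : Det p Z F.T) {k : ℕ} {δ : ℝ} (hδ : 0 ≤ δ)
    (h : ∀ i, k ≤ i → i ≤ D → Rs p Z (cf Pu W i) δ) :
    Rs p Z (hh Pu W k) (2 ^ (D + 1) * δ) :=
  rs_jet (P := fun ω => Pu (slam F W ω)) (θ := rho F W) (fun _ _ => hd _) (det_rho hT)
    (fun ω _ => rho_abs ω) hδ h

theorem chs {k s : ℕ} (h : k + s ≤ D) : ((k + s).choose s : ℝ) ≤ 2 ^ D := by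
  have h2 : (k + s).choose s ≤ 2 ^ D :=
    (Nat.choose_le_two_pow _ _).trans (Nat.pow_le_pow_right (by norm_num) h)
  exact_mod_cast h2

/-- A floor of a multiple. -/
theorem fl_near {τ a x y δ C B : ℝ} (hτ : 0 ≤ τ) (ha : 0 ≤ a) (hB : a ≤ B)
    (h : |x - y| ≤ δ) (hc : τ * δ ≤ C) :
    |((⌊τ * (a * x)⌋ : ℤ) : ℝ) - (⌊τ * (a * y)⌋ : ℤ)| ≤ B * C + 1 := by
  have h1 : |a * x - a * y| ≤ B * δ := by
    rw [← mul_sub, abs_mul, abs_of_nonneg ha]
    exact mul_le_mul hB h (abs_nonneg _) (ha.trans hB)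
  refine (fl_mul hτ h1).trans ?_
  have h2 : τ * (B * δ) = B * (τ * δ) := by ring
  have h3 : B * (τ * δ) ≤ B * C := mul_le_mul_of_nonneg_left hc (ha.trans hB)
  linarith

section few

variable {g : Fin 1 → ℕ} {s K K' q : ℕ} {δ C : ℝ}

/-- The velocity code. -/
theorem few_D (hp : IsLaw p) (hd : ∀ x, (Pu x).natDegree ≤ D) (hsK : s ≤ K) (hT : Det p Z F.T)
    (hδ : 0 ≤ δ) (hC : 0 ≤ C) (hc : (2 : ℝ) ^ g 0 * δ ≤ C)
    (hj : ∀ i, K ≤ i → i ≤ K' → Rs p Z (hh Pu W i) δ)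
    (hcc : ∀ i, K ≤ i → K' < i → i ≤ D → Rs p Z (cf Pu W i) δ) :
    CH p (fun ω => pD (hP Pu s) g (K - s) (slam F W ω)) Z ≤ 1 * bb D C := by
  have h1 := rs_cf hd hT (k := K) (M := K') hδ hj hcc
  have h2 := CH_near hp (fun ω => pD (hP Pu s) g (K - s) (slam F W ω)) Z
    (D := 2 ^ D * (2 ^ (D + 1) * (2 ^ (D + 1) * C)) + 1) (by positivity) fun ω ω' a b e i => ?_
  · rw [Fintype.card_fin] at h2
    refine h2.trans (le_of_eq ?_)
    unfold bb
    push_cast
    ring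
  · obtain rfl : i = 0 := Subsingleton.elim _ _
    have h3 := h1 ω ω' a b e
    unfold pD hP
    rw [Polynomial.hasseDeriv_coeff, Polynomial.hasseDeriv_coeff]
    have e1 : K - s + s = K := Nat.sub_add_cancel hsK
    rcases Nat.lt_or_ge D K with hK | hK
    · have z1 : ∀ x, (Pu x).coeff (K - s + s) = 0 := fun x =>
        Polynomial.coeff_eq_zero_of_natDegree_lt (by rw [e1]; exact (hd x).trans_lt hK)
      rw [z1, z1]
      simp only [mul_zero, Int.floor_zero, Int.cast_zero, sub_zero, abs_zero]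
      positivity
    · refine fl_near (by positivity) (Nat.cast_nonneg _) (chs (by rw [e1]; exact hK))
        (δ := 2 ^ (D + 1) * (2 ^ (D + 1) * δ)) ?_ ?_
      · rw [e1]
        exact h3
      · have e2 : (2 : ℝ) ^ g 0 * (2 ^ (D + 1) * (2 ^ (D + 1) * δ)) =
            2 ^ (D + 1) * (2 ^ (D + 1) * (2 ^ g 0 * δ)) := by ring
        rw [e2]
        exact mul_le_mul_of_nonneg_left (mul_le_mul_of_nonneg_left hc (by positivity))
          (by positivity)

/-- The codes of the higher orders. -/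
theorem few_H (hp : IsLaw p) (hd : ∀ x, (Pu x).natDegree ≤ D) (hsK : s ≤ K) (hT : Det p Z F.T)
    (hδ : 0 ≤ δ) (hC : 0 ≤ C) (hc : (2 : ℝ) ^ g 0 * δ ≤ C)
    (hj : ∀ i, K < i → i ≤ K' → Rs p Z (hh Pu W i) δ)
    (hcc : ∀ i, K < i → K' < i → i ≤ D → Rs p Z (cf Pu W i) δ) :
    CH p (fun ω => pH (hP Pu s) g (K - s) D (slam F W ω)) Z ≤ ((D : ℝ) + 1) * bb D C := by
  have h2 := CH_near hp (fun ω (k : Fin (D + 1)) => pH (hP Pu s) g (K - s) D (slam F W ω) 0 k) Z
    (D := 2 ^ D * (2 ^ (D + 1) * (2 ^ (D + 1) * C)) + 1) (by positivity) fun ω ω' a b e k => ?_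
  · rw [Fintype.card_fin] at h2
    refine le_trans (CH_mono_left hp.nonneg fun ω ω' _ _ hh => ?_) (h2.trans (le_of_eq ?_))
    · funext i
      obtain rfl : i = 0 := Subsingleton.elim _ _
      exact (Prod.ext_iff.mp hh).1
    · unfold bb
      push_cast
      ring
  · unfold pH hP
    split_ifs with hk
    swap
    · rw [sub_self, abs_zero]
      positivity
    rw [Polynomial.hasseDeriv_coeff, Polynomial.hasseDeriv_coeff]
    rcases Nat.lt_or_ge D (k + s) with hK | hK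
    · have z1 : ∀ x, (Pu x).coeff (k + s) = 0 := fun x =>
        Polynomial.coeff_eq_zero_of_natDegree_lt ((hd x).trans_lt hK)
      rw [z1, z1]
      simp only [mul_zero, Int.floor_zero, Int.cast_zero, sub_zero, abs_zero]
      positivity
    · have h1 := rs_cf hd hT (k := k + s) (M := K') hδ (fun i a b => hj i (by omega) b)
        fun i a b c => hcc i (by omega) b c
      refine fl_near (by positivity) (Nat.cast_nonneg _) (chs hK)
        (δ := 2 ^ (D + 1) * (2 ^ (D + 1) * δ)) (h1 ω ω' a b e) ?_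
      have e2 : (2 : ℝ) ^ g 0 * (2 ^ (D + 1) * (2 ^ (D + 1) * δ)) =
          2 ^ (D + 1) * (2 ^ (D + 1) * (2 ^ g 0 * δ)) := by ring
      rw [e2]
      exact mul_le_mul_of_nonneg_left (mul_le_mul_of_nonneg_left hc (by positivity))
        (by positivity)

theorem bb_step (D : ℕ) {C x : ℝ} (hC : 0 ≤ C) (hx : x ≤ 2 ^ D * C + 1) :
    x ≤ 2 ^ D * (2 ^ (D + 1) * (2 ^ (D + 1) * C)) + 1 := by
  have p2 : (1 : ℝ) ≤ 2 ^ (D + 1) := one_le_pow₀ (by norm_num)
  have h1 : C ≤ 2 ^ (D + 1) * C := le_mul_of_one_le_left hC p2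
  have h2 : 2 ^ (D + 1) * C ≤ 2 ^ (D + 1) * (2 ^ (D + 1) * C) :=
    le_mul_of_one_le_left (by positivity) p2
  have h3 : 2 ^ D * C ≤ 2 ^ D * (2 ^ (D + 1) * (2 ^ (D + 1) * C)) :=
    mul_le_mul_of_nonneg_left (h1.trans h2) (by positivity)
  linarith

/-- The jets of the lower orders. -/
theorem few_L (hp : IsLaw p) (hd : ∀ x, (Pu x).natDegree ≤ D)
    (hC : 0 ≤ C) (hc : (2 : ℝ) ^ g 0 * δ ≤ C)
    (hj : ∀ i, s ≤ i → i < K → Rs p Z (hh Pu W i) δ) :
    CH p (fun ω => pL (hP Pu s) W g (K - s) D ω) Z ≤ ((D : ℝ) + 1) * bb D C := by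
  have h2 := CH_near hp (fun ω (k : Fin (D + 1)) => pL (hP Pu s) W g (K - s) D ω 0 k) Z
    (D := 2 ^ D * (2 ^ (D + 1) * (2 ^ (D + 1) * C)) + 1) (by positivity) fun ω ω' a b e k => ?_
  · rw [Fintype.card_fin] at h2
    refine le_trans (CH_mono_left hp.nonneg fun ω ω' _ _ hh => ?_) (h2.trans (le_of_eq ?_))
    · funext i
      obtain rfl : i = 0 := Subsingleton.elim _ _
      exact (Prod.ext_iff.mp hh).1
    · unfold bb
      push_cast
      ring
  · unfold pL hP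
    split_ifs with hk
    swap
    · rw [sub_self, abs_zero]
      positivity
    refine bb_step D hC ?_
    have e1 : ∀ o : F.Ω, (Polynomial.taylor (rho F W o)
        (Polynomial.hasseDeriv s (Pu (slam F W o)))).coeff k =
        (((k : ℕ) + s).choose s : ℝ) * hh Pu W (k + s) o := fun o =>
      jt_hasse (Pu (slam F W o)) (rho F W o) s k
    rw [e1, e1]
    rcases Nat.lt_or_ge D (k + s) with hK | hK
    · have z1 : ∀ o : F.Ω, hh Pu W (k + s) o = 0 := fun o => by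
        unfold hh jt
        exact Polynomial.coeff_eq_zero_of_natDegree_lt (by
          rw [Polynomial.natDegree_taylor]
          exact (hd _).trans_lt hK)
      rw [z1, z1]
      simp only [mul_zero, Int.floor_zero, Int.cast_zero, sub_zero, abs_zero]
      positivity
    · exact fl_near (by positivity) (Nat.cast_nonneg _) (chs hK)
        (hj (k + s) (by omega) (by omega) ω ω' a b e) hc

/-- The upper digits. -/
theorem few_U (hp : IsLaw p) (hd : ∀ x, (Pu x).natDegree ≤ D) (hsK : s ≤ K)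
    (hC : 0 ≤ C) (hc : (2 : ℝ) ^ g 0 / 2 ^ q * δ ≤ C)
    (hj : Rs p Z (cf Pu W K) δ) :
    CH p (fun ω => pU (hP Pu s) g (K - s) q (slam F W ω)) Z ≤ 1 * bb D C := by
  have h2 := CH_near hp (fun ω => pU (hP Pu s) g (K - s) q (slam F W ω)) Z
    (D := 2 ^ D * (2 ^ (D + 1) * (2 ^ (D + 1) * C)) + 1) (by positivity) fun ω ω' a b e i => ?_
  · rw [Fintype.card_fin] at h2
    refine h2.trans (le_of_eq ?_)
    unfold bb
    push_cast
    ring
  · obtain rfl : i = 0 := Subsingleton.elim _ _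
    refine bb_step D hC ?_
    unfold pU pD hP
    rw [fl_div, fl_div, Polynomial.hasseDeriv_coeff, Polynomial.hasseDeriv_coeff]
    have e1 : K - s + s = K := Nat.sub_add_cancel hsK
    rcases Nat.lt_or_ge D K with hK | hK
    · have z1 : ∀ x, (Pu x).coeff (K - s + s) = 0 := fun x =>
        Polynomial.coeff_eq_zero_of_natDegree_lt (by rw [e1]; exact (hd x).trans_lt hK)
      rw [z1, z1]
      simp only [mul_zero, Int.floor_zero, Int.cast_zero, sub_zero, abs_zero]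
      positivity
    · refine fl_near (by positivity) (Nat.cast_nonneg _) (chs (by rw [e1]; exact hK)) ?_ hc
      rw [e1]
      exact hj ω ω' a b e

/-- **The codes of the system of hops.** -/
theorem few_K (hp : IsLaw p) (hd : ∀ x, (Pu x).natDegree ≤ D) (hsK : s ≤ K) (hT : Det p Z F.T)
    (hδ : 0 ≤ δ) (hC : 0 ≤ C) (hc : (2 : ℝ) ^ g 0 * δ ≤ C)
    (hj : ∀ i, s ≤ i → i < K → Rs p Z (hh Pu W i) δ)
    (hj' : ∀ i, K < i → i ≤ K' → Rs p Z (hh Pu W i) δ)
    (hcc : ∀ i, K < i → K' < i → i ≤ D → Rs p Z (cf Pu W i) δ) {δ' : ℝ}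
    (hc' : (2 : ℝ) ^ g 0 / 2 ^ q * δ' ≤ C) (hK : Rs p Z (cf Pu W K) δ') :
    CH p (pK (hP Pu s) W g (K - s) D q) Z ≤ (2 * (D : ℝ) + 3) * bb D C := by
  have h1 := few_H (g := g) (s := s) hp hd hsK hT hδ hC hc hj' hcc
  have h2 := few_L (g := g) (s := s) (K := K) hp hd hC hc hj
  have h3 := few_U (g := g) (s := s) (q := q) hp hd hsK hC hc' hK
  have h0 := hp.nonneg
  have e1 : CH p (pK (hP Pu s) W g (K - s) D q) Z ≤
      CH p (fun ω => (pH (hP Pu s) g (K - s) D (slam F W ω), (pL (hP Pu s) W g (K - s) D ω,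
        pU (hP Pu s) g (K - s) q (slam F W ω)))) Z :=
    CH_mono_left h0 fun ω ω' _ _ hh => (Prod.ext_iff.mp hh).1
  have e2 := CH_subadd h0 (fun ω => pH (hP Pu s) g (K - s) D (slam F W ω))
    (fun ω => (pL (hP Pu s) W g (K - s) D ω, pU (hP Pu s) g (K - s) q (slam F W ω))) Z
  have e3 := CH_subadd h0 (fun ω => pL (hP Pu s) W g (K - s) D ω)
    (fun ω => pU (hP Pu s) g (K - s) q (slam F W ω)) Z
  linarith

/-- The codes of the coefficients. -/
theorem few_cdc (hp : IsLaw p) {τ : ℝ} {j : ℕ} (hτ : 0 ≤ τ) (hC : 0 ≤ C) (hc : τ * δ ≤ C)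
    (h : ∀ k, j < k → k ≤ D → Rs p Z (cf Pu W k) δ) :
    CH p (fun ω => cdc Pu j D τ (slam F W ω)) Z ≤ ((D : ℝ) + 1) * bb D C := by
  have h2 := CH_near hp (fun ω => cdc Pu j D τ (slam F W ω)) Z
    (D := 2 ^ D * (2 ^ (D + 1) * (2 ^ (D + 1) * C)) + 1) (by positivity) fun ω ω' a b e k => ?_
  · rw [Fintype.card_fin] at h2
    refine h2.trans (le_of_eq ?_)
    unfold bb
    push_cast
    ring
  · unfold cdc
    split_ifs with hk
    swap
    · rw [sub_self, abs_zero]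
      positivity
    refine bb_step D hC ((fl_mul hτ (h k hk (by omega) ω ω' a b e)).trans ?_)
    have p1 : (1 : ℝ) ≤ 2 ^ D := one_le_pow₀ (by norm_num)
    have h1 : C ≤ 2 ^ D * C := le_mul_of_one_le_left hC p1
    linarith

/-- The codes of a list. -/
theorem few_lst (hp : IsLaw p) {σ : ℕ → ℝ} {δ : ℕ → ℝ} {j n : ℕ} (hσ : ∀ k, 0 ≤ σ k) (hC : 0 ≤ C)
    (hc : ∀ k, j ≤ k → k < j + n → σ k * δ k ≤ C)
    (h : ∀ k, j ≤ k → k < j + n → Rs p Z (hh Pu W k) (δ k)) :
    CH p (lst Pu W j n σ) Z ≤ (n : ℝ) * bb D C := by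
  have h1 := Rs.few hp (f := fun (i : Fin n) ω => hh Pu W (j + i) ω) (τ := fun i => σ (j + i))
    (δ := fun i => δ (j + i)) (W := Z) hC (fun i => hσ _)
    (fun i => h (j + i) (by omega) (by omega)) fun i => hc (j + i) (by omega) (by omega)
  exact h1.trans (mul_le_mul_of_nonneg_left (bb_one D hC) (Nat.cast_nonneg n))

end few

end Pool.NA97
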