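import Pool.Agent.H97.NA.Evb
import Pool.Agent.H46.PR.Few

/-!
# The fullness of the lower order: the event level

`rs_pD`, `rs_pDd`: the velocity code and its upper digits resolve the coefficient. `lem_f`: the code
of the jet of order `s` at the time against the lists of the windows. `vf_row`: a block of the row is
full.
-/

set_option autoImplicit false

namespace Pool.NA97

open Finset Real
open Pool.Agent.H49.Ent Pool.Agent.H32.Dense Pool.STK Pool.KA Pool.KSAT Pool.K2S Pool.PB Pool.GEN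
open Pool.OWN68
open Pool.T4E (vtf vtf_nonneg vtf_lt)
open Pool.T4P (HpP)
open Pool.BFL (Pb)
open Pool.PR46 (P1)
open Pool.STR16 (pD pH pL pU pK rho rho_mem Kp hpP_evp)
open Pool.AVG5 (jt jt_dif co_sub of_fl CH_near fl_mul)

variable {m J : ℕ} {F : Fam m J} {p : F.Ω → ℝ} {W : ℕ} {Pu : LnT F → Polynomial ℝ}
  {D s K K' g q : ℕ} {C : ℝ}

theorem ch_one {K s : ℕ} (_ : s ≤ K) : (1 : ℝ) ≤ ((K - s + s).choose s : ℝ) := by
  have : 0 < (K - s + s).choose s := Nat.choose_pos (by omega)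
  exact_mod_cast this

theorem of_mul {a x y B : ℝ} {g : ℕ} (ha : 1 ≤ a) (h : |2 ^ g * (a * x) - 2 ^ g * (a * y)| ≤ B) :
    |x - y| ≤ B / 2 ^ g := by
  have pg : (0 : ℝ) < 2 ^ g := by positivity
  rw [le_div_iff₀ pg]
  have e1 : (2 : ℝ) ^ g * (a * x) - 2 ^ g * (a * y) = 2 ^ g * a * (x - y) := by ring
  rw [e1, abs_mul, abs_of_nonneg (by positivity)] at h
  have h1 : |x - y| * 2 ^ g ≤ 2 ^ g * a * |x - y| := by
    have : |x - y| * 2 ^ g * 1 ≤ |x - y| * 2 ^ g * a :=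
      mul_le_mul_of_nonneg_left ha (by positivity)
    linarith
  linarith

/-- The velocity code resolves the coefficient. -/
theorem rs_pD (hsK : s ≤ K) (hC : 1 ≤ C) :
    Rs p (fun ω => pD (hP Pu s) (fun _ => g) (K - s) (slam F W ω)) (cf Pu W K) (C / 2 ^ g) := by
  intro ω ω' _ _ e
  have pg : (0 : ℝ) < 2 ^ g := by positivity
  have e1 := congrFun e 0
  unfold pD hP at e1
  beta_reduce at e1
  rw [Polynomial.hasseDeriv_coeff, Polynomial.hasseDeriv_coeff] at e1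
  have e2 := Pool.STR16.fl_near1 e1
  have e3 := of_mul (ch_one hsK) e2
  unfold cf
  rw [Nat.sub_add_cancel hsK] at e3
  exact e3.trans (div_le_div_of_nonneg_right hC pg.le)

/-- The upper digits of the velocity code resolve the coefficient. -/
theorem rs_pDd (hsK : s ≤ K) (hC : 2 ≤ C) (r : ℕ) :
    Rs p (fun ω => ⌊((pD (hP Pu s) (fun _ => g) (K - s) (slam F W ω) 0 : ℤ) : ℝ) / 2 ^ r⌋)
      (cf Pu W K) (C / (2 ^ g / 2 ^ r)) := by
  intro ω ω' _ _ e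
  have pg : (0 : ℝ) < 2 ^ g := by positivity
  have pr : (1 : ℝ) ≤ 2 ^ r := one_le_pow₀ (by norm_num)
  have e2 := Pool.STR16.fl_near1 e
  rw [← sub_div, abs_div, abs_of_pos (by positivity : (0 : ℝ) < 2 ^ r),
    div_le_iff₀ (by positivity), one_mul] at e2
  unfold pD hP at e2
  rw [Polynomial.hasseDeriv_coeff, Polynomial.hasseDeriv_coeff] at e2
  have e3 : |(2 : ℝ) ^ g * (((K - s + s).choose s : ℝ) * (Pu (slam F W ω)).coeff (K - s + s)) -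
      2 ^ g * (((K - s + s).choose s : ℝ) * (Pu (slam F W ω')).coeff (K - s + s))| ≤ 2 * 2 ^ r := by
    have f1 := Int.floor_le ((2 : ℝ) ^ g * (((K - s + s).choose s : ℝ) *
      (Pu (slam F W ω)).coeff (K - s + s)))
    have f2 := Int.lt_floor_add_one ((2 : ℝ) ^ g * (((K - s + s).choose s : ℝ) *
      (Pu (slam F W ω)).coeff (K - s + s)))
    have f3 := Int.floor_le ((2 : ℝ) ^ g * (((K - s + s).choose s : ℝ) *
      (Pu (slam F W ω')).coeff (K - s + s)))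
    have f4 := Int.lt_floor_add_one ((2 : ℝ) ^ g * (((K - s + s).choose s : ℝ) *
      (Pu (slam F W ω')).coeff (K - s + s)))
    have e4 := abs_le.1 e2
    rw [abs_le]
    constructor <;> linarith [e4.1, e4.2]
  have e5 := of_mul (ch_one hsK) e3
  unfold cf
  rw [Nat.sub_add_cancel hsK] at e5
  refine e5.trans ?_
  rw [div_div_eq_mul_div]
  gcongr

/-! ### The row against the lists -/

section

variable {𝒱 𝒰 : Type} {Cv : LnT F → 𝒱} {χ : LnT F → 𝒰}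

/-- The time from the window and the digits behind it. -/
theorem T_of {ω ω' : F.Ω} (h1 : vtf F W ω = vtf F W ω')
    (h2 : (slam F W ω).2.2 = (slam F W ω').2.2) : F.T ω = F.T ω' := by
  have e1 : F.T ω % 2 ^ (J - W) = F.T ω' % 2 ^ (J - W) := by
    unfold vtf at h1
    exact_mod_cast h1
  have e2 : F.T ω / 2 ^ (J - W) = F.T ω' / 2 ^ (J - W) := h2
  rw [← Nat.div_add_mod (F.T ω) (2 ^ (J - W)), e1, e2, Nat.div_add_mod]

/-- **The code of the jet of order `s` against the lists.** -/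
theorem lem_f {Ya Zr : Type} {pa : F.Ω → Ya} {zv : F.Ω → Zr} (hp : IsLaw p)
    (hd : ∀ x, (Pu x).natDegree ≤ D) (hsK : s < K') (hC : 1 ≤ C)
    (hz : Det p (fun ω => χ (slam F W ω)) zv) {k₀ a : ℝ}
    (hpa : CH p pa (fun ω => (F.T ω, Cv (slam F W ω))) ≤ k₀)
    {σx σ₃ : ℕ → ℝ} (sx : ∀ k, 0 < σx k) (s3 : ∀ k, 0 < σ₃ k)
    (u1 : σ₃ s ≤ C * (2 ^ g / 2 ^ q)) (u2 : ∀ k, s < k → k ≤ K' → σx k ≤ C * (2 ^ g / 2 ^ q))
    (ha : CH p (lst Pu W s 1 σx) (fun ω => (lst Pu W s 1 σ₃ ω,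
      (lst Pu W (s + 1) (K' - s) σx ω, (pa ω, (zv ω, F.T ω))))) ≤ a) :
    CH p (fun ω => ⌊(2 : ℝ) ^ g * hh Pu W s ω⌋) (fun ω => (⌊(2 : ℝ) ^ g * hh Pu W s ω⌋ /
      (2 ^ q : ℤ), (vtf F W ω, (Cyy Cv Pu s K' D (2 ^ g / 2 ^ q) (2 ^ g) (slam F W ω),
        Kaa χ (slam F W ω))))) ≤
      a + k₀ + Real.log (2 * (2 ^ g / σx s + 1) + 1) +
        ((K' : ℝ) + 1) * bb D (2 ^ (D + 1) * C) := by
  have h0 := hp.nonneg
  have hC0 : 0 ≤ C := by linarith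
  have p2 : (1 : ℝ) ≤ 2 ^ (D + 1) := one_le_pow₀ (by norm_num)
  have hCC : C ≤ 2 ^ (D + 1) * C := le_mul_of_one_le_left hC0 p2
  have hC1 : 0 ≤ 2 ^ (D + 1) * C := by positivity
  have pg : (0 : ℝ) < 2 ^ g := by positivity
  have pq : (0 : ℝ) < 2 ^ g / 2 ^ q := by positivity
  have bb0 := bb_nonneg D hC1
  obtain ⟨z, hzz⟩ : ∃ z, z = fun ω => ⌊(2 : ℝ) ^ g * hh Pu W s ω⌋ := ⟨_, rfl⟩
  have ez : ∀ ω, ⌊(2 : ℝ) ^ g * hh Pu W s ω⌋ = z ω := fun ω => by rw [hzz]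
  simp only [ez]
  obtain ⟨Z0, hZ0⟩ : ∃ Z, Z = fun ω => (z ω / (2 ^ q : ℤ), (vtf F W ω,
    (Cyy Cv Pu s K' D (2 ^ g / 2 ^ q) (2 ^ g) (slam F W ω), Kaa χ (slam F W ω)))) := ⟨_, rfl⟩
  rw [← hZ0]
  obtain ⟨X, hX⟩ : ∃ U, U = lst Pu W s 1 σx := ⟨_, rfl⟩
  obtain ⟨X', hX'⟩ : ∃ U, U = lst Pu W s 1 σ₃ := ⟨_, rfl⟩
  obtain ⟨Y, hY⟩ : ∃ U, U = lst Pu W (s + 1) (K' - s) σx := ⟨_, rfl⟩
  rw [← hX, ← hX', ← hY] at ha
  have dZ : ∀ ω ω', Z0 ω = Z0 ω' → z ω / (2 ^ q : ℤ) = z ω' / (2 ^ q : ℤ) ∧ F.T ω = F.T ω' ∧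
      Cv (slam F W ω) = Cv (slam F W ω') ∧
      cdc Pu s D (2 ^ g / 2 ^ q) (slam F W ω) = cdc Pu s D (2 ^ g / 2 ^ q) (slam F W ω') ∧
      χ (slam F W ω) = χ (slam F W ω') := by
    intro ω ω' e
    rw [hZ0] at e
    unfold Cyy Kaa at e
    simp only [Prod.mk.injEq] at e
    obtain ⟨e1, e2, ⟨e3, e4, -⟩, e6, e7⟩ := e
    exact ⟨e1, T_of e2 e7, e3, e4, e6⟩
  have a1 := CH_le_add h0 z X Z0
  have a2 : CH p z (fun ω => (X ω, Z0 ω)) ≤ Real.log (2 * (2 ^ g / σx s + 1) + 1) := by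
    refine (ch_nr hp z (fun ω => (X ω, Z0 ω)) (L := 2 ^ g / σx s + 1) fun ω ω' _ _ e => ?_).trans
      (le_of_eq (by ring_nf))
    have e1 := (Prod.ext_iff.mp e).1
    rw [hX] at e1
    have e2 := congrFun e1 ⟨0, by omega⟩
    unfold lst at e2
    have e3 := of_fl (sx s) e2
    rw [hzz]
    refine (fl_mul pg.le e3).trans (le_of_eq ?_)
    ring
  have a3 := CH_le_add h0 X (fun ω => (X' ω, (Y ω, (pa ω, (zv ω, F.T ω))))) Z0
  have a4 : CH p X (fun ω => ((X' ω, (Y ω, (pa ω, (zv ω, F.T ω)))), Z0 ω)) ≤ a :=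
    (CH_mono_cond h0 fun ω ω' _ _ e => (Prod.ext_iff.mp e).1).trans ha
  have a5 := CH_subadd h0 X' (fun ω => (Y ω, (pa ω, (zv ω, F.T ω)))) Z0
  have a6 := CH_subadd h0 Y (fun ω => (pa ω, (zv ω, F.T ω))) Z0
  have a7 : CH p X' Z0 ≤ 1 * bb D (2 ^ (D + 1) * C) := by
    rw [hX']
    have h1 := few_lst (D := D) (C := C) (Pu := Pu) (W := W) (Z := Z0) (j := s) (n := 1) hp
      (σ := σ₃) (δ := fun _ => 1 / (2 ^ g / 2 ^ q)) (fun k => (s3 k).le) hC0 (fun k hk hk' => ?_)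
      (fun k hk hk' => ?_)
    · refine h1.trans ?_
      rw [Nat.cast_one]
      exact mul_le_mul_of_nonneg_left (bb_mono D hC0 hCC) one_pos.le
    · obtain rfl : k = s := by omega
      rw [mul_one_div, div_le_iff₀ pq]
      exact u1
    · obtain rfl : k = s := by omega
      refine rs_fl pq fun ω ω' _ _ e => ?_
      have e1 := (dZ ω ω' e).1
      rw [hzz] at e1
      have e2 := fl_div g q (hh Pu W k ω)
      have e3 := fl_div g q (hh Pu W k ω')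
      push_cast at e2 e3
      show ⌊(2 : ℝ) ^ g / 2 ^ q * hh Pu W k ω⌋ = ⌊(2 : ℝ) ^ g / 2 ^ q * hh Pu W k ω'⌋
      rw [← e2, ← e3]
      exact e1
  have a8 : CH p Y Z0 ≤ (K' : ℝ) * bb D (2 ^ (D + 1) * C) := by
    have cK : ((K' - s : ℕ) : ℝ) ≤ (K' : ℝ) := by
      have : K' - s ≤ K' := Nat.sub_le _ _
      exact_mod_cast this
    rw [hY]
    refine (few_lst (D := D) (C := 2 ^ (D + 1) * C) hp (δ := fun _ => 2 ^ (D + 1) *
      (1 / (2 ^ g / 2 ^ q))) (fun k => (sx k).le) hC1 (fun k hk hk' => ?_)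
      (fun k hk _ => rs_hh hd (fun ω ω' _ _ e => (dZ ω ω' e).2.1) (by positivity)
        fun i hi hiD => ?_)).trans (mul_le_mul_of_nonneg_right cK bb0)
    · have h4 := u2 k (by omega) (by omega)
      have h5 : σx k * (1 / (2 ^ g / 2 ^ q)) ≤ C := by
        rw [mul_one_div, div_le_iff₀ pq]
        exact h4
      calc σx k * (2 ^ (D + 1) * (1 / (2 ^ g / 2 ^ q))) =
            2 ^ (D + 1) * (σx k * (1 / (2 ^ g / 2 ^ q))) := by ring
        _ ≤ 2 ^ (D + 1) * C := mul_le_mul_of_nonneg_left h5 (by positivity)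
    · refine rs_fl pq fun ω ω' _ _ e => ?_
      have e1 := (dZ ω ω' e).2.2.2.1
      have e2 := congrFun e1 ⟨i, by omega⟩
      unfold cdc at e2
      have e3 : s < i := by omega
      simp only [if_pos e3] at e2
      exact e2
  have a9 : CH p (fun ω => (pa ω, (zv ω, F.T ω))) Z0 ≤ k₀ := by
    have g1 := CH_subadd h0 pa (fun ω => (zv ω, F.T ω)) Z0
    have g2 : CH p (fun ω => (zv ω, F.T ω)) Z0 ≤ 0 :=
      le_of_eq (CH_eq_zero h0 fun ω ω' a b e => by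
        obtain ⟨-, e1, -, -, e2⟩ := dZ ω ω' e
        exact Prod.ext (hz ω ω' a b e2) e1)
    have g3 : CH p pa Z0 ≤ k₀ := by
      refine le_trans (CH_mono_cond h0 fun ω ω' _ _ e => ?_) hpa
      obtain ⟨-, e1, e2, -, -⟩ := dZ ω ω' e
      exact Prod.ext e1 e2
    linarith
  have e9 : ((K' : ℝ) + 1) * bb D (2 ^ (D + 1) * C) = (K' : ℝ) * bb D (2 ^ (D + 1) * C) +
    1 * bb D (2 ^ (D + 1) * C) := by ring
  linarith

/-- **A block of the row of the order `s` is full.** -/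
theorem vf_row {Kb : F.Ω → 𝒰} (hp : IsLaw p) (hW : W ≤ J) (hq : q ≤ J - W)
    (hd : ∀ x, (Pu x).natDegree ≤ D) (hsK : s < K) {e : ℝ} (he : 0 ≤ e)
    (hKb : ∀ ω, Kb ω = χ (slam F W ω))
    (full : ((J : ℝ) - W) * Real.log 2 - e ≤ CH p (fun ω => F.T ω % 2 ^ (J - W)) (slam F W))
    (free : CH p (fun ω => pD (hP Pu s) (fun _ => g) (K - s) (slam F W ω))
        (fun ω => (pU (hP Pu s) (fun _ => g) (K - s) q (slam F W ω),
          (Cyy Cv Pu s K' D (2 ^ g / 2 ^ q) (2 ^ g) (slam F W ω), Kaa χ (slam F W ω)))) - e ≤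
      CH p (fun ω => pD (hP Pu s) (fun _ => g) (K - s) (slam F W ω))
        (fun ω => ((Kb ω, (Cyy Cv Pu s K' D (2 ^ g / 2 ^ q) (2 ^ g) (slam F W ω), F.T ω)),
          pK (hP Pu s) W (fun _ => g) (K - s) D q ω)))
    {n u v : ℕ} (hm : n + u + (K - s) * v = q) (hv0 : 0 < v) {δ μ : ℝ} (hδ : 0 < δ)
    (hμ : 2 * (e + 3) ≤ μ * v)
    (sep : ∀ E : F.Ω → Prop, δ / 2 ≤ Pb p E → Real.log (6 / δ) < CH (cond p E True)
      (fun ω => ⌊((pD (hP Pu s) (fun _ => g) (K - s) (slam F W ω) 0 : ℤ) : ℝ) / 2 ^ (q - u)⌋)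
      (fun ω => ((Kb ω, (Cyy Cv Pu s K' D (2 ^ g / 2 ^ q) (2 ^ g) (slam F W ω), F.T ω)),
          pK (hP Pu s) W (fun _ => g) (K - s) D q ω))) :
    n * Real.log 2 - (3 * e + cB (Kp D) + (δ + μ) * (n * Real.log 2 + 2)) ≤
      CH p (fun ω => ⌊(2 : ℝ) ^ g * hh Pu W s ω⌋) (fun ω => (⌊(2 : ℝ) ^ g * hh Pu W s ω⌋ /
        (2 ^ q : ℤ), (vtf F W ω, (Cyy Cv Pu s K' D (2 ^ g / 2 ^ q) (2 ^ g) (slam F W ω),
          Kaa χ (slam F W ω))))) := by
  have hdP : ∀ x i, (hP Pu s x i).natDegree ≤ D := fun x i =>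
    (Polynomial.natDegree_hasseDeriv_le _ _).trans ((Nat.sub_le _ _).trans (hd x))
  have H := hpP_evp (F := F) (a := W) (n := 1) (X := fun ω _ => hh Pu W s ω) (P := hP Pu s)
    (Fp := fun ω : F.Ω => ω) (z := fun ω _ => ⌊(2 : ℝ) ^ g * hh Pu W s ω⌋) (g := fun _ => g)
    (j := K - s) (d := D) (q := q) (e := e) (Kb := Kb)
    (Cy := Cyy Cv Pu s K' D (2 ^ g / 2 ^ q) (2 ^ g)) (Ka := Kaa χ)
    (Yb := fun ω => (vtf F W ω, (Cyy Cv Pu s K' D (2 ^ g / 2 ^ q) (2 ^ g) (slam F W ω),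
      Kaa χ (slam F W ω)))) hp hW hq he hdP
    (fun ω _ i => by
      show hh Pu W s ω = (Polynomial.hasseDeriv s (Pu (slam F W ω))).eval (rho F W ω)
      rw [ev_hasse]
      rfl)
    (fun ω _ i => by
      show |((⌊(2 : ℝ) ^ g * hh Pu W s ω⌋ : ℤ) : ℝ) - 2 ^ g * hh Pu W s ω| ≤ 2
      have f1 := Int.floor_le ((2 : ℝ) ^ g * hh Pu W s ω)
      have f2 := Int.lt_floor_add_one ((2 : ℝ) ^ g * hh Pu W s ω)
      rw [abs_le]
      constructor <;> linarith)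
    (fun ω ω' _ _ h1 h2 _ => by
      unfold Kaa
      rw [hKb, hKb] at h1
      refine Prod.ext h1 ?_
      show F.T ω / 2 ^ (J - W) = F.T ω' / 2 ^ (J - W)
      rw [h2])
    (fun ω ω' _ _ h1 h2 h3 => Prod.ext h1 (Prod.ext h2 h3)) full free
  have h1 := blk_row H (by omega) 0 hm hv0 hμ (δ := δ) ?_
  · exact h1
  · exact Pool.PR46.alive_Pb hp (fun ω => ((Kb ω,
      (Cyy Cv Pu s K' D (2 ^ g / 2 ^ q) (2 ^ g) (slam F W ω), F.T ω)),
          pK (hP Pu s) W (fun _ => g) (K - s) D q ω))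
      (fun ω => ((pD (hP Pu s) (fun _ => g) (K - s) (slam F W ω) 0 : ℤ) : ℝ))
      (by positivity) hδ sep

end

end Pool.NA97
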