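import Pool.Agent.H97.NA.Cod

/-!
# The free velocities

`free_up`: the velocity code given the codes of the line has at most the number of bits of the list
of jets. `free_lo`: given the record of the point at a later window, at least.
-/

set_option autoImplicit false

namespace Pool.NA97

open Finset Real
open Pool.Agent.H49.Ent Pool.Agent.H32.Dense Pool.STK Pool.KA Pool.KSAT Pool.K2S Pool.PB Pool.GEN
open Pool.OWN68
open Pool.T4E (vtf vtf_nonneg vtf_lt)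
open Pool.STR16 (pD pH pL pU pK rho rho_mem)
open Pool.AVG5 (jt jt_dif co_sub of_fl CH_near fl_mul)

variable {m J : ℕ} {F : Fam m J}

/-- The codes of the line: the near path, the coefficients of order more than `s` to the coarse
scale, the coefficients of order more than `K'` to the fine scale. -/
noncomputable def Cyy {𝒱 : Type} (Cv : LnT F → 𝒱) (Pu : LnT F → Polynomial ℝ) (s K' D : ℕ)
    (τm τg : ℝ) (x : LnT F) : 𝒱 × ((Fin (D + 1) → ℤ) × (Fin (D + 1) → ℤ)) :=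
  (Cv x, (cdc Pu s D τm x, cdc Pu K' D τg x))

/-- The record of the window and its number. -/
def Kaa {𝒰 : Type} (χ : LnT F → 𝒰) (x : LnT F) : 𝒰 × ℕ := (χ x, x.2.2)

variable {p : F.Ω → ℝ} {W : ℕ}

/-- The time given the window. -/
theorem time_le (hp : IsLaw p) (hW : W ≤ J) {𝒴 : Type} {Y : F.Ω → 𝒴}
    (hY : Det p Y (fun ω => (slam F W ω).2.2)) :
    CH p F.T Y ≤ ((J : ℝ) - W) * Real.log 2 := by
  classical
  have h0 := hp.nonneg
  refine (CH_mono_cond h0 hY).trans ?_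
  refine (CH_le_card h0 hp.sum_one F.T (fun ω => (slam F W ω).2.2)
    (fun n => (Finset.range (2 ^ (J - W))).image fun r => n * 2 ^ (J - W) + r)
    (fun ω _ => ?_)).trans ?_
  · refine Finset.mem_image.2 ⟨F.T ω % 2 ^ (J - W), Finset.mem_range.2 (Nat.mod_lt _
      (by positivity)), ?_⟩
    show F.T ω / 2 ^ (J - W) * 2 ^ (J - W) + F.T ω % 2 ^ (J - W) = F.T ω
    exact Nat.div_add_mod' _ _
  · rw [← Ex_const hp.sum_one (((J : ℝ) - W) * Real.log 2)]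
    refine Ex_mono h0 fun ω _ => ?_
    have h1 : (((Finset.range (2 ^ (J - W))).image
        fun r => (slam F W ω).2.2 * 2 ^ (J - W) + r).card : ℝ) ≤ 2 ^ (J - W) := by
      have := Finset.card_image_le (s := Finset.range (2 ^ (J - W)))
        (f := fun r => (slam F W ω).2.2 * 2 ^ (J - W) + r)
      rw [Finset.card_range] at this
      exact_mod_cast this
    have h2 : (0 : ℝ) < ((Finset.range (2 ^ (J - W))).image
        fun r => (slam F W ω).2.2 * 2 ^ (J - W) + r).card := by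
      have : 0 < ((Finset.range (2 ^ (J - W))).image
          fun r => (slam F W ω).2.2 * 2 ^ (J - W) + r).card :=
        Finset.card_pos.2 ((Finset.nonempty_range_iff.2 (by positivity)).image _)
      exact_mod_cast this
    refine (Real.log_le_log h2 h1).trans (le_of_eq ?_)
    rw [Real.log_pow, Nat.cast_sub hW]

section

variable {Pu : LnT F → Polynomial ℝ} {D s K K' g q : ℕ} {𝒱 𝒰 : Type} {Cv : LnT F → 𝒱}
  {χ : LnT F → 𝒰} {C : ℝ}

/-- **The velocity code given the codes of the line.** -/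
theorem free_up {Ya Zr : Type} {pa : F.Ω → Ya} {zv : F.Ω → Zr} (hp : IsLaw p) (hW : W ≤ J)
    (hd : ∀ x, (Pu x).natDegree ≤ D) (hsK : s < K) (hC : 1 ≤ C)
    (hz : Det p (fun ω => χ (slam F W ω)) zv) {e₀ k₀ b₁ b₂ b₃ : ℝ}
    (full : ((J : ℝ) - W) * Real.log 2 - e₀ ≤ CH p (fun ω => F.T ω % 2 ^ (J - W)) (slam F W))
    (hpa : CH p pa (fun ω => (F.T ω, Cv (slam F W ω))) ≤ k₀)
    {σo σy σO : ℕ → ℝ} (so : ∀ k, 0 < σo k) (sy : ∀ k, 0 < σy k) (sO : ∀ k, 0 < σO k)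
    (s2 : ∀ k, K ≤ k → k ≤ K' → σy k ≤ C * (2 ^ g / 2 ^ q))
    (s3 : ∀ k, K ≤ k → k ≤ K' → σy k ≤ C * σo k)
    (s4 : (2 : ℝ) ^ g ≤ C * σo K) (s6 : ∀ k, K < k → k ≤ K' → (2 : ℝ) ^ g ≤ C * σO k)
    (h1 : CH p (lst Pu W K (K' + 1 - K) σo) (fun ω => (pa ω, (zv ω, F.T ω))) ≤ b₁)
    (h2 : b₂ ≤ CH p (lst Pu W K (K' + 1 - K) σy) (fun ω => (pa ω, (zv ω, F.T ω))))
    (h3 : CH p (lst Pu W (K + 1) (K' - K) σO) (fun ω => (pa ω, (zv ω, F.T ω))) ≤ b₃) :
    CH p (fun ω => pD (hP Pu s) (fun _ => g) (K - s) (slam F W ω))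
      (fun ω => (pU (hP Pu s) (fun _ => g) (K - s) q (slam F W ω),
        (Cyy Cv Pu s K' D (2 ^ g / 2 ^ q) (2 ^ g) (slam F W ω), Kaa χ (slam F W ω)))) ≤
      b₁ - b₂ + b₃ + k₀ + e₀ +
        (2 * (K' : ℝ) + 3) * bb D (2 ^ (D + 1) * C) := by
  have h0 := hp.nonneg
  have hC0 : 0 ≤ C := by linarith
  have p2 : (1 : ℝ) ≤ 2 ^ (D + 1) := one_le_pow₀ (by norm_num)
  have hCC : C ≤ 2 ^ (D + 1) * C := le_mul_of_one_le_left hC0 p2
  have hC1 : 0 ≤ 2 ^ (D + 1) * C := by positivity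
  have pg : (0 : ℝ) < 2 ^ g := by positivity
  have pq : (0 : ℝ) < 2 ^ g / 2 ^ q := by positivity
  obtain ⟨Y, hY⟩ : ∃ Y, Y = fun ω => (pU (hP Pu s) (fun _ => g) (K - s) q (slam F W ω),
    (Cyy Cv Pu s K' D (2 ^ g / 2 ^ q) (2 ^ g) (slam F W ω), Kaa χ (slam F W ω))) := ⟨_, rfl⟩
  rw [← hY]
  obtain ⟨Dc, hD⟩ : ∃ Dc, Dc = fun ω => pD (hP Pu s) (fun _ => g) (K - s) (slam F W ω) := ⟨_, rfl⟩
  rw [← hD]
  obtain ⟨Uo, hUo⟩ : ∃ U, U = lst Pu W K (K' + 1 - K) σo := ⟨_, rfl⟩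
  obtain ⟨Uy, hUy⟩ : ∃ U, U = lst Pu W K (K' + 1 - K) σy := ⟨_, rfl⟩
  obtain ⟨UO, hUO⟩ : ∃ U, U = lst Pu W (K + 1) (K' - K) σO := ⟨_, rfl⟩
  rw [← hUo] at h1
  rw [← hUy] at h2
  rw [← hUO] at h3
  have dY : ∀ ω ω', Y ω = Y ω' → Cv (slam F W ω) = Cv (slam F W ω') ∧
      cdc Pu s D (2 ^ g / 2 ^ q) (slam F W ω) = cdc Pu s D (2 ^ g / 2 ^ q) (slam F W ω') ∧
      cdc Pu K' D (2 ^ g) (slam F W ω) = cdc Pu K' D (2 ^ g) (slam F W ω') ∧
      χ (slam F W ω) = χ (slam F W ω') ∧ (slam F W ω).2.2 = (slam F W ω').2.2 := by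
    intro ω ω' e
    rw [hY] at e
    unfold Cyy Kaa at e
    simp only [Prod.mk.injEq] at e
    exact ⟨e.2.1.1, e.2.1.2.1, e.2.1.2.2, e.2.2.1, e.2.2.2⟩
  -- step A
  have a1 : CH p Dc Y ≤ CH p Dc (fun ω => (F.T ω, Y ω)) + e₀ := by
    refine ch_indep h0 Dc F.T (L := slam F W) ?_ ?_ (a := ((J : ℝ) - W) * Real.log 2)
      (time_le hp hW fun ω ω' _ _ e => (dY ω ω' e).2.2.2.2) ?_
    · intro ω ω' _ _ e
      rw [hD]
      simp only [e]
    · intro ω ω' _ _ e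
      rw [hY]
      simp only [e]
    · refine full.trans (CH_mono_left h0 fun ω ω' _ _ e => ?_)
      have e1 := (Prod.ext_iff.mp e).1
      dsimp only at e1
      rw [e1]
  -- step B
  have a2 := CH_le_add h0 Dc (fun ω => (Uo ω, UO ω)) (fun ω => (F.T ω, Y ω))
  have a3 : CH p Dc (fun ω => ((Uo ω, UO ω), (F.T ω, Y ω))) ≤ bb D C := by
    rw [hD]
    have := few_D (p := p) (Pu := Pu) (W := W) (D := D) (g := fun _ => g) (s := s) (K := K) (K' := K')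
      (Z := fun ω => ((Uo ω, UO ω), (F.T ω, Y ω))) (δ := C / 2 ^ g) (C := C) hp hd hsK.le
      (fun ω ω' _ _ e => (Prod.ext_iff.mp (Prod.ext_iff.mp e).2).1) (by positivity) hC0
      (le_of_eq (by field_simp)) (fun i hi hi' => ?_) (fun i _ hi' hiD => ?_)
    · rwa [one_mul] at this
    · rcases hi.eq_or_lt with rfl | hlt
      · refine (rs_fl (so K) fun ω ω' _ _ e => ?_).le (?_ : 1 / σo K ≤ C / 2 ^ g)
        · have e1 := (Prod.ext_iff.mp (Prod.ext_iff.mp e).1).1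
          rw [hUo] at e1
          exact congrFun e1 ⟨0, by omega⟩
        · rw [div_le_div_iff₀ (so K) pg, one_mul]
          exact s4
      · refine (rs_fl (sO i) fun ω ω' _ _ e => ?_).le (?_ : 1 / σO i ≤ C / 2 ^ g)
        · have e1 := (Prod.ext_iff.mp (Prod.ext_iff.mp e).1).2
          rw [hUO] at e1
          have e2 := congrFun e1 ⟨i - (K + 1), by omega⟩
          unfold lst at e2
          simpa only [show K + 1 + (i - (K + 1)) = i by omega] using e2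
        · rw [div_le_div_iff₀ (sO i) pg, one_mul]
          exact s6 i hlt hi'
    · refine (rs_fl pg fun ω ω' _ _ e => ?_).le (?_ : 1 / (2 : ℝ) ^ g ≤ C / 2 ^ g)
      · have e1 := (dY ω ω' (Prod.ext_iff.mp (Prod.ext_iff.mp e).2).2).2.2.1
        have e2 := congrFun e1 ⟨i, by omega⟩
        unfold cdc at e2
        simp only [if_pos hi'] at e2
        exact e2
      · exact div_le_div_of_nonneg_right hC pg.le
  -- step C
  have a4 : CH p (fun ω => (Uo ω, UO ω)) (fun ω => (F.T ω, Y ω)) ≤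
      CH p (fun ω => (Uy ω, pa ω)) (fun ω => (F.T ω, Y ω)) +
      CH p (fun ω => (Uo ω, UO ω)) (fun ω => (Uy ω, (pa ω, (zv ω, F.T ω)))) := by
    refine ch_via h0 _ _ (fun _ _ _ _ h => h) fun ω ω' a b e => ?_
    simp only [Prod.mk.injEq] at e
    have e1 := (dY ω ω' e.2.2).2.2.2.1
    exact Prod.ext e.1.1 (Prod.ext e.1.2 (Prod.ext (hz ω ω' a b e1) e.2.1))
  have a5 := CH_subadd h0 Uy pa (fun ω => (F.T ω, Y ω))
  have a6 : CH p pa (fun ω => (F.T ω, Y ω)) ≤ k₀ := by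
    refine le_trans (CH_mono_cond h0 fun ω ω' _ _ e => ?_) hpa
    obtain ⟨e1, e2⟩ := Prod.ext_iff.mp e
    exact Prod.ext e1 (dY ω ω' e2).1
  have cK : ((K' + 1 - K : ℕ) : ℝ) ≤ (K' : ℝ) + 1 := by
    have : K' + 1 - K ≤ K' + 1 := Nat.sub_le _ _
    exact_mod_cast this
  have bb0 := bb_nonneg D hC1
  have bbC : bb D C ≤ bb D (2 ^ (D + 1) * C) := by
    unfold bb
    refine Real.log_le_log (by positivity) ?_
    have : (2 : ℝ) ^ D * (2 ^ (D + 1) * (2 ^ (D + 1) * C)) ≤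
        2 ^ D * (2 ^ (D + 1) * (2 ^ (D + 1) * (2 ^ (D + 1) * C))) := by
      refine mul_le_mul_of_nonneg_left (mul_le_mul_of_nonneg_left (mul_le_mul_of_nonneg_left hCC
        (by positivity)) (by positivity)) (by positivity)
    linarith
  have hT2 : Det p (fun ω => (F.T ω, Y ω)) F.T := fun ω ω' _ _ e => (Prod.ext_iff.mp e).1
  have a7 : CH p Uy (fun ω => (F.T ω, Y ω)) ≤ ((K' : ℝ) + 1) * bb D (2 ^ (D + 1) * C) := by
    rw [hUy]
    refine (few_lst (D := D) (C := 2 ^ (D + 1) * C) hp (δ := fun _ => 2 ^ (D + 1) *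
      (1 / (2 ^ g / 2 ^ q))) (fun k => (sy k).le) hC1 (fun k hk hk' => ?_)
      (fun k hk _ => rs_hh hd hT2 (by positivity) fun i hi hiD => ?_)).trans
        (mul_le_mul_of_nonneg_right cK bb0)
    · have h4 := s2 k hk (by omega)
      have h5 : σy k * (1 / (2 ^ g / 2 ^ q)) ≤ C := by
        rw [mul_one_div, div_le_iff₀ pq]
        exact h4
      calc σy k * (2 ^ (D + 1) * (1 / (2 ^ g / 2 ^ q))) =
            2 ^ (D + 1) * (σy k * (1 / (2 ^ g / 2 ^ q))) := by ring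
        _ ≤ 2 ^ (D + 1) * C := mul_le_mul_of_nonneg_left h5 (by positivity)
    · refine rs_fl pq fun ω ω' _ _ e => ?_
      have e1 := (dY ω ω' (Prod.ext_iff.mp e).2).2.1
      have e2 := congrFun e1 ⟨i, by omega⟩
      unfold cdc at e2
      have e3 : s < i := by omega
      simp only [if_pos e3] at e2
      exact e2
  -- step D
  have a8 := CH_subadd h0 Uo UO (fun ω => (Uy ω, (pa ω, (zv ω, F.T ω))))
  have a9 : CH p UO (fun ω => (Uy ω, (pa ω, (zv ω, F.T ω)))) ≤ b₃ :=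
    (CH_mono_cond h0 fun ω ω' _ _ e => (Prod.ext_iff.mp e).2).trans h3
  have a10 := CH_chain h0 Uo Uy (fun ω => (pa ω, (zv ω, F.T ω)))
  have a11 := CH_chain2 h0 Uo Uy (fun ω => (pa ω, (zv ω, F.T ω)))
  have a12 : CH p Uy (fun ω => (Uo ω, (pa ω, (zv ω, F.T ω)))) ≤
      (1 : ℝ) * ((K' : ℝ) + 1) * bb D C := by
    rw [hUy, one_mul]
    refine (few_lst (D := D) (C := C) hp (δ := fun k => 1 / σo k)
      (fun k => (sy k).le) hC0 (fun k hk hk' => ?_)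
      (fun k hk hk' => rs_fl (so k) fun ω ω' _ _ e => ?_)).trans
        (mul_le_mul_of_nonneg_right cK (bb_nonneg D hC0))
    · rw [mul_one_div, div_le_iff₀ (so k)]
      exact s3 k hk (by omega)
    · have e1 := (Prod.ext_iff.mp e).1
      rw [hUo] at e1
      have e2 := congrFun e1 ⟨k - K, by omega⟩
      unfold lst at e2
      simpa only [show K + (k - K) = k by omega] using e2
  have hKb : ((K' : ℝ) + 1) * bb D C ≤ ((K' : ℝ) + 1) * bb D (2 ^ (D + 1) * C) :=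
    mul_le_mul_of_nonneg_left bbC (by positivity)
  have e1 : CH p Dc Y ≤ e₀ + CH p (fun ω => (Uo ω, UO ω)) (fun ω => (F.T ω, Y ω)) + bb D C := by
    linarith
  have e2 : CH p (fun ω => (Uo ω, UO ω)) (fun ω => (F.T ω, Y ω)) ≤
      ((K' : ℝ) + 1) * bb D (2 ^ (D + 1) * C) + k₀ +
      (CH p Uo (fun ω => (Uy ω, (pa ω, (zv ω, F.T ω)))) + b₃) := by linarith
  have e3 : CH p Uo (fun ω => (Uy ω, (pa ω, (zv ω, F.T ω)))) ≤
      b₁ - b₂ + ((K' : ℝ) + 1) * bb D (2 ^ (D + 1) * C) := by linarith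
  have hfin : (2 * (K' : ℝ) + 3) * bb D (2 ^ (D + 1) * C) =
    ((K' : ℝ) + 1) * bb D (2 ^ (D + 1) * C) + ((K' : ℝ) + 1) * bb D (2 ^ (D + 1) * C) +
    bb D (2 ^ (D + 1) * C) := by ring
  linarith

theorem bb_mono (D : ℕ) {C C' : ℝ} (hC : 0 ≤ C) (h : C ≤ C') : bb D C ≤ bb D C' := by
  unfold bb
  refine Real.log_le_log (by positivity) ?_
  have : (2 : ℝ) ^ D * (2 ^ (D + 1) * (2 ^ (D + 1) * C)) ≤
      2 ^ D * (2 ^ (D + 1) * (2 ^ (D + 1) * C')) := by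
    refine mul_le_mul_of_nonneg_left (mul_le_mul_of_nonneg_left (mul_le_mul_of_nonneg_left h
      (by positivity)) (by positivity)) (by positivity)
  linarith

/-- **The velocity code given the record of the point** at a later window, any law: at least. `Dc` is
a code which resolves the coefficient of order `K`. -/
theorem free_lo {ν : F.Ω → ℝ} {Ya Qa Zz Zk Dd : Type} {pa : F.Ω → Ya} {qa : F.Ω → Qa} {zz : F.Ω → Zz}
    {Kb : F.Ω → Zk} {Dc : F.Ω → Dd} (hν : IsLaw ν)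
    (hd : ∀ x, (Pu x).natDegree ≤ D) (hsK : s < K) (hKK : K ≤ K') (hC : 1 ≤ C)
    (hKb : Det ν zz Kb) {τm : ℝ} (hτm : 0 < τm) (hτg : τm ≤ 2 ^ g)
    (hDc : Rs ν Dc (cf Pu W K) (C / τm))
    (hcR : ∀ k, K' < k → k ≤ D → Rs ν (fun ω => ((pa ω, qa ω), (zz ω, F.T ω))) (cf Pu W k)
      (C / 2 ^ g))
    {σo σy σO : ℕ → ℝ} (so : ∀ k, 0 < σo k) (sy : ∀ k, 0 < σy k) (sO : ∀ k, 0 < σO k)
    (t1 : ∀ k, K < k → k ≤ K' → σo k ≤ C * σO k) (t2 : σo K ≤ C * τm)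
    (t3 : ∀ k, K < k → k ≤ K' → (2 : ℝ) ^ g ≤ C * σO k)
    (t4 : ∀ k, s ≤ k → k < K → (2 : ℝ) ^ g ≤ C * σy k)
    (t5 : (2 : ℝ) ^ g / 2 ^ q ≤ C * σy K) {c₁ c₂ c₃ c₄ c₅ : ℝ}
    (h1 : c₁ ≤ CH ν (lst Pu W K (K' + 1 - K) σo) (fun ω => ((pa ω, qa ω), (zz ω, F.T ω))))
    (h2 : CH ν (lst Pu W s (K' + 1 - s) σy) (fun ω => ((pa ω, qa ω), (zz ω, F.T ω))) ≤ c₂)
    (h3 : CH ν (lst Pu W (K + 1) (K' - K) σO) (fun ω => ((pa ω, qa ω), (zz ω, F.T ω))) ≤ c₃)
    (h4 : CH ν (fun ω => Cv (slam F W ω)) (fun ω => ((pa ω, qa ω), (zz ω, F.T ω))) ≤ c₄)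
    (h5 : CH ν (fun ω => χ (slam F W ω)) (fun ω => ((pa ω, qa ω), (zz ω, F.T ω))) ≤ c₅) :
    c₁ - (c₂ + c₃ + c₄ + c₅ + (4 * (D : ℝ) + 6 + K') *
        bb D (2 ^ (D + 1) * (2 ^ (D + 1) * (2 ^ (D + 1) * (C * C))))) ≤
      CH ν Dc (fun ω => ((Kb ω, (Cyy Cv Pu s K' D (2 ^ g / 2 ^ q) (2 ^ g) (slam F W ω), F.T ω)),
        pK (hP Pu s) W (fun _ => g) (K - s) D q ω)) := by
  have h0 := hν.nonneg
  have hC0 : 0 ≤ C := by linarith
  have p2 : (1 : ℝ) ≤ 2 ^ (D + 1) := one_le_pow₀ (by norm_num)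
  have pg : (0 : ℝ) < 2 ^ g := by positivity
  have pq : (0 : ℝ) < 2 ^ g / 2 ^ q := by positivity
  have pgq : (2 : ℝ) ^ g / 2 ^ q ≤ 2 ^ g := div_le_self pg.le (one_le_pow₀ (by norm_num))
  have hCC : C ≤ C * C := le_mul_of_one_le_left hC0 hC
  obtain ⟨C₂, hC₂⟩ : ∃ c : ℝ, c = 2 ^ (D + 1) * (2 ^ (D + 1) * C) := ⟨_, rfl⟩
  obtain ⟨C₃, hC₃⟩ : ∃ c : ℝ, c = 2 ^ (D + 1) * (2 ^ (D + 1) * (2 ^ (D + 1) * (C * C))) := ⟨_, rfl⟩
  have hC2 : C ≤ C₂ := by
    rw [hC₂]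
    have e1 : C ≤ 2 ^ (D + 1) * C := le_mul_of_one_le_left hC0 p2
    exact e1.trans (le_mul_of_one_le_left (by positivity) p2)
  have hC3 : C₂ ≤ C₃ := by
    rw [hC₂, hC₃]
    have e1 : C * C ≤ 2 ^ (D + 1) * (C * C) := le_mul_of_one_le_left (by positivity) p2
    exact mul_le_mul_of_nonneg_left (mul_le_mul_of_nonneg_left (hCC.trans e1) (by positivity))
      (by positivity)
  have hC20 : 0 ≤ C₂ := hC0.trans hC2
  have hC30 : 0 ≤ C₃ := hC20.trans hC3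
  have bb0 := bb_nonneg D hC30
  rw [← hC₃]
  obtain ⟨R, hR⟩ : ∃ R, R = fun ω => ((pa ω, qa ω), (zz ω, F.T ω)) := ⟨_, rfl⟩
  rw [← hR] at h1 h2 h3 h4 h5 hcR
  obtain ⟨Uo, hUo⟩ : ∃ U, U = lst Pu W K (K' + 1 - K) σo := ⟨_, rfl⟩
  obtain ⟨Uy, hUy⟩ : ∃ U, U = lst Pu W s (K' + 1 - s) σy := ⟨_, rfl⟩
  obtain ⟨UO, hUO⟩ : ∃ U, U = lst Pu W (K + 1) (K' - K) σO := ⟨_, rfl⟩
  rw [← hUo] at h1
  rw [← hUy] at h2
  rw [← hUO] at h3
  obtain ⟨V, hV⟩ : ∃ V, V = fun ω => (UO ω, (Cv (slam F W ω), (χ (slam F W ω), Uy ω))) := ⟨_, rfl⟩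
  obtain ⟨Gf, hGf⟩ : ∃ G, G = fun ω => (cdc Pu s D (2 ^ g / 2 ^ q) (slam F W ω),
    (cdc Pu K' D (2 ^ g) (slam F W ω), pK (hP Pu s) W (fun _ => g) (K - s) D q ω)) := ⟨_, rfl⟩
  -- what the large condition resolves
  have dV : ∀ ω ω', V ω = V ω' → UO ω = UO ω' ∧ Cv (slam F W ω) = Cv (slam F W ω') ∧
      Uy ω = Uy ω' := by
    intro ω ω' e
    rw [hV] at e
    simp only [Prod.mk.injEq] at e
    exact ⟨e.1, e.2.1, e.2.2.2⟩
  have rj1 : ∀ k, K < k → k ≤ K' → Rs ν (fun ω => (V ω, R ω)) (hh Pu W k) (1 / σO k) := by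
    intro k hk hk'
    refine rs_fl (sO k) fun ω ω' _ _ e => ?_
    have e1 := (dV ω ω' (Prod.ext_iff.mp e).1).1
    rw [hUO] at e1
    have e2 := congrFun e1 ⟨k - (K + 1), by omega⟩
    unfold lst at e2
    simpa only [show K + 1 + (k - (K + 1)) = k by omega] using e2
  have rj0 : ∀ k, s ≤ k → k ≤ K → Rs ν (fun ω => (V ω, R ω)) (hh Pu W k) (1 / σy k) := by
    intro k hk hk'
    refine rs_fl (sy k) fun ω ω' _ _ e => ?_
    have e1 := (dV ω ω' (Prod.ext_iff.mp e).1).2.2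
    rw [hUy] at e1
    have e2 := congrFun e1 ⟨k - s, by omega⟩
    unfold lst at e2
    simpa only [show s + (k - s) = k by omega] using e2
  have i1 : ∀ k, K < k → k ≤ K' → 1 / σO k ≤ C / 2 ^ g := fun k hk hk' => by
    rw [div_le_div_iff₀ (sO k) pg, one_mul]
    exact t3 k hk hk'
  have i2 : ∀ k, s ≤ k → k < K → 1 / σy k ≤ C / 2 ^ g := fun k hk hk' => by
    rw [div_le_div_iff₀ (sy k) pg, one_mul]
    exact t4 k hk hk'
  have i3 : 1 / σy K ≤ C / (2 ^ g / 2 ^ q) := by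
    rw [div_le_div_iff₀ (sy K) pq, one_mul]
    exact t5
  have i4 : C / 2 ^ g ≤ C / (2 ^ g / 2 ^ q) := div_le_div_of_nonneg_left hC0 pq pgq
  have dR : Det ν (fun ω => (V ω, R ω)) R := fun ω ω' _ _ e => (Prod.ext_iff.mp e).2
  have rc1 : ∀ k, K' < k → k ≤ D → Rs ν (fun ω => (V ω, R ω)) (cf Pu W k) (C / 2 ^ g) :=
    fun k hk hk' => (hcR k hk hk').cond dR
  have hT2 : Det ν (fun ω => (V ω, R ω)) F.T := fun ω ω' _ _ e => by
    have e1 := (Prod.ext_iff.mp e).2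
    rw [hR] at e1
    simp only [Prod.mk.injEq] at e1
    exact e1.2.2
  -- the coefficients at the coarse scale
  have rc2 : ∀ k, s < k → k ≤ D → Rs ν (fun ω => (V ω, R ω)) (cf Pu W k)
      (2 ^ (D + 1) * (2 ^ (D + 1) * (C / (2 ^ g / 2 ^ q)))) := by
    intro k hk hkD
    refine rs_cf hd hT2 (M := K') (by positivity) (fun i hi hi' => ?_) (fun i hi hi' hiD => ?_)
    · rcases Nat.lt_or_ge K i with hKi | hKi
      · exact (rj1 i hKi hi').le ((i1 i hKi hi').trans i4)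
      · rcases hKi.eq_or_lt with rfl | hlt
        · exact (rj0 i (by omega) le_rfl).le i3
        · exact (rj0 i (by omega) hlt.le).le ((i2 i (by omega) hlt).trans i4)
    · exact (rc1 i hi' hiD).le i4
  have e0 : (2 : ℝ) ^ g / 2 ^ q * (2 ^ (D + 1) * (2 ^ (D + 1) * (C / (2 ^ g / 2 ^ q)))) = C₂ := by
    rw [hC₂]
    field_simp
  have f1 : CH ν (fun ω => cdc Pu s D (2 ^ g / 2 ^ q) (slam F W ω)) (fun ω => (V ω, R ω)) ≤
      ((D : ℝ) + 1) * bb D C₃ :=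
    (few_cdc hν pq.le hC20 (le_of_eq e0) rc2).trans
      (mul_le_mul_of_nonneg_left (bb_mono D hC20 hC3) (by positivity))
  have f2 : CH ν (fun ω => cdc Pu K' D (2 ^ g) (slam F W ω)) (fun ω => (V ω, R ω)) ≤
      ((D : ℝ) + 1) * bb D C₃ :=
    (few_cdc hν pg.le hC0 (le_of_eq (by field_simp)) rc1).trans
      (mul_le_mul_of_nonneg_left (bb_mono D hC0 (hC2.trans hC3)) (by positivity))
  have f3 : CH ν (pK (hP Pu s) W (fun _ => g) (K - s) D q) (fun ω => (V ω, R ω)) ≤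
      (2 * (D : ℝ) + 3) * bb D C₃ := by
    refine (few_K (K' := K') (δ := C / 2 ^ g) (C := C₂) hν hd hsK.le hT2 (by positivity) hC20
      ((le_of_eq (by field_simp)).trans hC2) (fun i hi hi' => ?_) (fun i hi hi' => ?_)
      (fun i hi hi' hiD => rc1 i hi' hiD) (le_of_eq e0) ?_).trans
      (mul_le_mul_of_nonneg_left (bb_mono D hC20 hC3) (by positivity))
    · exact (rj0 i hi hi'.le).le (i2 i hi hi')
    · exact (rj1 i hi hi').le (i1 i hi hi')
    · rcases Nat.lt_or_ge D K with hDK | hDK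
      · intro ω ω' _ _ _
        have z1 : ∀ x, (Pu x).coeff K = 0 := fun x =>
          Polynomial.coeff_eq_zero_of_natDegree_lt ((hd x).trans_lt hDK)
        unfold cf
        rw [z1, z1, sub_self, abs_zero]
        positivity
      · exact rc2 K hsK hDK
  have f4 : CH ν Gf (fun ω => (V ω, R ω)) ≤ (4 * (D : ℝ) + 5) * bb D C₃ := by
    have g1 := CH_subadd h0 (fun ω => cdc Pu s D (2 ^ g / 2 ^ q) (slam F W ω))
      (fun ω => (cdc Pu K' D (2 ^ g) (slam F W ω), pK (hP Pu s) W (fun _ => g) (K - s) D q ω))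
      (fun ω => (V ω, R ω))
    have g2 := CH_subadd h0 (fun ω => cdc Pu K' D (2 ^ g) (slam F W ω))
      (pK (hP Pu s) W (fun _ => g) (K - s) D q) (fun ω => (V ω, R ω))
    rw [hGf]
    have g3 : (4 * (D : ℝ) + 5) * bb D C₃ = ((D : ℝ) + 1) * bb D C₃ + (((D : ℝ) + 1) * bb D C₃ +
      (2 * (D : ℝ) + 3) * bb D C₃) := by ring
    linarith
  -- the list at the later window
  have f5 : CH ν Uo (fun ω => (Dc ω, (Gf ω, (V ω, R ω)))) ≤ ((K' : ℝ) + 1) * bb D C₃ := by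
    have dX : Det ν (fun ω => (Dc ω, (Gf ω, (V ω, R ω)))) (fun ω => (V ω, R ω)) :=
      fun ω ω' _ _ e => (Prod.ext_iff.mp (Prod.ext_iff.mp e).2).2
    have dD : Det ν (fun ω => (Dc ω, (Gf ω, (V ω, R ω)))) Dc :=
      fun ω ω' _ _ e => (Prod.ext_iff.mp e).1
    have hTX : Det ν (fun ω => (Dc ω, (Gf ω, (V ω, R ω)))) F.T :=
      fun ω ω' a b e => hT2 ω ω' a b (dX ω ω' a b e)
    have i5 : C / 2 ^ g ≤ C / τm := div_le_div_of_nonneg_left hC0 hτm hτg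
    have rcK : ∀ i, K ≤ i → i ≤ D → Rs ν (fun ω => (Dc ω, (Gf ω, (V ω, R ω)))) (cf Pu W i)
        (2 ^ (D + 1) * (2 ^ (D + 1) * (C / τm))) := by
      intro i hi hiD
      rcases hi.eq_or_lt with rfl | hlt
      · refine (hDc.cond dD).le ?_
        have e1 : C / τm ≤ 2 ^ (D + 1) * (C / τm) := le_mul_of_one_le_left (by positivity) p2
        exact e1.trans (le_mul_of_one_le_left (by positivity) p2)
      · refine rs_cf hd hTX (M := K') (by positivity) (fun l hl hl' => ?_) (fun l hl hl' hlD => ?_)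
        · exact ((rj1 l (by omega) hl').cond dX).le ((i1 l (by omega) hl').trans i5)
        · exact ((rc1 l hl' hlD).cond dX).le i5
    have rhK := rs_hh (k := K) hd hTX (by positivity) rcK
    have cK : ((K' + 1 - K : ℕ) : ℝ) ≤ (K' : ℝ) + 1 := by
      have : K' + 1 - K ≤ K' + 1 := Nat.sub_le _ _
      exact_mod_cast this
    rw [hUo]
    refine (few_lst (D := D) (C := C₃) hν (δ := fun k => if k = K then
      2 ^ (D + 1) * (2 ^ (D + 1) * (2 ^ (D + 1) * (C / τm))) else 1 / σO k)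
      (fun k => (so k).le) hC30 (fun k hk hk' => ?_) (fun k hk hk' => ?_)).trans
        (mul_le_mul_of_nonneg_right cK bb0)
    · split_ifs with hkK
      · rw [hkK, hC₃]
        have e1 : σo K * (2 ^ (D + 1) * (2 ^ (D + 1) * (2 ^ (D + 1) * (C / τm)))) =
          2 ^ (D + 1) * (2 ^ (D + 1) * (2 ^ (D + 1) * (C * (σo K / τm)))) := by ring
        rw [e1]
        have e2 : σo K / τm ≤ C := by
          rw [div_le_iff₀ hτm]
          exact t2
        gcongr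
      · rw [mul_one_div, div_le_iff₀ (sO k)]
        have e1 : C ≤ C₃ := hC2.trans hC3
        exact (t1 k (by omega) (by omega)).trans (mul_le_mul_of_nonneg_right e1 (sO k).le)
    · split_ifs with hkK
      · rw [hkK]
        exact rhK
      · exact (rj1 k (by omega) (by omega)).cond dX
  -- the chain
  have a1 := CH_le_add h0 Uo V R
  have a2 := CH_le_add h0 Uo Gf (fun ω => (V ω, R ω))
  have a3 := CH_le_add h0 Uo Dc (fun ω => (Gf ω, (V ω, R ω)))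
  have a4 : CH ν Dc (fun ω => (Gf ω, (V ω, R ω))) ≤ CH ν Dc (fun ω => ((Kb ω,
      (Cyy Cv Pu s K' D (2 ^ g / 2 ^ q) (2 ^ g) (slam F W ω), F.T ω)),
        pK (hP Pu s) W (fun _ => g) (K - s) D q ω)) := by
    refine CH_mono_cond h0 fun ω ω' a b e => ?_
    rw [hGf, hR] at e
    simp only [Prod.mk.injEq] at e
    obtain ⟨⟨e1, e2, e3⟩, e4, e5, e6, e7⟩ := e
    have e8 := (dV ω ω' e4).2.1
    unfold Cyy
    exact Prod.ext (Prod.ext (hKb ω ω' a b e6) (Prod.ext (Prod.ext e8 (Prod.ext e1 e2)) e7)) e3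
  have a5 : CH ν V R ≤ c₃ + (c₄ + (c₅ + c₂)) := by
    have g1 := CH_subadd h0 UO (fun ω => (Cv (slam F W ω), (χ (slam F W ω), Uy ω))) R
    have g2 := CH_subadd h0 (fun ω => Cv (slam F W ω)) (fun ω => (χ (slam F W ω), Uy ω)) R
    have g3 := CH_subadd h0 (fun ω => χ (slam F W ω)) Uy R
    rw [hV]
    linarith
  have e9 : (4 * (D : ℝ) + 6 + K') * bb D C₃ = (4 * (D : ℝ) + 5) * bb D C₃ +
    ((K' : ℝ) + 1) * bb D C₃ := by ring
  linarith

end

end Pool.NA97
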