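import Pool.Agent.H97.NA.Core

/-!
# The fullness of the lower order: the event theorem

`vf_evt`: from the numbers of the lists at the windows.
-/

set_option autoImplicit false

namespace Pool.NA97

open Finset Real
open Pool.Agent.H49.Ent Pool.Agent.H32.Dense Pool.STK Pool.KA Pool.KSAT Pool.K2S Pool.PB Pool.GEN
open Pool.OWN68
open Pool.T4E (vtf vtf_nonneg vtf_lt)
open Pool.BFL (Pb)
open Pool.STR16 (pD pH pL pU pK rho rho_mem Kp)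
open Pool.AVG5 (jt jt_dif co_sub of_fl CH_near fl_mul)

variable {m J : ℕ} {F : Fam m J} {p : F.Ω → ℝ} {W : ℕ} {Pu : LnT F → Polynomial ℝ}
  {D s K K' g q : ℕ} {C : ℝ}

/-- The constant of the event theorem. -/
noncomputable def BB (D : ℕ) (C : ℝ) : ℝ :=
  bb D (2 ^ (D + 1) * (2 ^ (D + 1) * (2 ^ (D + 1) * (C * C))))

/-- A list and its first entry. -/
theorem lst_det (hs : s ≤ K') (σ : ℕ → ℝ) (p : F.Ω → ℝ) :
    Det p (lst Pu W s (K' + 1 - s) σ)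
      (fun ω => (lst Pu W s 1 σ ω, lst Pu W (s + 1) (K' - s) σ ω)) := by
  intro ω ω' _ _ e
  refine Prod.ext (funext fun i => ?_) (funext fun i => ?_)
  · obtain rfl : i = 0 := Subsingleton.elim _ _
    exact congrFun e ⟨0, by omega⟩
  · have h1 := congrFun e ⟨i + 1, by have := i.2; omega⟩
    unfold lst at h1 ⊢
    have h2 : s + ((i : ℕ) + 1) = s + 1 + i := by omega
    simp only [h2] at h1
    exact h1

theorem det_lst (hs : s ≤ K') (σ : ℕ → ℝ) (p : F.Ω → ℝ) :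
    Det p (fun ω => (lst Pu W s 1 σ ω, lst Pu W (s + 1) (K' - s) σ ω))
      (lst Pu W s (K' + 1 - s) σ) := by
  intro ω ω' _ _ e
  obtain ⟨e1, e2⟩ := Prod.ext_iff.mp e
  funext i
  rcases Nat.eq_zero_or_pos (i : ℕ) with h0 | h0
  · have h1 := congrFun e1 ⟨0, by omega⟩
    unfold lst at h1 ⊢
    simp only [h0]
    exact h1
  · have h1 := congrFun e2 ⟨i - 1, by have := i.2; omega⟩
    unfold lst at h1 ⊢
    have h2 : s + 1 + ((i : ℕ) - 1) = s + i := by omega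
    simp only [h2] at h1
    exact h1

/-- **The event theorem.** -/
theorem vf_evt {𝒱 𝒰 Ya Qa Zx Zy : Type} {Cv : LnT F → 𝒱} {χ : LnT F → 𝒰} {pa : F.Ω → Ya}
    {qa : F.Ω → Qa} {zx : F.Ω → Zx} {zy : F.Ω → Zy} (hp : IsLaw p) (hW : W ≤ J) (hq : q ≤ J - W)
    (hd : ∀ x, (Pu x).natDegree ≤ D) (hsK : s < K) (hKK : K ≤ K') (hC : 2 ≤ C)
    (hzx : Det p zx (fun ω => χ (slam F W ω))) (hzy : Det p zy (fun ω => χ (slam F W ω)))
    {e e₀ k₀ : ℝ}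
    (full : ((J : ℝ) - W) * Real.log 2 - e₀ ≤ CH p (fun ω => F.T ω % 2 ^ (J - W)) (slam F W))
    (hpa : CH p pa (fun ω => (F.T ω, Cv (slam F W ω))) ≤ k₀)
    {σo σp σr σy σO σx σ₃ : ℕ → ℝ} (o0 : ∀ k, 0 < σo k) (p0 : ∀ k, 0 < σp k)
    (r0 : ∀ k, 0 < σr k) (y0 : ∀ k, 0 < σy k) (O0 : ∀ k, 0 < σO k) (x0 : ∀ k, 0 < σx k)
    (v0 : ∀ k, 0 < σ₃ k) {n u v : ℕ} (hm : n + u + (K - s) * v = q) (hv0 : 0 < v)
    (s2 : ∀ k, K ≤ k → k ≤ K' → σy k ≤ C * (2 ^ g / 2 ^ q))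
    (s3 : ∀ k, K ≤ k → k ≤ K' → σy k ≤ C * σo k)
    (s4 : (2 : ℝ) ^ g ≤ C * σo K) (s6 : ∀ k, K < k → k ≤ K' → (2 : ℝ) ^ g ≤ C * σO k)
    (t1 : ∀ k, K < k → k ≤ K' → σp k ≤ C * σO k) (t2 : σp K ≤ C * 2 ^ g)
    (r1 : ∀ k, K < k → k ≤ K' → σr k ≤ C * σO k) (r2 : σr K ≤ C * (2 ^ g / 2 ^ (q - u)))
    (t4 : ∀ k, s ≤ k → k < K → (2 : ℝ) ^ g ≤ C * σy k) (t5 : (2 : ℝ) ^ g / 2 ^ q ≤ C * σy K)
    (u1 : σ₃ s ≤ C * (2 ^ g / 2 ^ q)) (u2 : ∀ k, s < k → k ≤ K' → σx k ≤ C * (2 ^ g / 2 ^ q))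
    (u3 : ∀ k, s ≤ k → k ≤ K' → σ₃ k ≤ C * σx k)
    (hcR : ∀ k, K' < k → k ≤ D → Rs p (fun ω => ((pa ω, qa ω), (zy ω, F.T ω))) (cf Pu W k)
      (C / 2 ^ g))
    {b₁ b₂ b₃ c₁ c₂ c₃ c₄ : ℝ}
    (g1 : CH p (lst Pu W K (K' + 1 - K) σo) (fun ω => (pa ω, (χ (slam F W ω), F.T ω))) ≤ b₁)
    (g2 : b₂ ≤ CH p (lst Pu W K (K' + 1 - K) σy) (fun ω => (pa ω, (χ (slam F W ω), F.T ω))))
    (g3 : CH p (lst Pu W (K + 1) (K' - K) σO) (fun ω => (pa ω, (χ (slam F W ω), F.T ω))) ≤ b₃)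
    (l1 : c₁ ≤ CH p (lst Pu W K (K' + 1 - K) σp) (fun ω => ((pa ω, qa ω), (zy ω, F.T ω))))
    (l2 : CH p (lst Pu W s (K' + 1 - s) σy) (fun ω => ((pa ω, qa ω), (zy ω, F.T ω))) ≤ c₂)
    (l3 : CH p (lst Pu W (K + 1) (K' - K) σO) (fun ω => ((pa ω, qa ω), (zy ω, F.T ω))) ≤ c₃)
    (l4 : CH p (fun ω => Cv (slam F W ω)) (fun ω => ((pa ω, qa ω), (zy ω, F.T ω))) ≤ c₄)
    (e0 : 0 ≤ e) (e1 : e₀ ≤ e)
    (he : b₁ - b₂ + b₃ + k₀ + e₀ + (c₂ + c₃ + c₄ - c₁) + (4 * (D : ℝ) + 3 * K' + 9) * BB D C ≤ e)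
    {δ μ : ℝ} (hδ : 0 < δ) (hμ : 2 * (e + 3) ≤ μ * v)
    (hE : ∀ E : F.Ω → Prop, δ / 2 ≤ Pb p E → IsLaw (cond p E True) ∧ ∃ d₁ d₂ d₃ d₄ : ℝ,
      d₁ ≤ CH (cond p E True) (lst Pu W K (K' + 1 - K) σr)
        (fun ω => ((pa ω, qa ω), (zy ω, F.T ω))) ∧
      CH (cond p E True) (lst Pu W s (K' + 1 - s) σy)
        (fun ω => ((pa ω, qa ω), (zy ω, F.T ω))) ≤ d₂ ∧
      CH (cond p E True) (lst Pu W (K + 1) (K' - K) σO)
        (fun ω => ((pa ω, qa ω), (zy ω, F.T ω))) ≤ d₃ ∧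
      CH (cond p E True) (fun ω => Cv (slam F W ω))
        (fun ω => ((pa ω, qa ω), (zy ω, F.T ω))) ≤ d₄ ∧
      Real.log (6 / δ) + (d₂ + d₃ + d₄ + (4 * (D : ℝ) + 6 + K') * BB D C) < d₁)
    {a₁ a₂ a₃ a₅ a₆ a₇ : ℝ}
    (h1 : CH p (lst Pu W s (K' + 1 - s) σx) (fun ω => (pa ω, (χ (slam F W ω), F.T ω))) ≤ a₁)
    (h2 : a₂ ≤ CH p (lst Pu W (s + 1) (K' - s) σx) (fun ω => (pa ω, (χ (slam F W ω), F.T ω))))
    (h3 : a₃ ≤ CH p (lst Pu W s (K' + 1 - s) σ₃) (fun ω => (pa ω, (χ (slam F W ω), F.T ω))))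
    (h5 : CH p (lst Pu W (s + 1) (K' - s) σx) (fun ω => (pa ω, (χ (slam F W ω), F.T ω))) ≤ a₅)
    (h6 : a₆ ≤ CH p (lst Pu W (s + 1) (K' - s) σx) (fun ω => (pa ω, (zx ω, F.T ω))))
    (h7 : CH p (lst Pu W s (K' + 1 - s) σ₃) (fun ω => (pa ω, (zx ω, F.T ω))) ≤ a₇) :
    n * Real.log 2 - (3 * e + cB (Kp D) + (δ + μ) * (n * Real.log 2 + 2)) ≤
      a₁ - a₂ - a₃ + a₅ - a₆ + a₇ + k₀ + Real.log (2 * (2 ^ g / σx s + 1) + 1) +
        (2 * (K' : ℝ) + 2) * BB D C := by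
  classical
  have h0 := hp.nonneg
  have hC0 : 0 ≤ C := by linarith
  have hC1 : 1 ≤ C := by linarith
  have p2 : (1 : ℝ) ≤ 2 ^ (D + 1) := one_le_pow₀ (by norm_num)
  have pg : (0 : ℝ) < 2 ^ g := by positivity
  have hCC : C ≤ C * C := le_mul_of_one_le_left hC0 hC1
  have c3 : 2 ^ (D + 1) * C ≤ 2 ^ (D + 1) * (2 ^ (D + 1) * (2 ^ (D + 1) * (C * C))) := by
    refine mul_le_mul_of_nonneg_left ?_ (by positivity)
    have f1 : C * C ≤ 2 ^ (D + 1) * (C * C) := le_mul_of_one_le_left (by positivity) p2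
    have f2 : 2 ^ (D + 1) * (C * C) ≤ 2 ^ (D + 1) * (2 ^ (D + 1) * (C * C)) :=
      le_mul_of_one_le_left (by positivity) p2
    linarith
  have bB : bb D (2 ^ (D + 1) * C) ≤ BB D C := bb_mono D (by positivity) c3
  have cB' : bb D C ≤ BB D C :=
    bb_mono D hC0 ((le_mul_of_one_le_left hC0 p2).trans c3)
  have B0 : 0 ≤ BB D C := bb_nonneg D (by positivity)
  have hK0 : (0 : ℝ) ≤ K' := Nat.cast_nonneg K'
  obtain ⟨R, hR⟩ : ∃ R, R = fun ω => ((pa ω, qa ω), (zy ω, F.T ω)) := ⟨_, rfl⟩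
  have dχ : ∀ ν : F.Ω → ℝ, (∀ ω, 0 < ν ω → 0 < p ω) →
      Det ν (fun ω => ((pa ω, qa ω), (zy ω, F.T ω))) (fun ω => χ (slam F W ω)) := by
    intro ν hν ω ω' a b e
    simp only [Prod.mk.injEq] at e
    exact hzy ω ω' (hν ω a) (hν ω' b) e.2.1
  -- the free velocities
  have fu := free_up (Pu := Pu) (χ := χ) (g := g) (q := q) (Cv := Cv) (zv := fun ω => χ (slam F W ω))
    hp hW hd hsK hC1 (fun _ _ _ _ h => h) full hpa o0 y0 O0 s2 s3 s4 s6 g1 g2 g3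
  have fl := free_lo (Pu := Pu) (χ := χ) (g := g) (q := q) (Cv := Cv) (ν := p) (zz := zy)
    (Kb := fun ω => χ (slam F W ω)) (τm := 2 ^ g) hp hd hsK hKK hC1 hzy pg le_rfl
    (rs_pD hsK.le hC1) hcR p0 y0 O0 t1 t2 s6 t4 t5 l1 l2 l3 l4
    (le_of_eq (CH_eq_zero h0 (dχ p fun _ h => h)))
  have free : CH p (fun ω => pD (hP Pu s) (fun _ => g) (K - s) (slam F W ω))
        (fun ω => (pU (hP Pu s) (fun _ => g) (K - s) q (slam F W ω),
          (Cyy Cv Pu s K' D (2 ^ g / 2 ^ q) (2 ^ g) (slam F W ω), Kaa χ (slam F W ω)))) - e ≤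
      CH p (fun ω => pD (hP Pu s) (fun _ => g) (K - s) (slam F W ω))
        (fun ω => ((χ (slam F W ω), (Cyy Cv Pu s K' D (2 ^ g / 2 ^ q) (2 ^ g) (slam F W ω), F.T ω)),
          pK (hP Pu s) W (fun _ => g) (K - s) D q ω)) := by
    have f1 : (2 * (K' : ℝ) + 3) * bb D (2 ^ (D + 1) * C) ≤ (2 * (K' : ℝ) + 3) * BB D C :=
      mul_le_mul_of_nonneg_left bB (by positivity)
    have f2 : (4 * (D : ℝ) + 3 * K' + 9) * BB D C = (2 * (K' : ℝ) + 3) * BB D C +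
      (4 * (D : ℝ) + 6 + K') * BB D C := by ring
    have f3 : BB D C = bb D (2 ^ (D + 1) * (2 ^ (D + 1) * (2 ^ (D + 1) * (C * C)))) := rfl
    rw [← f3] at fl
    linarith
  -- the separation
  have sep : ∀ E : F.Ω → Prop, δ / 2 ≤ Pb p E → Real.log (6 / δ) < CH (cond p E True)
      (fun ω => ⌊((pD (hP Pu s) (fun _ => g) (K - s) (slam F W ω) 0 : ℤ) : ℝ) / 2 ^ (q - u)⌋)
      (fun ω => ((χ (slam F W ω),
        (Cyy Cv Pu s K' D (2 ^ g / 2 ^ q) (2 ^ g) (slam F W ω), F.T ω)),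
          pK (hP Pu s) W (fun _ => g) (K - s) D q ω)) := by
    intro E hEE
    obtain ⟨hν, d₁, d₂, d₃, d₄, k1, k2, k3, k4, k5⟩ := hE E hEE
    have hpos : ∀ ω, 0 < cond p E True ω → 0 < p ω := by
      intro ω hω
      unfold Pool.Agent.H49.Ent.cond at hω
      by_contra hcon
      have e1 : p ω = 0 := le_antisymm (not_lt.1 hcon) (h0 ω)
      simp [e1] at hω
    have f1 := free_lo (Pu := Pu) (χ := χ) (g := g) (q := q) (Cv := Cv) (ν := cond p E True)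
      (zz := zy) (Kb := fun ω => χ (slam F W ω)) (τm := 2 ^ g / 2 ^ (q - u)) hν hd hsK hKK hC1
      (fun ω ω' a b e => hzy ω ω' (hpos ω a) (hpos ω' b) e) (by positivity)
      (div_le_self pg.le (one_le_pow₀ (by norm_num)))
      (rs_pDd hsK.le hC (q - u)) (fun k a b => (hcR k a b).law hpos) r0 y0 O0 r1 r2 s6 t4 t5
      k1 k2 k3 k4 (le_of_eq (CH_eq_zero hν.nonneg (dχ _ hpos)))
    have f3 : BB D C = bb D (2 ^ (D + 1) * (2 ^ (D + 1) * (2 ^ (D + 1) * (C * C)))) := rfl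
    rw [← f3] at f1
    linarith
  have row := vf_row (Pu := Pu) (χ := χ) (g := g) (q := q) (Cv := Cv) (K' := K')
    (Kb := fun ω => χ (slam F W ω)) hp hW hq hd hsK e0 (fun _ => rfl) (by linarith) free hm hv0 hδ
    hμ sep
  -- the lists
  have hs' : s ≤ K' := by omega
  have na := num_a (p := p) h0 (X := lst Pu W s 1 σx) (Y := lst Pu W (s + 1) (K' - s) σx)
    (X' := lst Pu W s 1 σ₃) (Y' := lst Pu W (s + 1) (K' - s) σ₃)
    (W := fun ω => (pa ω, (χ (slam F W ω), F.T ω))) (W' := fun ω => (pa ω, (zx ω, F.T ω)))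
    (k₁ := 1 * BB D C) (k₂ := (K' : ℝ) * BB D C)
    ((CH_mono_left h0 fun ω ω' a b e => lst_det hs' σx p ω ω' a b (Prod.ext_iff.mp e).1).trans h1) h2
    (h3.trans (CH_mono_left h0 fun ω ω' a b e =>
      det_lst hs' σ₃ p ω ω' a b (Prod.ext_iff.mp e).1)) h5 h6
    ((CH_mono_left h0 fun ω ω' a b e => lst_det hs' σ₃ p ω ω' a b (Prod.ext_iff.mp e).1).trans h7)
    (le_of_eq (CH_eq_zero h0 fun ω ω' a b e => by
      simp only [Prod.mk.injEq] at e ⊢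
      exact ⟨e.1, hzx ω ω' a b e.2.1, e.2.2⟩)) ?_ ?_
  · have lf := lem_f (Pu := Pu) (χ := χ) (g := g) (q := q) (Cv := Cv)
      (zv := fun ω => χ (slam F W ω)) hp hd (by omega : s < K') hC1 (fun _ _ _ _ h => h) hpa x0 v0
      u1 u2 na
    have f1 : ((K' : ℝ) + 1) * bb D (2 ^ (D + 1) * C) ≤ ((K' : ℝ) + 1) * BB D C :=
      mul_le_mul_of_nonneg_left bB (by positivity)
    have f2 : (2 * (K' : ℝ) + 2) * BB D C = 1 * BB D C + (K' : ℝ) * BB D C +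
      ((K' : ℝ) + 1) * BB D C := by ring
    linarith
  · have f1 := few_lst (D := D) (C := C) (Pu := Pu) (W := W)
      (Z := fun ω => (lst Pu W s 1 σx ω, (lst Pu W (s + 1) (K' - s) σx ω,
        (pa ω, (χ (slam F W ω), F.T ω))))) (j := s) (n := 1) hp
      (σ := σ₃) (δ := fun k => 1 / σx k) (fun k => (v0 k).le) hC0 (fun k hk hk' => ?_)
      (fun k hk hk' => ?_)
    · refine f1.trans ?_
      rw [Nat.cast_one]
      exact mul_le_mul_of_nonneg_left cB' one_pos.le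
    · rw [mul_one_div, div_le_iff₀ (x0 k)]
      exact u3 k hk (by omega)
    · obtain rfl : k = s := by omega
      refine rs_fl (x0 k) fun ω ω' _ _ e => ?_
      have e1 := (Prod.ext_iff.mp e).1
      exact congrFun e1 ⟨0, by omega⟩
  · have cK : ((K' - s : ℕ) : ℝ) ≤ (K' : ℝ) := by
      have : K' - s ≤ K' := Nat.sub_le _ _
      exact_mod_cast this
    refine (few_lst (D := D) (C := C) hp (δ := fun k => 1 / σx k)
      (fun k => (v0 k).le) hC0 (fun k hk hk' => ?_)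
      (fun k hk hk' => rs_fl (x0 k) fun ω ω' _ _ e => ?_)).trans
        (mul_le_mul cK cB' (bb_nonneg D hC0) hK0)
    · rw [mul_one_div, div_le_iff₀ (x0 k)]
      exact u3 k (by omega) (by omega)
    · have e1 := (Prod.ext_iff.mp e).1
      have e2 := congrFun e1 ⟨k - (s + 1), by omega⟩
      unfold lst at e2
      simpa only [show s + 1 + (k - (s + 1)) = k by omega] using e2

end Pool.NA97
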