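import Pool.Agent.H97.NA.Evt
import Pool.Agent.H62.V0C.Cfb
import Pool.Agent.H28.RJ.All

/-!
# Codes from the labels of an earlier window

`Pp`: the paths over the labels of an earlier window. `hh_Pp`: the jets at the time. `sg`: the scale
of a jet. `cod_P`: the codes have the property of the classes.
-/

set_option autoImplicit false

namespace Pool.NA97

open Finset Real MvPolynomial
open Pool.Agent.H49.Ent Pool.Agent.H32.Dense Pool.STK Pool.KA Pool.KSAT Pool.K2S Pool.PB Pool.GEN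
open Pool.S6C Pool.RCD Pool.LA91 Pool.OWN68
open Pool.AVG57 (upw upw_slam)
open Pool.AVG5 (jt jt_dif co_sub of_fl CH_near fl_mul)
open Pool.GRD (LbP)
open Pool.BFL (Pb)
open Pool.PB.Trl (rt rt_mem)
open Pool.STR16 (rho rho_mem)
open Pool.T4E (vtf)

variable {m J : ℕ}

theorem rho_rt (F : Fam m J) (W : ℕ) (ω : F.Ω) : rho F W ω = rt F W ω := by
  unfold rho rt vtf
  push_cast
  rfl

section

variable {F : Fam m J} {c : ℕ → Fin m} {bJ W : ℕ} {V : Type} {z' : LnT F → V}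
  {g : V → ℕ → MvPolynomial (Option (Fin m)) ℝ}

/-- The path of the place `l` over the labels of an earlier window. -/
noncomputable def Pp (F : Fam m J) (c : ℕ → Fin m) (bJ W : ℕ) {V : Type} (z' : LnT F → V)
    (g : V → ℕ → MvPolynomial (Option (Fin m)) ℝ) (l : ℕ) (x : LnT F) : Polynomial ℝ :=
  dv W (fun s (_ : Fin m) => g (z' (upw bJ W s)) l) (c l) x

theorem deg_Pp {K : ℕ} {l : ℕ} (h : ∀ v, (g v l).totalDegree ≤ K) (x : LnT F) :
    (Pp F c bJ W z' g l x).natDegree ≤ K + 1 :=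
  natDegree_dv W (K := K) (G := fun s (_ : Fin m) => g (z' (upw bJ W s)) l) (fun _ _ => h _) _ _

theorem hh_Pp (hb : bJ ≤ W) (hW : W ≤ J) (l k : ℕ) (ω : F.Ω) :
    hh (Pp F c bJ W z' g l) W k ω =
      ojet F (c l) k (g (z' (slam F bJ ω)) l) ω / ((k.factorial : ℝ) * (2 ^ W) ^ k) := by
  unfold hh Pp
  rw [rho_rt]
  exact Pool.V0C62.jt_upw F hb hW z' (fun v => g v l) (c l) ω k

/-- The scale of the order `k`. -/
noncomputable def sg (J W : ℕ) (T o : ℝ) (k : ℕ) : ℝ :=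
  (2 : ℝ) ^ ((T - k * o) * J) * ((k.factorial : ℝ) * (2 ^ W) ^ k)

theorem sg_pos (J W : ℕ) (T o : ℝ) (k : ℕ) : 0 < sg J W T o k := by
  unfold sg
  positivity

theorem sg_hh (hb : bJ ≤ W) (hW : W ≤ J) (T o : ℝ) (l k : ℕ) (ω : F.Ω) :
    sg J W T o k * hh (Pp F c bJ W z' g l) W k ω =
      (2 : ℝ) ^ ((T - k * o) * J) * ojet F (c l) k (g (z' (slam F bJ ω)) l) ω := by
  rw [hh_Pp hb hW]
  unfold sg
  field_simp

theorem sg_le {v T o θ : ℝ} {k : ℕ} (hW : (W : ℝ) ≤ v * J) (h : T - k * (o - v) ≤ θ) :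
    sg J W T o k ≤ (k.factorial : ℝ) * 2 ^ (θ * J) := by
  unfold sg
  have hJ : (0 : ℝ) ≤ J := Nat.cast_nonneg J
  have e1 : ((2 : ℝ) ^ W) ^ k = 2 ^ ((W : ℝ) * k) := by
    rw [← pow_mul, ← Real.rpow_natCast]
    push_cast
    rfl
  rw [e1]
  have e2 : (2 : ℝ) ^ ((T - k * o) * J) * ((k.factorial : ℝ) * 2 ^ ((W : ℝ) * k)) =
      (k.factorial : ℝ) * 2 ^ ((T - k * o) * J + W * k) := by
    rw [Real.rpow_add (by norm_num)]
    ring
  rw [e2]
  refine mul_le_mul_of_nonneg_left (Real.rpow_le_rpow_of_exponent_le (by norm_num) ?_)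
    (Nat.cast_nonneg _)
  have h1 : (W : ℝ) * k ≤ v * J * k := mul_le_mul_of_nonneg_right hW (Nat.cast_nonneg _)
  have h2 : (T - k * (o - v)) * J ≤ θ * J := mul_le_mul_of_nonneg_right h hJ
  nlinarith

theorem le_sg {v T o θ : ℝ} {k : ℕ} (hW : v * J ≤ (W : ℝ) + 1) (h : θ ≤ T - k * (o - v)) :
    (2 : ℝ) ^ (θ * J) ≤ 2 ^ k * sg J W T o k := by
  unfold sg
  have hJ : (0 : ℝ) ≤ J := Nat.cast_nonneg J
  have e1 : ((2 : ℝ) ^ W) ^ k = 2 ^ ((W : ℝ) * k) := by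
    rw [← pow_mul, ← Real.rpow_natCast]
    push_cast
    rfl
  rw [e1]
  have hf : (1 : ℝ) ≤ (k.factorial : ℝ) := by
    exact_mod_cast Nat.one_le_iff_ne_zero.2 (Nat.factorial_ne_zero k)
  have h1 : v * J * k ≤ ((W : ℝ) + 1) * k := mul_le_mul_of_nonneg_right hW (Nat.cast_nonneg _)
  have h2 : θ * J ≤ (T - k * (o - v)) * J := mul_le_mul_of_nonneg_right h hJ
  have e2 : (2 : ℝ) ^ k * ((2 : ℝ) ^ ((T - k * o) * J) * (1 * 2 ^ ((W : ℝ) * k))) =
      2 ^ ((k : ℝ) + ((T - k * o) * J + W * k)) := by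
    rw [Real.rpow_add (by norm_num), Real.rpow_add (by norm_num), Real.rpow_natCast]
    ring
  calc (2 : ℝ) ^ (θ * J) ≤ 2 ^ ((k : ℝ) + ((T - k * o) * J + W * k)) :=
        Real.rpow_le_rpow_of_exponent_le (by norm_num) (by nlinarith)
    _ = (2 : ℝ) ^ k * ((2 : ℝ) ^ ((T - k * o) * J) * (1 * 2 ^ ((W : ℝ) * k))) := e2.symm
    _ ≤ _ := by gcongr

/-- The size of the number of values of a code. -/
theorem cnt_code {A : F.Ω → Prop} {x : F.Ω → ℝ} {N X : ℝ} {M : ℕ} (hJ : 1 ≤ J)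
    (hx : ∀ ω, A ω → |x ω| ≤ 2 ^ (X * J)) (hM : |N| + |X| + 2 ≤ M) :
    (cnt F.p (fun ω => ⌊(2 : ℝ) ^ (N * J) * x ω⌋) A : ℝ) ≤ Real.exp (M * J) := by
  have hJ1 : (1 : ℝ) ≤ J := by exact_mod_cast hJ
  have hJ0 : (0 : ℝ) ≤ J := by linarith
  obtain ⟨B, hB⟩ : ∃ B : ℝ, B = |N| + |X| := ⟨_, rfl⟩
  have hB0 : 0 ≤ B := by rw [hB]; positivity
  have h1 : ∀ ω, A ω → |((⌊(2 : ℝ) ^ (N * J) * x ω⌋ : ℤ) : ℝ)| ≤ 2 ^ (B * J) + 1 := by
    intro ω hω
    have e1 : |(2 : ℝ) ^ (N * J) * x ω| ≤ 2 ^ (B * J) := by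
      rw [abs_mul, abs_of_pos (by positivity)]
      calc (2 : ℝ) ^ (N * J) * |x ω| ≤ 2 ^ (N * J) * 2 ^ (X * J) :=
            mul_le_mul_of_nonneg_left (hx ω hω) (by positivity)
        _ = 2 ^ (N * J + X * J) := by rw [Real.rpow_add (by norm_num)]
        _ ≤ 2 ^ (B * J) := by
            refine Real.rpow_le_rpow_of_exponent_le (by norm_num) ?_
            rw [hB]
            have f1 := mul_le_mul_of_nonneg_right (le_abs_self N) hJ0
            have f2 := mul_le_mul_of_nonneg_right (le_abs_self X) hJ0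
            linarith
    have f1 := Int.floor_le ((2 : ℝ) ^ (N * J) * x ω)
    have f2 := Int.lt_floor_add_one ((2 : ℝ) ^ (N * J) * x ω)
    rw [abs_le] at e1 ⊢
    constructor <;> linarith [e1.1, e1.2]
  refine (cnt_le_of_abs (by positivity) h1).trans ?_
  have h2 : (1 : ℝ) ≤ 2 ^ (B * J) := Real.one_le_rpow (by norm_num) (by positivity)
  have h3 : 2 * ((2 : ℝ) ^ (B * J) + 1) + 1 ≤ 5 * 2 ^ (B * J) := by linarith
  have h5 : (5 : ℝ) ≤ Real.exp 2 := by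
    have := Real.add_one_le_exp (1 : ℝ)
    have h7 := Real.exp_one_gt_d9
    have h6 : Real.exp 2 = Real.exp 1 * Real.exp 1 := by rw [← Real.exp_add]; norm_num
    rw [h6]
    nlinarith
  have h6 : (2 : ℝ) ^ (B * J) ≤ Real.exp (B * J) := by
    rw [Real.rpow_def_of_pos (by norm_num)]
    refine Real.exp_le_exp.2 ?_
    have := Real.log_two_lt_d9
    have h8 : 0 ≤ B * (J : ℝ) := by positivity
    nlinarith
  refine h3.trans ?_
  calc (5 : ℝ) * 2 ^ (B * J) ≤ Real.exp 2 * Real.exp (B * J) :=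
        mul_le_mul h5 h6 (by positivity) (Real.exp_pos _).le
    _ = Real.exp (2 + B * J) := by rw [Real.exp_add]
    _ ≤ Real.exp (M * J) := by
        refine Real.exp_le_exp.2 ?_
        have h9 := mul_le_mul_of_nonneg_right hM hJ0
        rw [hB]
        nlinarith

end

end Pool.NA97
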