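import Pool.Agent.H97.NA.Lab

/-!
# Labels with natural own paths

`LbD`: the labels of a chain and of its target over the charts of a window, the own jets of natural
size. `hh_nat`: the size of the jets. `lst_P`, `pa_P`, `vp_P`, `q_P`: the codes have the property of
the classes. `few_cv`, `few_pa`: the codes of the coefficients against the jets.
-/

set_option autoImplicit false

namespace Pool.NA97

open Finset Real MvPolynomial
open Pool.Agent.H49.Ent Pool.Agent.H32.Dense Pool.STK Pool.KA Pool.KSAT Pool.K2S Pool.PB Pool.GEN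
open Pool.S6C Pool.RCD Pool.LA91 Pool.OWN68 Pool.LPJ30 Pool.LP30 Pool.RJ28
open Pool.AVG57 (upw upw_slam)
open Pool.AVG5 (jt jt_dif co_sub of_fl CH_near fl_mul)
open Pool.GRD (LbP)
open Pool.BFL (Pb)
open Pool.PB.Trl (rt rt_mem)
open Pool.STR16 (rho rho_mem)
open Pool.T4E (vtf)

variable {m J : ℕ}

/-- **Labels of a chain and of its target** over the charts of the window `b`, the own jets of
natural size. -/
structure LbD (F : Fam m J) (c : ℕ → Fin m) (sn : ℕ → ℝ → ℝ) (d K₀ : ℕ) (b e e' : ℝ)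
    (B : F.Ω → Prop) {V : Type} (z : PtT F → V) (z' : LnT F → V)
    (g : V → ℕ → MvPolynomial (Option (Fin m)) ℝ) : Prop where
  lb : ∀ l ≤ d, LbP F ((range l).image c) (c l) K₀ J ⌊b * J⌋₊ ⌊(sn l b - e) * J⌋₊ B z z'
    (fun v => g v l)
  sz : ∀ l ≤ d, ∀ j, ∀ ω, B ω → |ojet F (c l) j (g (z' (slam F ⌊b * J⌋₊ ω)) l) ω| ≤
    2 ^ ((e' + j * b) * J) * (1 / 2 ^ ⌊(sn l b - e) * J⌋₊)

variable {F : Fam m J} {c : ℕ → Fin m} {sn : ℕ → ℝ → ℝ} {d K₀ : ℕ} {b e e' : ℝ}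
  {B : F.Ω → Prop} {V : Type} {z : PtT F → V} {z' : LnT F → V}
  {g : V → ℕ → MvPolynomial (Option (Fin m)) ℝ}

theorem LbD.sub {B' : F.Ω → Prop} (h : LbD F c sn d K₀ b e e' B z z' g) (hB : Sub B' B) :
    LbD F c sn d K₀ b e e' B' z z' g :=
  ⟨fun l hl => (h.lb l hl).sub hB, fun l hl j ω hω => h.sz l hl j ω (hB ω hω)⟩

/-- One code. -/
theorem LbD.one (h : LbD F c sn d K₀ b e e' B z z' g) (hJ : 1 ≤ J) {Kc : ℕ} (hK : K₀ ≤ Kc)
    {l : ℕ} (hl : l ≤ d) (j : ℕ) {N : ℝ} (hN : |N| + |e' + j * b| + 2 ≤ Kc) :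
    (qJet m ((range l).image c) (c l) j b (sn l b) N).P Kc e J F B
      (fun ω => ⌊(2 : ℝ) ^ (N * J) * ojet F (c l) j (g (z' (slam F ⌊b * J⌋₊ ω)) l) ω⌋) := by
  refine ⟨?_, V, z, z', fun v => g v l, (h.lb l hl).mono (Finset.Subset.refl _) hK le_rfl,
    fun _ _ => rfl⟩
  refine cnt_code (x := fun ω => ojet F (c l) j (g (z' (slam F ⌊b * J⌋₊ ω)) l) ω) hJ
    (X := e' + j * b) (fun ω hω => ?_) hN
  refine (h.sz l hl j ω hω).trans ?_
  have h1 : (1 : ℝ) / 2 ^ ⌊(sn l b - e) * J⌋₊ ≤ 1 := by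
    rw [div_le_one (by positivity)]
    exact one_le_pow₀ (by norm_num)
  exact mul_le_of_le_one_right (by positivity) h1

/-- The list. -/
theorem LbD.lst (h : LbD F c sn d K₀ b e e' B z z' g) (hJ : 1 ≤ J) {Kc : ℕ} (hK : K₀ ≤ Kc)
    {W : ℕ} (hb : ⌊b * J⌋₊ ≤ W) (hW : W ≤ J) (j n : ℕ) (o : ℝ)
    (hN : ∀ i < n, |sn d o - ((j + i : ℕ) : ℝ) * o| + |e' + ((j + i : ℕ) : ℝ) * b| + 2 ≤ Kc) :
    (jtR m c d (fun _ : Fin n => c d) (fun i => odv j i) (fun _ w => sn d w) b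
      (fun i => sn d o - (odv j i : ℕ) * o)).P Kc e J F B
      (lst (Pp F c ⌊b * J⌋₊ W z' g d) W j n (sg J W (sn d o) o)) := by
  intro i
  have h1 := h.one hJ hK le_rfl (j + i) (hN i i.2)
  have e1 : (fun ω => NA97.lst (Pp F c ⌊b * J⌋₊ W z' g d) W j n (sg J W (sn d o) o) ω i) =
      fun ω => ⌊(2 : ℝ) ^ ((sn d o - ((j + i : ℕ) : ℝ) * o) * J) *
        ojet F (c d) (j + i) (g (z' (slam F ⌊b * J⌋₊ ω)) d) ω⌋ := by
    funext ω
    unfold NA97.lst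
    rw [sg_hh hb hW]
  rw [e1]
  exact h1

/-- The near path. -/
noncomputable def paC (F : Fam m J) (c : ℕ → Fin m) (d : ℕ) (b : ℝ) (nH nV : ℕ → ℝ) {V : Type}
    (z' : LnT F → V) (g : V → ℕ → MvPolynomial (Option (Fin m)) ℝ) (ω : F.Ω) (l j : ℕ) : ℤ :=
  if l < d ∧ j ≤ 1 then ⌊(2 : ℝ) ^ ((if j = 0 then nH l else nV l) * J) *
    ojet F (c l) j (g (z' (slam F ⌊b * J⌋₊ ω)) l) ω⌋ else 0

theorem LbD.pa (h : LbD F c sn d K₀ b e e' B z z' g) (hJ : 1 ≤ J) {Kc : ℕ} (hK : K₀ ≤ Kc)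
    {nH nV : ℕ → ℝ} (hN : ∀ l < d, ∀ j : ℕ, j ≤ 1 →
      |(if j = 0 then nH l else nV l)| + |e' + (j : ℝ) * b| + 2 ≤ Kc) :
    (paQ m c d b (fun l => sn l b) nH nV).P Kc e J F B (paC F c d b nH nV z' g) := by
  refine ⟨fun l _ hl j hj => ?_, fun ω _ l j hn => ?_⟩
  · have h1 := h.one hJ hK hl.le j (hN l hl j hj)
    have e1 : (fun ω => paC F c d b nH nV z' g ω l j) = fun ω =>
        ⌊(2 : ℝ) ^ ((if j = 0 then nH l else nV l) * J) *
          ojet F (c l) j (g (z' (slam F ⌊b * J⌋₊ ω)) l) ω⌋ := by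
      funext ω
      unfold paC
      rw [if_pos ⟨hl, hj⟩]
    rw [e1]
    exact h1
  · unfold paC
    exact if_neg fun h1 => hn ⟨Nat.zero_le _, h1.1, h1.2⟩

/-- All jets of the near path up to the order `D'`. -/
noncomputable def vpC (F : Fam m J) (c : ℕ → Fin m) (d : ℕ) (b : ℝ) (nC : ℕ → ℝ) (D' : ℕ) {V : Type}
    (z' : LnT F → V) (g : V → ℕ → MvPolynomial (Option (Fin m)) ℝ) (ω : F.Ω) (l j : ℕ) : ℤ :=
  if l < d ∧ j ≤ D' then ⌊(2 : ℝ) ^ ((nC l - (j : ℕ) * b) * J) *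
    ojet F (c l) j (g (z' (slam F ⌊b * J⌋₊ ω)) l) ω⌋ else 0

theorem LbD.vp (h : LbD F c sn d K₀ b e e' B z z' g) (hJ : 1 ≤ J) {Kc : ℕ} (hK : K₀ ≤ Kc)
    {lv : ℕ → ℝ} {σ : ℝ} {D' : ℕ} (hN : ∀ l < d, ∀ j ≤ D',
      |sn l b + lv l + σ - (j : ℕ) * b| + |e' + (j : ℝ) * b| + 2 ≤ Kc) :
    (vpQ m c sn lv σ b d D').P Kc e J F B
      (vpC F c d b (fun l => sn l b + lv l + σ) D' z' g) := by
  refine ⟨fun l _ hl j hj => ?_, fun ω _ l j hn => ?_⟩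
  · have h1 := h.one hJ hK hl.le j (hN l hl j hj)
    have e1 : (fun ω => vpC F c d b (fun l => sn l b + lv l + σ) D' z' g ω l j) = fun ω =>
        ⌊(2 : ℝ) ^ ((sn l b + lv l + σ - (j : ℕ) * b) * J) *
          ojet F (c l) j (g (z' (slam F ⌊b * J⌋₊ ω)) l) ω⌋ := by
      funext ω
      unfold vpC
      rw [if_pos ⟨hl, hj⟩]
    rw [e1]
    exact h1
  · unfold vpC
    exact if_neg fun h1 => hn ⟨Nat.zero_le _, h1.1, h1.2⟩

/-- The jets of the second kind. -/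
noncomputable def qC (F : Fam m J) (c : ℕ → Fin m) (d : ℕ) (b : ℝ) {n' : ℕ} (oB : Fin n' → ℕ)
    (nB : Fin n' → ℝ) {V : Type}
    (z' : LnT F → V) (g : V → ℕ → MvPolynomial (Option (Fin m)) ℝ) (ω : F.Ω) (i : Fin n') : ℤ :=
  ⌊(2 : ℝ) ^ (nB i * J) * ojet F (c d) (oB i) (g (z' (slam F ⌊b * J⌋₊ ω)) d) ω⌋

theorem LbD.q (h : LbD F c sn d K₀ b e e' B z z' g) (hJ : 1 ≤ J) {Kc : ℕ} (hK : K₀ ≤ Kc)
    {n' : ℕ} {oB : Fin n' → ℕ} {nB : Fin n' → ℝ}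
    (hN : ∀ i, |nB i| + |e' + (oB i : ℝ) * b| + 2 ≤ Kc) :
    (jtR m c d (fun _ : Fin n' => c d) oB (fun _ w => sn d w) b nB).P Kc e J F B
      (qC F c d b oB nB z' g) := fun i => h.one hJ hK le_rfl (oB i) (hN i)

/-! ### Resolutions -/

/-- **The size of the jets** at the time of a later window. -/
theorem LbD.nat (h : LbD F c sn d K₀ b e e' B z z' g) {W : ℕ} (hb : ⌊b * J⌋₊ ≤ W) (hW : W ≤ J)
    {v : ℝ} (hv : v * J ≤ (W : ℝ) + 1) {l : ℕ} (hl : l ≤ d) (k : ℕ) {ω : F.Ω} (hω : B ω) :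
    |hh (Pp F c ⌊b * J⌋₊ W z' g l) W k ω| ≤
      2 ^ (k + 1) * 2 ^ (-((sn l b + k * (v - b) - e - e') * J)) := by
  rw [hh_Pp hb hW]
  have h1 := h.sz l hl k ω hω
  have h3 := ip2_le ((sn l b - e) * J)
  have hf1 : (1 : ℝ) ≤ (k.factorial : ℝ) := by
    exact_mod_cast Nat.one_le_iff_ne_zero.2 (Nat.factorial_ne_zero k)
  have p1 : (0 : ℝ) < (k.factorial : ℝ) * (2 ^ W) ^ k := by positivity
  rw [abs_div, abs_of_pos p1, div_le_iff₀ p1]
  have e1 : ((2 : ℝ) ^ W) ^ k = 2 ^ ((W : ℝ) * k) := by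
    rw [← pow_mul, ← Real.rpow_natCast]
    push_cast
    rfl
  have e2 : (2 : ℝ) ^ ((e' + k * b) * J) * (2 * 2 ^ (-((sn l b - e) * J))) =
      2 ^ ((e' + k * b) * J + (1 + -((sn l b - e) * J))) := by
    rw [Real.rpow_add (by norm_num), Real.rpow_add (by norm_num), Real.rpow_one]
  have e3 : (2 : ℝ) ^ (k + 1) * 2 ^ (-((sn l b + k * (v - b) - e - e') * J)) * (2 ^ W) ^ k =
      2 ^ (((k + 1 : ℕ) : ℝ) + -((sn l b + k * (v - b) - e - e') * J) + W * k) := by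
    rw [Real.rpow_add (by norm_num), Real.rpow_add (by norm_num), Real.rpow_natCast, e1]
  have h5 : v * J * k ≤ ((W : ℝ) + 1) * k := mul_le_mul_of_nonneg_right hv (Nat.cast_nonneg _)
  have h4 : (2 : ℝ) ^ ((e' + k * b) * J) * (2 * 2 ^ (-((sn l b - e) * J))) ≤
      2 ^ (k + 1) * 2 ^ (-((sn l b + k * (v - b) - e - e') * J)) * (2 ^ W) ^ k := by
    rw [e2, e3]
    refine Real.rpow_le_rpow_of_exponent_le (by norm_num) ?_
    push_cast
    nlinarith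
  calc |ojet F (c l) k (g (z' (slam F ⌊b * J⌋₊ ω)) l) ω|
      ≤ 2 ^ ((e' + k * b) * J) * (1 / 2 ^ ⌊(sn l b - e) * J⌋₊) := h1
    _ ≤ 2 ^ ((e' + k * b) * J) * (2 * 2 ^ (-((sn l b - e) * J))) :=
        mul_le_mul_of_nonneg_left h3 (by positivity)
    _ ≤ 2 ^ (k + 1) * 2 ^ (-((sn l b + k * (v - b) - e - e') * J)) * (2 ^ W) ^ k := h4
    _ ≤ 2 ^ (k + 1) * 2 ^ (-((sn l b + k * (v - b) - e - e') * J)) *
          ((k.factorial : ℝ) * (2 ^ W) ^ k) := by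
        refine mul_le_mul_of_nonneg_left ?_ (by positivity)
        exact le_mul_of_one_le_left (by positivity) hf1

/-- A jet of natural size is known. -/
theorem LbD.rsn (h : LbD F c sn d K₀ b e e' B z z' g) {W : ℕ} (hb : ⌊b * J⌋₊ ≤ W) (hW : W ≤ J)
    {v : ℝ} (hv : v * J ≤ (W : ℝ) + 1) {l : ℕ} (hl : l ≤ d) (k : ℕ) {ν : F.Ω → ℝ}
    (hν : ∀ ω, 0 < ν ω → B ω) {𝒵 : Type} (Z : F.Ω → 𝒵) {θ : ℝ}
    (hθ : θ ≤ sn l b + k * (v - b) - e - e') :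
    Rs ν Z (hh (Pp F c ⌊b * J⌋₊ W z' g l) W k) (2 ^ (k + 2) * 2 ^ (-(θ * J))) := by
  intro ω ω' a a' _
  have h1 := h.nat hb hW hv hl k (hν ω a)
  have h2 := h.nat hb hW hv hl k (hν ω' a')
  have h3 : (2 : ℝ) ^ (-((sn l b + k * (v - b) - e - e') * J)) ≤ 2 ^ (-(θ * J)) := by
    refine Real.rpow_le_rpow_of_exponent_le (by norm_num) ?_
    have := mul_le_mul_of_nonneg_right hθ (Nat.cast_nonneg (α := ℝ) J)
    linarith
  have h4 : (2 : ℝ) ^ (k + 1) * 2 ^ (-((sn l b + k * (v - b) - e - e') * J)) ≤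
      2 ^ (k + 1) * 2 ^ (-(θ * J)) := mul_le_mul_of_nonneg_left h3 (by positivity)
  refine (abs_sub _ _).trans ?_
  have e1 : (2 : ℝ) ^ (k + 2) * 2 ^ (-(θ * J)) = 2 ^ (k + 1) * 2 ^ (-(θ * J)) +
      2 ^ (k + 1) * 2 ^ (-(θ * J)) := by
    rw [pow_succ]
    ring
  linarith

/-- A jet with a code is known. -/
theorem rs_code {W : ℕ} (hb : ⌊b * J⌋₊ ≤ W) (hW : W ≤ J) {v : ℝ} (hv : v * J ≤ (W : ℝ) + 1)
    {l k : ℕ} {ν : F.Ω → ℝ} {𝒵 : Type} {Z : F.Ω → 𝒵} {T o θ : ℝ}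
    (hZ : Det ν Z (fun ω => ⌊(2 : ℝ) ^ ((T - k * o) * J) *
      ojet F (c l) k (g (z' (slam F ⌊b * J⌋₊ ω)) l) ω⌋)) (hθ : θ ≤ T - k * (o - v)) :
    Rs ν Z (hh (Pp F c ⌊b * J⌋₊ W z' g l) W k) (2 ^ k * 2 ^ (-(θ * J))) := by
  have h1 : Det ν Z (fun ω => ⌊sg J W T o k * hh (Pp F c ⌊b * J⌋₊ W z' g l) W k ω⌋) := by
    intro ω ω' a a' e
    have := hZ ω ω' a a' e
    simp only [sg_hh hb hW]
    exact this
  refine (rs_fl (sg_pos J W T o k) h1).le ?_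
  have h2 := le_sg (J := J) (W := W) hv hθ
  rw [div_le_iff₀ (sg_pos J W T o k)]
  have e1 : (2 : ℝ) ^ (-(θ * J)) * 2 ^ (θ * J) = 1 := by
    rw [← Real.rpow_add (by norm_num), neg_add_cancel, Real.rpow_zero]
  have h3 : (2 : ℝ) ^ (-(θ * J)) * 2 ^ (θ * J) ≤ 2 ^ (-(θ * J)) * (2 ^ k * sg J W T o k) :=
    mul_le_mul_of_nonneg_left h2 (by positivity)
  rw [e1] at h3
  linarith

/-! ### The codes of the coefficients of the near path -/

/-- The codes of the coefficients of the near path at the beginning of the window. -/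
noncomputable def cvC (F : Fam m J) (c : ℕ → Fin m) (d bJ W D : ℕ) (b v : ℝ) (nC : ℕ → ℝ) {V : Type}
    (z' : LnT F → V) (g : V → ℕ → MvPolynomial (Option (Fin m)) ℝ) (x : LnT F) (l : Fin d)
    (k : Fin (D + 1)) : ℤ :=
  ⌊(2 : ℝ) ^ ((if (k : ℕ) = 0 then nC l else nC l + (v - b)) * J) *
    (Pp F c bJ W z' g l x).coeff k⌋

/-- The constant. -/
noncomputable def cD (D : ℕ) : ℝ := 2 ^ (D + 1) * (2 ^ (D + 1) * 2 ^ (D + 2))

theorem cD_pos (D : ℕ) : 0 < cD D := by unfold cD; positivity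

variable {W : ℕ} {v : ℝ} {ν : F.Ω → ℝ} {𝒵 : Type} {Z : F.Ω → 𝒵} {nC : ℕ → ℝ} {j₀ : ℕ}

theorem LbD.rs_cv (h : LbD F c sn d K₀ b e e' B z z' g) (hb : ⌊b * J⌋₊ ≤ W) (hW : W ≤ J)
    (hv : v * J ≤ (W : ℝ) + 1) (hbv : b ≤ v) (hν : ∀ ω, 0 < ν ω → B ω) (hT : Det ν Z F.T)
    (hZ : Det ν Z (vpC F c d b nC j₀ z' g))
    (hj0 : ∀ l < d, nC l + (v - b) ≤ sn l b + ((j₀ : ℝ) + 1) * (v - b) - e - e')
    {l : ℕ} (hl : l < d) (k : ℕ) :
    Rs ν Z (cf (Pp F c ⌊b * J⌋₊ W z' g l) W k)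
      (cD (K₀ + 1) * 2 ^ (-((if k = 0 then nC l else nC l + (v - b)) * J))) := by
  obtain ⟨θ, hθ⟩ : ∃ θ, θ = (if k = 0 then nC l else nC l + (v - b)) := ⟨_, rfl⟩
  rw [← hθ]
  have hdg : ∀ x, (Pp F c ⌊b * J⌋₊ W z' g l x).natDegree ≤ K₀ + 1 :=
    fun x => deg_Pp (h.lb l hl.le).deg x
  have hθ1 : θ ≤ nC l + (v - b) := by
    rw [hθ]
    split_ifs <;> linarith
  have hvb : 0 ≤ v - b := by linarith
  have key := rs_cf (p := ν) (W := W) (Z := Z) (D := K₀ + 1) hdg hT (k := k) (M := K₀ + 1)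
    (δ := 2 ^ (K₀ + 1 + 2) * 2 ^ (-(θ * J))) (by positivity) (fun i hi hi' => ?_)
    (fun i _ hi' hiD => absurd hiD (by omega))
  · refine key.le (le_of_eq ?_)
    unfold cD
    ring
  · have p2 : ∀ a : ℕ, a ≤ K₀ + 1 + 2 → (2 : ℝ) ^ a ≤ 2 ^ (K₀ + 1 + 2) := fun a ha =>
      pow_le_pow_right₀ (by norm_num) ha
    rcases Nat.lt_or_ge j₀ i with hji | hji
    · refine (h.rsn hb hW hv hl.le i hν Z (θ := θ) ?_).le
        (mul_le_mul_of_nonneg_right (p2 _ (by omega)) (by positivity))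
      have h1 := hj0 l hl
      have h2 : ((j₀ : ℝ) + 1) ≤ i := by exact_mod_cast hji
      have h3 := mul_le_mul_of_nonneg_right h2 hvb
      linarith
    · refine (rs_code (T := nC l) (o := b) hb hW hv (fun ω ω' a a' e => ?_) ?_).le
        (mul_le_mul_of_nonneg_right (p2 _ (by omega)) (by positivity))
      · have h1 := congrFun (congrFun (hZ ω ω' a a' e) l) i
        unfold vpC at h1
        rw [if_pos ⟨hl, hji⟩, if_pos ⟨hl, hji⟩] at h1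
        exact h1
      · rcases Nat.eq_zero_or_pos k with hk | hk
        · rw [if_pos hk] at hθ
          have h3 : 0 ≤ (i : ℝ) * (v - b) := mul_nonneg (Nat.cast_nonneg _) hvb
          linarith
        · rw [if_neg (by omega)] at hθ
          have h2 : (1 : ℝ) ≤ i := by exact_mod_cast (by omega : 1 ≤ i)
          have h3 := mul_le_mul_of_nonneg_right h2 hvb
          linarith

/-- The codes of the coefficients given the jets. -/
theorem LbD.few_cv (h : LbD F c sn d K₀ b e e' B z z' g) (hb : ⌊b * J⌋₊ ≤ W) (hW : W ≤ J)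
    (hv : v * J ≤ (W : ℝ) + 1) (hbv : b ≤ v) (hlaw : IsLaw ν) (hν : ∀ ω, 0 < ν ω → B ω)
    (hT : Det ν Z F.T) (hZ : Det ν Z (vpC F c d b nC j₀ z' g))
    (hj0 : ∀ l < d, nC l + (v - b) ≤ sn l b + ((j₀ : ℝ) + 1) * (v - b) - e - e') :
    CH ν (fun ω => cvC F c d ⌊b * J⌋₊ W (K₀ + 1) b v nC z' g (slam F W ω)) Z ≤
      (d : ℝ) * ((K₀ : ℝ) + 2) * Real.log (2 * (cD (K₀ + 1) + 1) + 1) := by
  have h2 := CH_near hlaw (fun ω (i : Fin d × Fin (K₀ + 1 + 1)) =>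
    cvC F c d ⌊b * J⌋₊ W (K₀ + 1) b v nC z' g (slam F W ω) i.1 i.2) Z
    (D := cD (K₀ + 1) + 1) (by have := cD_pos (K₀ + 1); linarith) fun ω ω' a a' e i => ?_
  · refine (CH_mono_left hlaw.nonneg fun ω ω' _ _ hh => ?_).trans (h2.trans (le_of_eq ?_))
    · funext l k
      exact congrFun (Prod.ext_iff.mp hh).1 (l, k)
    · rw [Fintype.card_prod, Fintype.card_fin, Fintype.card_fin]
      push_cast
      ring
  · have h3 := h.rs_cv hb hW hv hbv hν hT hZ hj0 i.1.2 i.2 ω ω' a a' e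
    unfold cvC
    refine (fl_mul (by positivity) h3).trans ?_
    obtain ⟨θ, hθ⟩ : ∃ θ, θ = (if ((i.2 : ℕ)) = 0 then nC i.1 else nC i.1 + (v - b)) := ⟨_, rfl⟩
    rw [← hθ]
    have e1 : (2 : ℝ) ^ (θ * J) * 2 ^ (-(θ * J)) = 1 := by
      rw [← Real.rpow_add (by norm_num), add_neg_cancel, Real.rpow_zero]
    have e2 : (2 : ℝ) ^ (θ * J) * (cD (K₀ + 1) * 2 ^ (-(θ * J))) = cD (K₀ + 1) := by
      rw [mul_left_comm, e1, mul_one]
    rw [e2]

/-- The near path given the codes of the coefficients. -/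
theorem LbD.few_pa (h : LbD F c sn d K₀ b e e' B z z' g) (hb : ⌊b * J⌋₊ ≤ W) (hW : W ≤ J)
    (hWv : (W : ℝ) ≤ v * J) (hbv : b ≤ v) (hlaw : IsLaw ν)
    (hT : Det ν Z F.T)
    (hZ : Det ν Z (fun ω => cvC F c d ⌊b * J⌋₊ W (K₀ + 1) b v nC z' g (slam F W ω)))
    {nH nV : ℕ → ℝ} {σ : ℝ} (hσ : 0 ≤ σ) (hH : ∀ l < d, nH l ≤ nC l + σ)
    (hV : ∀ l < d, nV l = nH l - b) :
    CH ν (paC F c d b nH nV z' g) Z ≤
      2 * (d : ℝ) * (σ * J * Real.log 2 + Real.log (2 ^ (K₀ + 6))) := by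
  obtain ⟨X, hX⟩ : ∃ X : ℝ, X = 2 ^ (K₀ + 2) * 2 ^ (σ * J) := ⟨_, rfl⟩
  have hs1 : (1 : ℝ) ≤ 2 ^ (σ * J) := Real.one_le_rpow (by norm_num) (by positivity)
  have hX1 : 1 ≤ X := by
    rw [hX]
    exact one_le_mul_of_one_le_of_one_le (one_le_pow₀ (by norm_num)) hs1
  have h2 := CH_near hlaw (fun ω (i : Fin d × Fin 2) => paC F c d b nH nV z' g ω i.1 i.2) Z
    (D := X + 1) (by linarith) fun ω ω' a a' e i => ?_
  · refine (CH_mono_left hlaw.nonneg (X' := fun ω (i : Fin d × Fin 2) =>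
      paC F c d b nH nV z' g ω i.1 i.2) fun ω ω' _ _ hh => ?_).trans (h2.trans ?_)
    · funext l j
      by_cases hc : l < d ∧ j ≤ 1
      · exact congrFun (Prod.ext_iff.mp hh).1 (⟨l, hc.1⟩, ⟨j, by omega⟩)
      · unfold paC
        rw [if_neg hc, if_neg hc]
    · rw [Fintype.card_prod, Fintype.card_fin, Fintype.card_fin]
      have e1 : 2 * (X + 1) + 1 ≤ 2 ^ (σ * J) * 2 ^ (K₀ + 6) := by
        have e2 : (2 : ℝ) ^ (K₀ + 6) = 2 ^ (K₀ + 2) * 16 := by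
          rw [show K₀ + 6 = K₀ + 2 + 4 by omega, pow_add]
          norm_num
        have e3 : (2 : ℝ) ^ (σ * J) * 2 ^ (K₀ + 6) = 16 * X := by
          rw [e2, hX]
          ring
        linarith
      have e2 := Real.log_le_log (by linarith) e1
      rw [Real.log_mul (by positivity) (by positivity), Real.log_rpow (by norm_num)] at e2
      push_cast
      have e3 : (0 : ℝ) ≤ (d : ℝ) * 2 := by positivity
      have e4 := mul_le_mul_of_nonneg_left e2 e3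
      linarith
  · have hl : (i.1 : ℕ) < d := i.1.2
    have hj : (i.2 : ℕ) ≤ 1 := by have := i.2.2; omega
    have hdg : ∀ x, (Pp F c ⌊b * J⌋₊ W z' g i.1 x).natDegree ≤ K₀ + 1 :=
      fun x => deg_Pp (h.lb _ hl.le).deg x
    obtain ⟨θ, hθ⟩ : ∃ θ, θ = nC i.1 + ((i.2 : ℕ) : ℝ) * (v - b) := ⟨_, rfl⟩
    have hvb : 0 ≤ v - b := by linarith
    have r1 : Rs ν Z (hh (Pp F c ⌊b * J⌋₊ W z' g i.1) W i.2)
        (2 ^ (K₀ + 1 + 1) * 2 ^ (-(θ * J))) := by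
      refine rs_hh hdg hT (by positivity) fun k hk hkD => ?_
      have f1 : Rs ν Z (cf (Pp F c ⌊b * J⌋₊ W z' g i.1) W k)
          (1 / 2 ^ ((if k = 0 then nC i.1 else nC i.1 + (v - b)) * J)) := by
        refine rs_fl (by positivity) fun ω ω' a a' e => ?_
        have g1 := congrFun (congrFun (hZ ω ω' a a' e) i.1) ⟨k, by omega⟩
        exact g1
      refine f1.le ?_
      rw [one_div, ← Real.rpow_neg (by norm_num)]
      refine Real.rpow_le_rpow_of_exponent_le (by norm_num) ?_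
      have g2 : θ ≤ (if k = 0 then nC i.1 else nC i.1 + (v - b)) := by
        rw [hθ]
        split_ifs with hk0
        · have : (i.2 : ℕ) = 0 := by omega
          rw [this]
          simp
        · have g3 : ((i.2 : ℕ) : ℝ) ≤ 1 := by exact_mod_cast hj
          have g4 := mul_le_mul_of_nonneg_right g3 hvb
          linarith
      have g5 := mul_le_mul_of_nonneg_right g2 (Nat.cast_nonneg (α := ℝ) J)
      linarith
    have e1 : ∀ ω, paC F c d b nH nV z' g ω i.1 i.2 =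
        ⌊sg J W (nH i.1) b i.2 * hh (Pp F c ⌊b * J⌋₊ W z' g i.1) W i.2 ω⌋ := by
      intro ω
      unfold paC
      rw [if_pos ⟨hl, hj⟩, sg_hh hb hW]
      congr 4
      rcases Nat.eq_zero_or_pos (i.2 : ℕ) with h0 | h0
      · rw [if_pos h0, h0]
        simp
      · have h1 : (i.2 : ℕ) = 1 := by omega
        rw [if_neg (by omega), hV _ hl, h1]
        simp
    rw [e1, e1]
    refine (fl_mul (sg_pos _ _ _ _ _).le (r1 ω ω' a a' e)).trans ?_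
    have hfac : ((i.2 : ℕ).factorial : ℝ) = 1 := by
      have : (i.2 : ℕ).factorial = 1 := by
        rcases Nat.eq_zero_or_pos (i.2 : ℕ) with h0 | h0
        · rw [h0]; rfl
        · have h1 : (i.2 : ℕ) = 1 := by omega
          rw [h1]; rfl
      rw [this, Nat.cast_one]
    have f2 := sg_le (J := J) (W := W) (T := nH i.1) (o := b) (k := (i.2 : ℕ)) hWv
      (θ := θ + σ) (by
        rw [hθ]
        have := hH _ hl
        linarith)
    rw [hfac, one_mul] at f2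
    have e2 : (2 : ℝ) ^ ((θ + σ) * J) * (2 ^ (K₀ + 1 + 1) * 2 ^ (-(θ * J))) = X := by
      have e3 : (2 : ℝ) ^ ((θ + σ) * J) * 2 ^ (-(θ * J)) = 2 ^ (σ * J) := by
        rw [← Real.rpow_add (by norm_num)]
        congr 1
        ring
      rw [mul_left_comm, e3, hX]
    have f3 : sg J W (nH i.1) b i.2 * (2 ^ (K₀ + 1 + 1) * 2 ^ (-(θ * J))) ≤ X := by
      rw [← e2]
      exact mul_le_mul_of_nonneg_right f2 (by positivity)
    linarith

/-- **The coefficients of the orders more than `K'`.** -/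
theorem LbD.rs_hi (h : LbD F c sn d K₀ b e e' B z z' g) (hb : ⌊b * J⌋₊ ≤ W) (hW : W ≤ J)
    (hv : v * J ≤ (W : ℝ) + 1) (hν : ∀ ω, 0 < ν ω → B ω) (hT : Det ν Z F.T)
    {n' : ℕ} {oB : Fin n' → ℕ} {nB : Fin n' → ℝ} (hZ : Det ν Z (qC F c d b oB nB z' g))
    {K' gN : ℕ} {γ : ℝ} (hg : (2 : ℝ) ^ gN ≤ 2 ^ (γ * J))
    (hq : ∀ i, K' < i → (∃ ι, oB ι = i ∧ γ ≤ nB ι + i * v) ∨
      γ ≤ sn d b + i * (v - b) - e - e') {k : ℕ} (hk : K' < k) :
    Rs ν Z (cf (Pp F c ⌊b * J⌋₊ W z' g d) W k) (cD (K₀ + 1) / 2 ^ gN) := by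
  have hdg : ∀ x, (Pp F c ⌊b * J⌋₊ W z' g d x).natDegree ≤ K₀ + 1 :=
    fun x => deg_Pp (h.lb d le_rfl).deg x
  have h1 : (2 : ℝ) ^ (-(γ * J)) ≤ 1 / 2 ^ gN := by
    rw [Real.rpow_neg (by norm_num), ← one_div]
    exact one_div_le_one_div_of_le (by positivity) hg
  have key := rs_cf (p := ν) (W := W) (Z := Z) (D := K₀ + 1) hdg hT (k := k) (M := K₀ + 1)
    (δ := 2 ^ (K₀ + 1 + 2) * (1 / 2 ^ gN)) (by positivity) (fun i hi hi' => ?_)
    (fun i _ hi' hiD => absurd hiD (by omega))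
  · refine key.le (le_of_eq ?_)
    unfold cD
    ring
  · have p2 : ∀ a : ℕ, a ≤ K₀ + 1 + 2 → (2 : ℝ) ^ a ≤ 2 ^ (K₀ + 1 + 2) := fun a ha =>
      pow_le_pow_right₀ (by norm_num) ha
    rcases hq i (by omega) with ⟨ι, hι, h2⟩ | h2
    · refine (rs_code (T := nB ι) (o := 0) hb hW hv (fun ω ω' a a' e => ?_) ?_).le
        (mul_le_mul (p2 _ (by omega)) h1 (by positivity) (by positivity))
      · have h3 := congrFun (hZ ω ω' a a' e) ι
        unfold qC at h3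
        rw [hι] at h3
        simpa using h3
      · linarith
    · exact (h.rsn hb hW hv le_rfl i hν Z (θ := γ) h2).le
        (mul_le_mul (p2 _ (by omega)) h1 (by positivity) (by positivity))

end Pool.NA97
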