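import Pool.Agent.H97.NA.Scl
import Pool.Agent.H28.RK.Pkg
import Pool.Agent.H44.V0F.Vcl

/-!
# The fullness of the lower order: one member of the class

`VfB`: the numbers of the windows. `Qn`: the number of a list at two windows. `vf_mem`: the
inequality for one member.
-/

set_option autoImplicit false

namespace Pool.NA97

open Finset Real MvPolynomial
open Pool.Agent.H49.Ent Pool.Agent.H32.Dense Pool.STK Pool.KA Pool.KSAT Pool.K2S Pool.PB Pool.GEN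
open Pool.S6C Pool.RCD Pool.LA91 Pool.OWN68 Pool.LPJ30 Pool.LP30 Pool.RJ28
open Pool.AVG57 (upw upw_slam)
open Pool.AVG5 (jt jt_dif co_sub of_fl CH_near fl_mul)
open Pool.GRD (LbP)
open Pool.BFL (Pb)
open Pool.RV28 (SdI)
open Pool.PB.Trl (rt rt_mem)
open Pool.STR16 (rho rho_mem Kp)
open Pool.T4E (vtf)

variable {m : ℕ}

/-- **The numbers of the windows.** -/
structure VfB (sn : ℕ → ℝ → ℝ) (d K K' s j₀ : ℕ) {n' : ℕ} (oB : Fin n' → ℕ) (nB : Fin n' → ℝ)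
    (lv : ℕ → ℝ) (σ₀ b v x₃ x y o o' o'' O Bm μ γ Λ η₂ e₁ : ℝ) : Prop where
  sK : s < K
  KK : K ≤ K'
  b0 : 0 ≤ b
  bv : b ≤ v
  v3 : v ≤ x₃
  x3 : x₃ ≤ x
  xy : x ≤ y
  yv : y = v + μ
  yp : y ≤ o'
  po : o' ≤ o
  yr : y ≤ o''
  yO : y ≤ O
  om : o ≤ Bm
  rm : o'' ≤ Bm
  Om : O ≤ Bm
  y1 : y < 1
  hγ : γ = sn d y - ((K : ℝ) - 1) * μ
  γ0 : 0 ≤ γ
  o3 : ∀ k : ℕ, K ≤ k → k ≤ K' → sn d y - k * y ≤ sn d o - k * o
  o4 : γ ≤ sn d o - K * (o - v)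
  O6 : ∀ k : ℕ, K < k → k ≤ K' → γ ≤ sn d O - k * (O - v)
  p2 : sn d o' - K * (o' - v) ≤ γ
  r2 : sn d o'' - K * (o'' - v) ≤ γ - μ + η₂
  u1 : sn d x₃ - s * (x₃ - v) ≤ γ - μ
  u2 : sn d x - ((s : ℝ) + 1) * (x - v) ≤ γ - μ
  u3 : ∀ k : ℕ, s ≤ k → k ≤ K' → sn d x₃ - k * x₃ ≤ sn d x - k * x
  Λ0 : 0 ≤ Λ
  Λx : γ - Λ ≤ sn d x - s * (x - v)
  η0 : 0 < η₂
  ημ : η₂ ≤ μ
  σ0 : 0 < σ₀
  j0 : ∀ l < d, sn l b + lv l + σ₀ / 2 + (v - b) ≤ sn l b + ((j₀ : ℝ) + 1) * (v - b) - 2 * e₁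
  hi : ∀ i : ℕ, K' < i → (∃ ι, oB ι = i ∧ γ ≤ nB ι + i * v) ∨ γ ≤ sn d b + i * (v - b) - 2 * e₁

section

variable {S : PCl m} {γ₀ : ∀ J : ℕ, Fam m J → Type}
  {y₀ : ∀ (J : ℕ) (F : Fam m J), F.Ω → γ₀ J F} {c : ℕ → Fin m} {d K' : ℕ} {n' : ℕ}
  {oB : Fin n' → ℕ} {sn : ℕ → ℝ → ℝ} {nH nV : ℕ → ℝ} {nB : Fin n' → ℝ} {b κ : ℝ} {φ : ℕ → ℝ}

/-- **The number of a list** at two windows, one member. -/
def Qn (y₀ : ∀ (J : ℕ) (F : Fam m J), F.Ω → γ₀ J F) (c : ℕ → Fin m) (d K' : ℕ) {n' : ℕ}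
    (oB : Fin n' → ℕ) (sn : ℕ → ℝ → ℝ) (nH nV : ℕ → ℝ) (nB : Fin n' → ℝ) (b κ : ℝ) (φ : ℕ → ℝ)
    (κ₁ e₀ : ℝ) (Kc : ℕ) {J : ℕ} (F : Fam m J) (A : F.Ω → Prop) (t : ℕ × ℝ × ℝ) : Prop :=
  ∀ (V : Type) (z : F.Ω → V), Mx (fun J F => ptr F J) (vg t.2.1) κ₁ F A z →
    ∀ u q pa, (jtR m c d (fun _ : Fin (K' + 1 - t.1) => c d) (fun i => odv t.1 i)
      (fun _ w => sn d w) b (fun i => sn d t.2.2 - (odv t.1 i : ℕ) * t.2.2)).P Kc e₀ J F A u →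
    (jtR m c d (fun _ : Fin n' => c d) oB (fun _ w => sn d w) b nB).P Kc e₀ J F A q →
    (paQ m c d b (fun l => sn l b) nH nV).P Kc e₀ J F A pa →
    (φ t.1 * (t.2.2 - t.2.1) - κ) * J ≤ CH (Pool.Agent.H49.Ent.cond F.p A True) u
      (fun ω => ((pa ω, q ω), (z ω, y₀ J F ω))) ∧
    CH (Pool.Agent.H49.Ent.cond F.p A True) u (fun ω => (pa ω, (z ω, y₀ J F ω))) ≤
      (φ t.1 * (t.2.2 - t.2.1) + κ) * J

theorem Qn.le {κ₁ κ₁' e₀ e₀' : ℝ} {Kc J : ℕ} {F : Fam m J} {A : F.Ω → Prop} {t : ℕ × ℝ × ℝ}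
    (h : Qn y₀ c d K' oB sn nH nV nB b κ φ κ₁ e₀ Kc F A t) (h1 : κ₁' ≤ κ₁) (h2 : e₀' ≤ e₀) :
    Qn y₀ c d K' oB sn nH nV nB b κ φ κ₁' e₀' Kc F A t := by
  intro V z hz u q pa hu hq hpa
  exact h V z (Mx.le' h1 hz) u q pa ((jtR _ _ _ _ _ _ _ _).mono le_rfl h2 hu)
    ((jtR _ _ _ _ _ _ _ _).mono le_rfl h2 hq) ((paQ _ _ _ _ _ _ _).mono le_rfl h2 hpa)

/-- The numbers of finitely many lists. -/
theorem qn_list (L : List (ℕ × ℝ × ℝ)) (h : ∀ t ∈ L, RtJ S y₀ c d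
      (fun _ : Fin (K' + 1 - t.1) => c d) (fun i => odv t.1 i) (fun _ : Fin n' => c d) oB sn
      (fun _ w => sn d w) (fun _ w => sn d w) nH nV nB b t.2.1 t.2.2
      (φ t.1 * (t.2.2 - t.2.1)) κ) :
    ∃ κ₁ : ℝ, 0 < κ₁ ∧ ∃ e₀ : ℝ, 0 < e₀ ∧ ∀ Kc : ℕ, Bas S (fun _ F A =>
      ∀ t ∈ L, Qn y₀ c d K' oB sn nH nV nB b κ φ κ₁ e₀ Kc F A t) := by
  induction L with
  | nil => exact ⟨1, one_pos, 1, one_pos, fun _ => ⟨1, one_pos, 0, fun J _ F A _ t ht =>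
      absurd ht (by simp)⟩⟩
  | cons t L ih =>
    obtain ⟨κ₁, hκ₁, e₁, he₁, H₁⟩ := ih fun t ht => h t (List.mem_cons_of_mem _ ht)
    obtain ⟨κ₂, hκ₂, e₂, he₂, H₂⟩ := h t List.mem_cons_self
    refine ⟨min κ₁ κ₂, lt_min hκ₁ hκ₂, min e₁ e₂, lt_min he₁ he₂, fun Kc =>
      Bas.mono 0 ((H₁ Kc).and (H₂ Kc)) ?_⟩
    rintro J - F A ⟨h1, h2⟩ t' ht'
    rcases List.mem_cons.1 ht' with rfl | ht'
    · have h3 : Qn y₀ c d K' oB sn nH nV nB b κ φ κ₂ e₂ Kc F A t' := h2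
      exact h3.le (min_le_right _ _) (min_le_right _ _)
    · exact (h1 t' ht').le (min_le_left _ _) (min_le_left _ _)

theorem cond_sup {Ω : Type} [Fintype Ω] {p : Ω → ℝ} {B : Ω → Prop} {ω : Ω}
    (h : 0 < Pool.Agent.H49.Ent.cond p B True ω) : B ω := by
  classical
  unfold Pool.Agent.H49.Ent.cond at h
  by_contra hcon
  rw [if_neg (fun h1 => hcon (of_eq_true h1))] at h
  exact lt_irrefl _ h

/-- The queries. -/
def Lq (K s : ℕ) (v x₃ x y o o' o'' O : ℝ) : List (ℕ × ℝ × ℝ) :=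
  [(K, v, o), (K, v, y), (K + 1, v, O), (K, y, o'), (s, y, y), (K + 1, y, O), (K, y, o''),
    (s, v, x), (s + 1, v, x), (s, v, x₃), (s + 1, x₃, x), (s, x₃, x₃)]

/-- The constants. -/
noncomputable def Cst (d K₀ K' : ℕ) (δ : ℝ) : ℝ :=
  2 * d * Real.log (2 ^ (K₀ + 6)) + d * ((K₀ : ℝ) + 2) * Real.log (2 * (cD (K₀ + 1) + 1) + 1) +
    (4 * ((K₀ : ℝ) + 1) + 3 * K' + 9) * BB (K₀ + 1) (cS K' (K₀ + 1)) + |Real.log (6 / δ)| +
    Real.log (2 ^ (K' + 3)) + cB (Kp (K₀ + 1)) + 3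

/-- **The inequality for one member.** -/
theorem vf_mem {K K₀ s j₀ : ℕ} {lv : ℕ → ℝ} {σ₀ v x₃ x y o o' o'' O Bm μ γ Λ η₂ e₁ e e₀ κ₁ : ℝ}
    (hN : VfB sn d K K' s j₀ oB nB lv σ₀ b v x₃ x y o o' o'' O Bm μ γ Λ η₂ e₁)
    {J : ℕ} {F : Fam m J} {B₀ : F.Ω → Prop} (hJ : 1 ≤ J)
    (hnH : ∀ l < d, nH l = sn l b + lv l + σ₀) (hnV : ∀ l < d, nV l = nH l - b)
    {V : Type} {z : PtT F → V} {z' : LnT F → V} {g : V → ℕ → MvPolynomial (Option (Fin m)) ℝ}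
    (hl : LbD F c sn d K₀ b e e₁ B₀ z z' g) (he : e ≤ e₁) (he0 : e ≤ e₀) {Kc : ℕ} (hK : K₀ ≤ Kc)
    (hK1 : ∀ t ∈ Lq K s v x₃ x y o o' o'' O, ∀ i : ℕ, i ≤ K' →
      |sn d t.2.2 - (i : ℝ) * t.2.2| + |e₁ + (i : ℝ) * b| + 2 ≤ Kc)
    (hK2 : ∀ l < d, ∀ j : ℕ, j ≤ 1 → |(if j = 0 then nH l else nV l)| + |e₁ + (j : ℝ) * b| + 2 ≤ Kc)
    (hK3 : ∀ l < d, ∀ j ≤ j₀, |sn l b + lv l + σ₀ / 2 - (j : ℕ) * b| + |e₁ + (j : ℝ) * b| + 2 ≤ Kc)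
    (hK4 : ∀ i, |nB i| + |e₁ + (oB i : ℝ) * b| + 2 ≤ Kc)
    {U₁ U₂ U₃ : Type} {zv : F.Ω → U₁} {zx : F.Ω → U₂} {zy : F.Ω → U₃} {χ : LnT F → U₁}
    (hχ : ∀ ω, B₀ ω → zv ω = χ (slam F ⌊v * J⌋₊ ω))
    (hzx : ∀ ω ω', zx ω = zx ω' → zv ω = zv ω') (hzy : ∀ ω ω', zy ω = zy ω' → zv ω = zv ω')
    {R : Type} {β : F.ζ → R}
    (hy : ∀ ω ω', y₀ J F ω = y₀ J F ω' ↔ F.T ω = F.T ω' ∧ β (F.Z ω) = β (F.Z ω'))
    {δ η₁ E : ℝ} (hδ : 0 < δ) (hδ2 : δ ≤ 2) (hB0 : 0 < Pe F.p B₀)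
    (H : ∀ B, Sub B B₀ → δ / 2 * Pe F.p B₀ ≤ Pe F.p B →
      Mx (fun J F => ptr F J) (vg v) κ₁ F B zv ∧ Mx (fun J F => ptr F J) (vg x₃) κ₁ F B zx ∧
      Mx (fun J F => ptr F J) (vg y) κ₁ F B zy ∧
      (∀ t ∈ Lq K s v x₃ x y o o' o'' O, Qn y₀ c d K' oB sn nH nV nB b κ φ κ₁ e₀ Kc F B t) ∧
      (∀ pa vp, (paQ m c d b (fun l => sn l b) nH nV).P Kc e₀ J F B pa →
        (vpQ m c sn lv (σ₀ / 2) b d j₀).P Kc e₀ J F B vp → ∃ (V₁ : Type) (z₁ : F.Ω → V₁),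
        Cl2 (ptr F J) (vg b J F) B z₁ ∧ CH (Pool.Agent.H49.Ent.cond F.p B True) vp
          (fun ω => (pa ω, (z₁ ω, y₀ J F ω))) ≤ κ / 10 * J) ∧
      J * Real.log 2 - κ / 10 * J ≤
        CH (Pool.Agent.H49.Ent.cond F.p B True) F.T (fun ω => (F.l ω, F.Z ω)))
    (hκ₁ : κ₁ ≤ κ / 10) (hκ : 0 < κ) (hdσ : d * σ₀ ≤ κ) (hφ : φ (K + 1) = 0)
    (hφK : 5 * κ < φ K * (o'' - y)) (hE : E = φ K * (o - o') + 8 * κ) (hE0 : 8 * κ ≤ E)
    (hη₁ : 0 < η₁) (hv1 : 1 ≤ ⌊η₁ * J⌋₊) (hEv : 2 * (E * J + 3) ≤ 3 * E / η₁ * ⌊η₁ * J⌋₊)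
    (hq : ⌊η₂ * J⌋₊ + (K - s) * ⌊η₁ * J⌋₊ ≤ ⌊μ * J⌋₊)
    (hsm : δ + 3 * E / η₁ ≤ 1) (hCst : Cst d K₀ K' δ ≤ κ / 10 * J) :
    (1 - δ - 3 * E / η₁) * ((μ - η₂ - (K - s : ℕ) * η₁) * J - 1) * Real.log 2 - 3 * E * J ≤
      ((φ s - φ (s + 1)) * (x - x₃) + 8 * κ + Λ * Real.log 2) * J := by
  classical
  have hJ0 : (0 : ℝ) ≤ J := Nat.cast_nonneg J
  have hJ1 : (1 : ℝ) ≤ J := by exact_mod_cast hJ
  have hsK := hN.sK
  have hKK := hN.KK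
  have hv0 : 0 ≤ v := hN.b0.trans hN.bv
  have hμ0 : 0 ≤ μ := by linarith [hN.v3, hN.x3, hN.xy, hN.yv]
  have hv1' : v < 1 := by linarith [hN.v3, hN.x3, hN.xy, hN.y1]
  have hbv := hN.bv
  obtain ⟨W, hW⟩ : ∃ W, W = ⌊v * J⌋₊ := ⟨_, rfl⟩
  obtain ⟨gN, hgN⟩ : ∃ gN, gN = ⌊γ * J⌋₊ := ⟨_, rfl⟩
  obtain ⟨q, hqd⟩ : ∃ q, q = ⌊μ * J⌋₊ := ⟨_, rfl⟩
  obtain ⟨u, hu⟩ : ∃ u, u = ⌊η₂ * J⌋₊ := ⟨_, rfl⟩
  obtain ⟨v', hv'⟩ : ∃ v', v' = ⌊η₁ * J⌋₊ := ⟨_, rfl⟩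
  rw [← hW] at hχ
  rw [← hv'] at hv1 hEv hq
  rw [← hu, ← hqd] at hq
  have hWv : (W : ℝ) ≤ v * J := by
    rw [hW]
    exact Nat.floor_le (mul_nonneg hv0 hJ0)
  have hvW : v * J ≤ (W : ℝ) + 1 := by
    rw [hW]
    exact (Nat.lt_floor_add_one _).le
  have hWJ : W ≤ J := by
    have h1 : (W : ℝ) ≤ J := hWv.trans (by nlinarith)
    exact_mod_cast h1
  have hbW : ⌊b * J⌋₊ ≤ W := by
    rw [hW]
    exact Nat.floor_le_floor (mul_le_mul_of_nonneg_right hbv hJ0)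
  have hqJ : q ≤ J - W := by
    have h1 : (q : ℝ) ≤ μ * J := by
      rw [hqd]
      exact Nat.floor_le (mul_nonneg hμ0 hJ0)
    have h2 : ((q + W : ℕ) : ℝ) ≤ J := by
      push_cast
      have h3 : (μ + v) * J ≤ 1 * J :=
        mul_le_mul_of_nonneg_right (by linarith [hN.yv, hN.y1]) hJ0
      linarith
    have h3 : q + W ≤ J := by exact_mod_cast h2
    omega
  have hS : Scl J W gN q u v γ μ η₂ :=
    { W1 := hWv
      W2 := hvW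
      g1 := by rw [hgN]; exact (two_floor (mul_nonneg hN.γ0 hJ0)).1
      g2 := by rw [hgN]; exact (two_floor (mul_nonneg hN.γ0 hJ0)).2
      q1 := by rw [hqd]; exact (two_floor (mul_nonneg hμ0 hJ0)).1
      q2 := by rw [hqd]; exact (two_floor (mul_nonneg hμ0 hJ0)).2
      u2 := by rw [hu]; exact (two_floor (mul_nonneg hN.η0.le hJ0)).2
      uq := by omega }
  -- the letters
  obtain ⟨pa, hpa⟩ : ∃ pa, pa = paC F c d b nH nV z' g := ⟨_, rfl⟩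
  obtain ⟨qa, hqa⟩ : ∃ qa, qa = qC F c d b oB nB z' g := ⟨_, rfl⟩
  obtain ⟨Pu, hPu⟩ : ∃ P, P = Pp F c ⌊b * J⌋₊ W z' g d := ⟨_, rfl⟩
  obtain ⟨nC, hnC⟩ : ∃ nC : ℕ → ℝ, nC = fun l => sn l b + lv l + σ₀ / 2 := ⟨_, rfl⟩
  obtain ⟨vp, hvp⟩ : ∃ vp, vp = vpC F c d b nC j₀ z' g := ⟨_, rfl⟩
  obtain ⟨Cv, hCv⟩ : ∃ Cv, Cv = cvC F c d ⌊b * J⌋₊ W (K₀ + 1) b v nC z' g := ⟨_, rfl⟩
  obtain ⟨χ', hχ'⟩ : ∃ χ' : LnT F → U₁ × R, χ' = fun x => (χ x, β x.2.1) := ⟨_, rfl⟩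
  obtain ⟨zx', hzx'⟩ : ∃ zx' : F.Ω → U₂ × R, zx' = fun ω => (zx ω, β (F.Z ω)) := ⟨_, rfl⟩
  obtain ⟨zy', hzy'⟩ : ∃ zy' : F.Ω → U₃ × R, zy' = fun ω => (zy ω, β (F.Z ω)) := ⟨_, rfl⟩
  obtain ⟨D, hD⟩ : ∃ D, D = K₀ + 1 := ⟨_, rfl⟩
  have hdg : ∀ x, (Pu x).natDegree ≤ D := by
    rw [hPu, hD]
    exact fun x => deg_Pp (hl.lb d le_rfl).deg x
  -- the properties of the codes
  have hPa : ∀ B, Sub B B₀ → (paQ m c d b (fun l => sn l b) nH nV).P Kc e J F B pa := by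
    intro B hB
    rw [hpa]
    exact (hl.sub hB).pa hJ hK hK2
  have hQa : ∀ B, Sub B B₀ → (jtR m c d (fun _ : Fin n' => c d) oB (fun _ w => sn d w) b nB).P
      Kc e J F B qa := by
    intro B hB
    rw [hqa]
    exact (hl.sub hB).q hJ hK hK4
  have hVp : ∀ B, Sub B B₀ → (vpQ m c sn lv (σ₀ / 2) b d j₀).P Kc e J F B vp := by
    intro B hB
    rw [hvp, hnC]
    exact (hl.sub hB).vp hJ hK hK3
  -- the queries
  have qry : ∀ B, Sub B B₀ → δ / 2 * Pe F.p B₀ ≤ Pe F.p B →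
      ∀ t ∈ Lq K s v x₃ x y o o' o'' O, ∀ n, n = K' + 1 - t.1 → ∀ (U : Type) (zr : F.Ω → U),
      Mx (fun J F => ptr F J) (vg t.2.1) κ₁ F B zr →
      (φ t.1 * (t.2.2 - t.2.1) - κ) * J ≤ CH (Pool.Agent.H49.Ent.cond F.p B True)
        (lst Pu W t.1 n (sg J W (sn d t.2.2) t.2.2))
        (fun ω => ((pa ω, qa ω), (zr ω, y₀ J F ω))) ∧
      CH (Pool.Agent.H49.Ent.cond F.p B True) (lst Pu W t.1 n (sg J W (sn d t.2.2) t.2.2))
        (fun ω => (pa ω, (zr ω, y₀ J F ω))) ≤ (φ t.1 * (t.2.2 - t.2.1) + κ) * J := by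
    intro B hB hPB t ht n hn U zr hz
    subst hn
    have h1 := (H B hB hPB).2.2.2.1 t ht U zr hz (lst Pu W t.1 (K' + 1 - t.1)
      (sg J W (sn d t.2.2) t.2.2)) qa pa ?_
      ((jtR _ _ _ _ _ _ _ _).mono le_rfl he0 (hQa B hB))
      ((paQ _ _ _ _ _ _ _).mono le_rfl he0 (hPa B hB))
    · exact h1
    · refine (jtR _ _ _ _ _ _ _ _).mono le_rfl he0 ?_
      rw [hPu]
      exact (hl.sub hB).lst hJ hK hbW hWJ t.1 (K' + 1 - t.1) t.2.2 fun i hi =>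
        hK1 t ht (t.1 + i) (by omega)
  -- the near path
  have few4 : ∀ B, Sub B B₀ → δ / 2 * Pe F.p B₀ ≤ Pe F.p B →
      CH (Pool.Agent.H49.Ent.cond F.p B True) (fun ω => Cv (slam F W ω))
        (fun ω => ((pa ω, qa ω), (zy' ω, F.T ω))) ≤ κ / 5 * J +
        d * ((K₀ : ℝ) + 2) * Real.log (2 * (cD (K₀ + 1) + 1) + 1) := by
    intro B hB hPB
    obtain ⟨m1, m2, m3, -, m5, -⟩ := H B hB hPB
    have hPB0 : 0 < Pe F.p B := lt_of_lt_of_le (by positivity) hPB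
    have hν := isLaw_cond F.isLaw hPB0
    have h0 := hν.nonneg
    obtain ⟨V₁, z₁, hz₁, h1⟩ := m5 pa vp ((paQ _ _ _ _ _ _ _).mono le_rfl he0 (hPa B hB))
      ((vpQ _ _ _ _ _ _ _ _).mono le_rfl he0 (hVp B hB))
    have h2 := Pool.V0F.mx_before m3 (by linarith [hN.v3, hN.x3, hN.xy] : b ≤ y) hN.y1.le hz₁
    have h3 := CH_le_add h0 (fun ω => Cv (slam F W ω)) vp
      (fun ω => ((pa ω, qa ω), (zy' ω, F.T ω)))
    have h4 := CH_le_add h0 vp z₁ (fun ω => ((pa ω, qa ω), (zy' ω, F.T ω)))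
    have h5 : CH (Pool.Agent.H49.Ent.cond F.p B True) z₁
        (fun ω => ((pa ω, qa ω), (zy' ω, F.T ω))) ≤
        CH (Pool.Agent.H49.Ent.cond F.p B True) z₁ zy := by
      refine CH_mono_cond h0 fun ω ω' _ _ hh => ?_
      rw [hzy'] at hh
      simp only [Prod.mk.injEq] at hh
      exact hh.2.1.1
    have h6 : CH (Pool.Agent.H49.Ent.cond F.p B True) vp
        (fun ω => (z₁ ω, ((pa ω, qa ω), (zy' ω, F.T ω)))) ≤
        CH (Pool.Agent.H49.Ent.cond F.p B True) vp (fun ω => (pa ω, (z₁ ω, y₀ J F ω))) := by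
      refine CH_mono_cond h0 fun ω ω' _ _ hh => ?_
      rw [hzy'] at hh
      simp only [Prod.mk.injEq] at hh ⊢
      exact ⟨hh.2.1.1, hh.1, (hy ω ω').2 ⟨hh.2.2.2, hh.2.2.1.2⟩⟩
    have h7 : CH (Pool.Agent.H49.Ent.cond F.p B True) (fun ω => Cv (slam F W ω))
        (fun ω => (vp ω, ((pa ω, qa ω), (zy' ω, F.T ω)))) ≤
        (d : ℝ) * ((K₀ : ℝ) + 2) * Real.log (2 * (cD (K₀ + 1) + 1) + 1) := by
      rw [hCv]
      refine (hl.sub hB).few_cv hbW hWJ hvW hbv hν (fun ω hω => cond_sup hω)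
        (fun ω ω' _ _ hh => ?_) (fun ω ω' _ _ hh => ?_) (j₀ := j₀) fun l hld => ?_
      · simp only [Prod.mk.injEq] at hh
        exact hh.2.2.2
      · have := (Prod.ext_iff.mp hh).1
        rw [hvp] at this
        exact this
      · have := hN.j0 l hld
        rw [hnC]
        linarith
    have h8 : κ₁ * J ≤ κ / 10 * J := mul_le_mul_of_nonneg_right hκ₁ hJ0
    have h9 : κ / 5 * J = κ / 10 * J + κ / 10 * J := by ring
    linarith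
  -- the event itself
  have hB00 : Sub B₀ B₀ := fun _ h => h
  have hPB00 : δ / 2 * Pe F.p B₀ ≤ Pe F.p B₀ := by
    have : δ / 2 * Pe F.p B₀ ≤ 1 * Pe F.p B₀ :=
      mul_le_mul_of_nonneg_right (by linarith) hB0.le
    linarith
  obtain ⟨mv, mx, my, -, -, htime⟩ := H B₀ hB00 hPB00
  obtain ⟨p, hp⟩ : ∃ p, p = Pool.Agent.H49.Ent.cond F.p B₀ True := ⟨_, rfl⟩
  have hlaw : IsLaw p := by rw [hp]; exact isLaw_cond F.isLaw hB0
  have h0 := hlaw.nonneg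
  have hsup : ∀ ω, 0 < p ω → B₀ ω := fun ω hω => by
    rw [hp] at hω
    exact cond_sup hω
  have full : ((J : ℝ) - W) * Real.log 2 - κ / 10 * J ≤
      CH p (fun ω => F.T ω % 2 ^ (J - W)) (slam F W) := by
    rw [← hp] at htime
    exact Pool.T4E.full_evt hlaw hWJ htime
  -- the conditions
  have dV1 : ∀ ν : F.Ω → ℝ, (∀ ω, 0 < ν ω → B₀ ω) →
      Det ν (fun ω => (pa ω, (χ' (slam F W ω), F.T ω))) (fun ω => (pa ω, (zv ω, y₀ J F ω))) := by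
    intro ν hν ω ω' a a' hh
    rw [hχ'] at hh
    simp only [Prod.mk.injEq] at hh ⊢
    refine ⟨hh.1, ?_, (hy ω ω').2 ⟨hh.2.2, hh.2.1.2⟩⟩
    rw [hχ ω (hν ω a), hχ ω' (hν ω' a')]
    exact hh.2.1.1
  have dV2 : Det p (fun ω => ((pa ω, qa ω), (zv ω, y₀ J F ω)))
      (fun ω => (pa ω, (χ' (slam F W ω), F.T ω))) := by
    intro ω ω' a a' hh
    rw [hχ']
    simp only [Prod.mk.injEq] at hh ⊢
    obtain ⟨h1, h2⟩ := (hy ω ω').1 hh.2.2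
    refine ⟨hh.1.1, ⟨?_, h2⟩, h1⟩
    rw [← hχ ω (hsup ω a), ← hχ ω' (hsup ω' a')]
    exact hh.2.1
  have dX1 : Det p (fun ω => (pa ω, (zx' ω, F.T ω))) (fun ω => (pa ω, (zx ω, y₀ J F ω))) := by
    intro ω ω' a a' hh
    rw [hzx'] at hh
    simp only [Prod.mk.injEq] at hh ⊢
    exact ⟨hh.1, hh.2.1.1, (hy ω ω').2 ⟨hh.2.2, hh.2.1.2⟩⟩
  have dX2 : Det p (fun ω => ((pa ω, qa ω), (zx ω, y₀ J F ω)))
      (fun ω => (pa ω, (zx' ω, F.T ω))) := by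
    intro ω ω' a a' hh
    rw [hzx']
    simp only [Prod.mk.injEq] at hh ⊢
    obtain ⟨h1, h2⟩ := (hy ω ω').1 hh.2.2
    exact ⟨hh.1.1, ⟨hh.2.1, h2⟩, h1⟩
  have dY1 : ∀ ν : F.Ω → ℝ, Det ν (fun ω => ((pa ω, qa ω), (zy' ω, F.T ω)))
      (fun ω => (pa ω, (zy ω, y₀ J F ω))) := by
    intro ν ω ω' a a' hh
    rw [hzy'] at hh
    simp only [Prod.mk.injEq] at hh ⊢
    exact ⟨hh.1.1, hh.2.1.1, (hy ω ω').2 ⟨hh.2.2, hh.2.1.2⟩⟩
  have dY2 : ∀ ν : F.Ω → ℝ, Det ν (fun ω => ((pa ω, qa ω), (zy ω, y₀ J F ω)))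
      (fun ω => ((pa ω, qa ω), (zy' ω, F.T ω))) := by
    intro ν ω ω' a a' hh
    rw [hzy']
    simp only [Prod.mk.injEq] at hh ⊢
    obtain ⟨h1, h2⟩ := (hy ω ω').1 hh.2.2
    exact ⟨hh.1, ⟨hh.2.1, h2⟩, h1⟩
  have hzyχ : Det p zy' (fun ω => χ' (slam F W ω)) := by
    intro ω ω' a a' hh
    rw [hzy'] at hh
    rw [hχ']
    simp only [Prod.mk.injEq] at hh ⊢
    refine ⟨?_, hh.2⟩
    rw [← hχ ω (hsup ω a), ← hχ ω' (hsup ω' a')]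
    exact hzy ω ω' hh.1
  have hzxχ : Det p zx' (fun ω => χ' (slam F W ω)) := by
    intro ω ω' a a' hh
    rw [hzx'] at hh
    rw [hχ']
    simp only [Prod.mk.injEq] at hh ⊢
    refine ⟨?_, hh.2⟩
    rw [← hχ ω (hsup ω a), ← hχ ω' (hsup ω' a')]
    exact hzx ω ω' hh.1
  have qr : ∀ t ∈ Lq K s v x₃ x y o o' o'' O, ∀ n, n = K' + 1 - t.1 → ∀ (U : Type) (zr : F.Ω → U),
      Mx (fun J F => ptr F J) (vg t.2.1) κ₁ F B₀ zr →
      (φ t.1 * (t.2.2 - t.2.1) - κ) * J ≤ CH p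
        (lst Pu W t.1 n (sg J W (sn d t.2.2) t.2.2))
        (fun ω => ((pa ω, qa ω), (zr ω, y₀ J F ω))) ∧
      CH p (lst Pu W t.1 n (sg J W (sn d t.2.2) t.2.2))
        (fun ω => (pa ω, (zr ω, y₀ J F ω))) ≤ (φ t.1 * (t.2.2 - t.2.1) + κ) * J := by
    rw [hp]
    exact qry B₀ hB00 hPB00
  have g1 := (qr (K, v, o) (by simp [Lq]) (K' + 1 - K) rfl _ _ mv).2
  have g2 := (qr (K, v, y) (by simp [Lq]) (K' + 1 - K) rfl _ _ mv).1
  have g3 := (qr (K + 1, v, O) (by simp [Lq]) (K' - K) (by omega) _ _ mv).2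
  have l1 := (qr (K, y, o') (by simp [Lq]) (K' + 1 - K) rfl _ _ my).1
  have l2 := (qr (s, y, y) (by simp [Lq]) (K' + 1 - s) rfl _ _ my).2
  have l3 := (qr (K + 1, y, O) (by simp [Lq]) (K' - K) (by omega) _ _ my).2
  have h1 := (qr (s, v, x) (by simp [Lq]) (K' + 1 - s) rfl _ _ mv).2
  have h2 := (qr (s + 1, v, x) (by simp [Lq]) (K' - s) (by omega) _ _ mv).1
  have h3 := (qr (s, v, x₃) (by simp [Lq]) (K' + 1 - s) rfl _ _ mv).1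
  have h5 := (qr (s + 1, v, x) (by simp [Lq]) (K' - s) (by omega) _ _ mv).2
  have h6 := (qr (s + 1, x₃, x) (by simp [Lq]) (K' - s) (by omega) _ _ mx).1
  have h7 := (qr (s, x₃, x₃) (by simp [Lq]) (K' + 1 - s) rfl _ _ mx).2
  have few4p := few4 B₀ hB00 hPB00
  rw [← hp] at few4p
  dsimp only at g1 g2 g3 l1 l2 l3 h1 h2 h3 h5 h6 h7
  -- the near path
  have few0 : CH p pa (fun ω => (F.T ω, Cv (slam F W ω))) ≤
      2 * (d : ℝ) * (σ₀ / 2 * J * Real.log 2 + Real.log (2 ^ (K₀ + 6))) := by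
    rw [hpa]
    refine hl.few_pa hbW hWJ hWv hbv hlaw (nC := nC) (σ := σ₀ / 2) (fun ω ω' _ _ hh => ?_)
      (fun ω ω' _ _ hh => ?_) (by linarith [hN.σ0]) (fun l hld => ?_) hnV
    · exact (Prod.ext_iff.mp hh).1
    · have := (Prod.ext_iff.mp hh).2
      rw [hCv] at this
      exact this
    · rw [hnH l hld, hnC]
      linarith
  obtain ⟨n, hn⟩ : ∃ n, n + u + (K - s) * v' = q := ⟨q - u - (K - s) * v', by omega⟩
  have yv : y - v = μ := by linarith [hN.yv]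
  have hγ := hN.hγ
  have mono1 : ∀ {T o : ℝ} {a b' : ℕ}, a ≤ b' → v ≤ o → T - (b' : ℝ) * (o - v) ≤
      T - (a : ℝ) * (o - v) := by
    intro T o a b' h1 h2
    have h3 : (a : ℝ) ≤ b' := by exact_mod_cast h1
    have h4 := mul_le_mul_of_nonneg_right h3 (by linarith : 0 ≤ o - v)
    linarith
  have ovp : v ≤ o' := by linarith [hN.v3, hN.x3, hN.xy, hN.yp]
  have ovr : v ≤ o'' := by linarith [hN.v3, hN.x3, hN.xy, hN.yr]
  have ovx : v ≤ x := by linarith [hN.v3, hN.x3]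
  have hE1 : 0 < E := by linarith
  have hEJ : 0 ≤ E * J := mul_nonneg hE1.le hJ0
  have hκJ : 0 < κ * J := by positivity
  -- the constants
  have hBB : 0 ≤ BB D (cS K' D) := by
    have := cS_two K' D
    exact bb_nonneg D (by positivity)
  have hK'0 : (0 : ℝ) ≤ K' := Nat.cast_nonneg _
  have hd0 : (0 : ℝ) ≤ d := Nat.cast_nonneg _
  have hK00 : (0 : ℝ) ≤ K₀ := Nat.cast_nonneg _
  have hl1 : 0 ≤ Real.log ((2 : ℝ) ^ (K₀ + 6)) := Real.log_nonneg (one_le_pow₀ (by norm_num))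
  have hl2 : 0 ≤ Real.log (2 * (cD (K₀ + 1) + 1) + 1) := Real.log_nonneg (by
    have := cD_pos (K₀ + 1)
    linarith)
  have hl3 : 0 ≤ Real.log ((2 : ℝ) ^ (K' + 3)) := Real.log_nonneg (one_le_pow₀ (by norm_num))
  have hcB : 0 ≤ cB (Kp (K₀ + 1)) := by
    unfold cB
    have : 0 ≤ Real.log (8 * (Kp (K₀ + 1) : ℝ) + 7) := Real.log_nonneg (by
      have : (0 : ℝ) ≤ (Kp (K₀ + 1) : ℝ) := Nat.cast_nonneg _
      linarith)
    linarith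
  have hD' : (D : ℝ) = K₀ + 1 := by rw [hD]; push_cast; ring
  obtain ⟨X1, hX1⟩ : ∃ X1, X1 = 2 * (d : ℝ) * Real.log (2 ^ (K₀ + 6)) := ⟨_, rfl⟩
  obtain ⟨X2, hX2⟩ : ∃ X2, X2 = (d : ℝ) * ((K₀ : ℝ) + 2) *
    Real.log (2 * (cD (K₀ + 1) + 1) + 1) := ⟨_, rfl⟩
  obtain ⟨X3, hX3⟩ : ∃ X3, X3 = (4 * ((K₀ : ℝ) + 1) + 3 * K' + 9) * BB D (cS K' D) := ⟨_, rfl⟩
  have hX10 : 0 ≤ X1 := by rw [hX1]; positivity
  have hX20 : 0 ≤ X2 := by rw [hX2]; positivity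
  have hX30 : 0 ≤ X3 := by rw [hX3]; positivity
  have hC' : X1 + X2 + X3 + |Real.log (6 / δ)| + Real.log (2 ^ (K' + 3)) + cB (Kp (K₀ + 1)) + 3 ≤
      κ / 10 * J := by
    have := hCst
    unfold Cst at this
    rw [hX1, hX2, hX3, hD]
    exact this
  have hlog := Real.log_two_lt_d9
  have hlog0 : 0 < Real.log 2 := Real.log_pos one_lt_two
  have hfew0 : 2 * (d : ℝ) * (σ₀ / 2 * J * Real.log 2 + Real.log (2 ^ (K₀ + 6))) ≤ κ * J + X1 := by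
    have f1 : (d : ℝ) * σ₀ * (J * Real.log 2) ≤ κ * (J * Real.log 2) :=
      mul_le_mul_of_nonneg_right hdσ (by positivity)
    have f2 : κ * (J * Real.log 2) ≤ κ * (J * 1) :=
      mul_le_mul_of_nonneg_left (mul_le_mul_of_nonneg_left (by linarith) hJ0) hκ.le
    rw [hX1]
    nlinarith
  have EVT := vf_evt (F := F) (p := p) (W := W) (Pu := Pu) (D := D) (s := s) (K := K) (K' := K')
    (g := gN) (q := q) (C := cS K' D) (Cv := Cv) (χ := χ') (pa := pa) (qa := qa) (zx := zx')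
    (zy := zy') (e := E * J) (e₀ := κ / 10 * J) hlaw hWJ hqJ hdg hsK hKK (cS_two K' D) hzxχ hzyχ
    full few0
    (σo := sg J W (sn d o) o) (σp := sg J W (sn d o') o') (σr := sg J W (sn d o'') o'')
    (σy := sg J W (sn d y) y) (σO := sg J W (sn d O) O) (σx := sg J W (sn d x) x)
    (σ₃ := sg J W (sn d x₃) x₃) (fun k => sg_pos _ _ _ _ k) (fun k => sg_pos _ _ _ _ k)
    (fun k => sg_pos _ _ _ _ k) (fun k => sg_pos _ _ _ _ k) (fun k => sg_pos _ _ _ _ k)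
    (fun k => sg_pos _ _ _ _ k) (fun k => sg_pos _ _ _ _ k) hn (by omega)
    (fun k hk hk' => hS.L2 hk' (by
      have := mono1 (T := sn d y) (o := y) hk (by linarith)
      rw [yv] at this ⊢
      linarith))
    (fun k hk hk' => sg_mono (hN.o3 k hk hk'))
    (hS.L4 hKK hN.o4)
    (fun k hk hk' => hS.L4 hk' (hN.O6 k hk hk'))
    (fun k hk hk' => sg_mono (by
      have f1 := mono1 (T := sn d o') (o := o') hk.le ovp
      have f2 := hN.p2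
      have f3 := hN.O6 k hk hk'
      linarith))
    (hS.L1 hKK hN.p2)
    (fun k hk hk' => sg_mono (by
      have f1 := mono1 (T := sn d o'') (o := o'') hk.le ovr
      have f2 := hN.r2
      have f3 := hN.O6 k hk hk'
      have f4 := hN.ημ
      linarith))
    (hS.L3 hKK hN.r2)
    (fun k hk hk' => hS.L4 (by omega) (by
      have f1 : (k : ℝ) + 1 ≤ K := by exact_mod_cast hk'
      have f2 := mul_le_mul_of_nonneg_right f1 hμ0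
      rw [yv]
      linarith))
    (hS.L5 hKK (by
      rw [yv]
      linarith))
    (hS.L2 (by omega) hN.u1)
    (fun k hk hk' => hS.L2 hk' (by
      have f1 := mono1 (T := sn d x) (o := x) (Nat.succ_le_of_lt hk) ovx
      have f2 := hN.u2
      push_cast at f1
      linarith))
    (fun k hk hk' => sg_mono (hN.u3 k hk hk'))
    ?_
    (g1 := (CH_mono_cond h0 (dV1 p hsup)).trans g1)
    (g2 := g2.trans (CH_mono_cond h0 dV2))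
    (g3 := (CH_mono_cond h0 (dV1 p hsup)).trans g3)
    (l1 := l1.trans (CH_mono_cond h0 (dY2 p)))
    (l2 := (CH_mono_cond h0 (dY1 p)).trans l2)
    (l3 := (CH_mono_cond h0 (dY1 p)).trans l3)
    (l4 := few4p)
    hEJ ?_ ?_ hδ (μ := 3 * E / η₁) hEv ?_
    (h1 := (CH_mono_cond h0 (dV1 p hsup)).trans h1)
    (h2 := h2.trans (CH_mono_cond h0 dV2))
    (h3 := h3.trans (CH_mono_cond h0 dV2))
    (h5 := (CH_mono_cond h0 (dV1 p hsup)).trans h5)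
    (h6 := h6.trans (CH_mono_cond h0 dX2))
    (h7 := (CH_mono_cond h0 dX1).trans h7)
  · -- the conclusion
    obtain ⟨M, hM⟩ : ∃ M : ℝ, M = (n : ℝ) * Real.log 2 := ⟨_, rfl⟩
    rw [← hM] at EVT
    have hlx := hS.lx (T := sn d x) (o := x) (by omega : s ≤ K') hN.Λ0 hN.Λx
    have hn1 : (μ - η₂ - (K - s : ℕ) * η₁) * J - 1 ≤ n := by
      have f1 : μ * J ≤ (q : ℝ) + 1 := by
        rw [hqd]
        exact (Nat.lt_floor_add_one _).le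
      have f2 : (u : ℝ) ≤ η₂ * J := by
        rw [hu]
        exact Nat.floor_le (mul_nonneg hN.η0.le hJ0)
      have f3 : (v' : ℝ) ≤ η₁ * J := by
        rw [hv']
        exact Nat.floor_le (mul_nonneg hη₁.le hJ0)
      have f4 : (n : ℝ) + u + (K - s : ℕ) * v' = q := by exact_mod_cast hn
      have f5 : ((K - s : ℕ) : ℝ) * v' ≤ (K - s : ℕ) * (η₁ * J) :=
        mul_le_mul_of_nonneg_left f3 (Nat.cast_nonneg _)
      linarith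
    have hM0 : 0 ≤ M := by rw [hM]; positivity
    have hMn : ((μ - η₂ - (K - s : ℕ) * η₁) * J - 1) * Real.log 2 ≤ M := by
      rw [hM]
      exact mul_le_mul_of_nonneg_right hn1 hlog0.le
    obtain ⟨θ, hθ⟩ : ∃ θ : ℝ, θ = δ + 3 * E / η₁ := ⟨_, rfl⟩
    have hθ1 : θ ≤ 1 := by rw [hθ]; exact hsm
    have hθ0 : 0 ≤ θ := by rw [hθ]; positivity
    rw [← hθ] at EVT
    have e1 : 1 - δ - 3 * E / η₁ = 1 - θ := by rw [hθ]; ring
    rw [e1, mul_assoc]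
    have f6 : (1 - θ) * (((μ - η₂ - (K - s : ℕ) * η₁) * J - 1) * Real.log 2) ≤ (1 - θ) * M :=
      mul_le_mul_of_nonneg_left hMn (by linarith)
    have f7 : (2 * (K' : ℝ) + 2) * BB D (cS K' D) ≤ X3 := by
      rw [hX3]
      exact mul_le_mul_of_nonneg_right (by linarith) hBB
    have f8 : cB (Kp D) = cB (Kp (K₀ + 1)) := by rw [hD]
    rw [f8] at EVT
    have f9 := abs_nonneg (Real.log (6 / δ))
    linarith
  · -- the higher orders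
    intro k hk hkD
    have hcD : cD (K₀ + 1) / 2 ^ gN ≤ cS K' D / 2 ^ gN := by
      refine div_le_div_of_nonneg_right ?_ (by positivity)
      rw [hD]
      unfold cS
      have f1 : (0 : ℝ) ≤ (K'.factorial : ℝ) := Nat.cast_nonneg _
      have f2 : (0 : ℝ) ≤ 2 * 2 ^ K' := by positivity
      linarith
    refine Rs.le ?_ hcD
    rw [hPu]
    refine hl.rs_hi (ν := p) hbW hWJ hvW hsup (fun ω ω' _ _ hh => ?_) (fun ω ω' _ _ hh => ?_)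
      (γ := γ) (nB := nB) (oB := oB) hS.g1 (fun i hi => ?_) hk
    · simp only [Prod.mk.injEq] at hh
      exact hh.2.2
    · simp only [Prod.mk.injEq] at hh
      have := hh.1.2
      rw [hqa] at this
      exact this
    · rcases hN.hi i hi with h1 | h1
      · exact Or.inl h1
      · exact Or.inr (by linarith)
  · -- the error
    have f1 : κ / 10 * J ≤ E * J := mul_le_mul_of_nonneg_right (by linarith) hJ0
    exact f1
  · -- the sum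
    have f1 : E * J = φ K * (o - o') * J + 8 * (κ * J) := by
      rw [hE]
      ring
    have f2 : (4 * (D : ℝ) + 3 * K' + 9) * BB D (cS K' D) = X3 := by
      rw [hX3, hD']
    have f3 := abs_nonneg (Real.log (6 / δ))
    have f4 : κ / 10 * J = κ * J / 10 := by ring
    rw [hφ, f2, f1, ← hX2]
    rw [f4] at hC' ⊢
    have f5 : (φ K * (o - v) + κ) * J - (φ K * (y - v) - κ) * J + (0 * (O - v) + κ) * J +
        ((φ s * (y - y) + κ) * J + (0 * (O - y) + κ) * J - (φ K * (o' - y) - κ) * J) =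
        φ K * (o - o') * J + 6 * (κ * J) := by ring
    have f6 : κ / 5 * J = κ * J / 5 := by ring
    rw [f6]
    linarith
  · -- sub-events
    intro Ev hEv'
    obtain ⟨B, hBd⟩ : ∃ B : F.Ω → Prop, B = fun ω => B₀ ω ∧ Ev ω := ⟨_, rfl⟩
    have hB : Sub B B₀ := fun ω h => by
      rw [hBd] at h
      exact h.1
    have hPB : δ / 2 * Pe F.p B₀ ≤ Pe F.p B := by
      rw [hp, Pb_cond hB0 Ev, le_div_iff₀ hB0, ← hBd] at hEv'
      exact hEv'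
    have hPB0 : 0 < Pe F.p B := lt_of_lt_of_le (by positivity) hPB
    have hcc : Pool.Agent.H49.Ent.cond p Ev True = Pool.Agent.H49.Ent.cond F.p B True := by
      rw [hp, hBd]
      exact Pool.K2S.Piece.cond_inter hB0.ne'
    rw [hcc]
    have hν := isLaw_cond F.isLaw hPB0
    have ν0 := hν.nonneg
    obtain ⟨-, -, my', -, -, -⟩ := H B hB hPB
    have k1 := (qry B hB hPB (K, y, o'') (by simp [Lq]) (K' + 1 - K) rfl _ _ my').1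
    have k2 := (qry B hB hPB (s, y, y) (by simp [Lq]) (K' + 1 - s) rfl _ _ my').2
    have k3 := (qry B hB hPB (K + 1, y, O) (by simp [Lq]) (K' - K) (by omega) _ _ my').2
    have k4 := few4 B hB hPB
    dsimp only at k1 k2 k3
    refine ⟨hν, _, _, _, _, k1.trans (CH_mono_cond ν0 (dY2 _)), (CH_mono_cond ν0 (dY1 _)).trans k2,
      (CH_mono_cond ν0 (dY1 _)).trans k3, k4, ?_⟩
    rw [hφ, ← hX2]
    have f1 := le_abs_self (Real.log (6 / δ))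
    have f2 : (4 * (D : ℝ) + 6 + K') * BB D (cS K' D) ≤ X3 := by
      rw [hX3]
      exact mul_le_mul_of_nonneg_right (by rw [hD']; linarith) hBB
    have f3 : 5 * κ * J < φ K * (o'' - y) * J :=
      mul_lt_mul_of_pos_right hφK (by linarith)
    have f4 : κ / 10 * J = κ * J / 10 := by ring
    have f5 : κ / 5 * J = κ * J / 5 := by ring
    rw [f4] at hC'
    rw [f5]
    have f6 : (φ s * (y - y) + κ) * J + (0 * (O - y) + κ) * J = 2 * (κ * J) := by ring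
    have f7 : (φ K * (o'' - y) - κ) * J = φ K * (o'' - y) * J - κ * J := by ring
    have f8 : 5 * κ * J = 5 * (κ * J) := by ring
    rw [f8] at f3
    rw [f7]
    linarith

end

end Pool.NA97
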