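import Pool.Agent.H97.NA.Blk
import Pool.Agent.H5.AVG.Jet

/-!
# Entropies for the fullness of the lower order

`ch_via`: through an intermediate variable. `ch_indep`: variables of the line do not see the full
time. `num_a`: the row of the lower order given the higher orders, from the numbers of the lists.
-/

set_option autoImplicit false

namespace Pool.NA97

open Finset Real
open Pool.Agent.H49.Ent Pool.Agent.H32.Dense Pool.STK Pool.OWN68

variable {Ω : Type} [Fintype Ω] {p : Ω → ℝ}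

/-- **Through an intermediate variable.** -/
theorem ch_via {A B C D E : Type} (h0 : ∀ ω, 0 ≤ p ω) (X : Ω → A) (Y : Ω → B) {Z : Ω → C}
    {Z₁ : Ω → D} {Z₂ : Ω → E} (h1 : Det p Z Z₁) (h2 : Det p (fun ω => (Y ω, Z ω)) Z₂) :
    CH p X Z ≤ CH p Y Z₁ + CH p X Z₂ :=
  (CH_le_add h0 X Y Z).trans (add_le_add (CH_mono_cond h0 h1) (CH_mono_cond h0 h2))

/-- **Variables of the line do not see the full time.** -/
theorem ch_indep {A C D E : Type} (h0 : ∀ ω, 0 ≤ p ω) (X : Ω → A) {Y : Ω → C}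
    (T : Ω → D) {L : Ω → E} (hX : Det p L X) (hY : Det p L Y) {a e : ℝ}
    (hT : CH p T Y ≤ a) (hf : a - e ≤ CH p T L) :
    CH p X Y ≤ CH p X (fun ω => (T ω, Y ω)) + e := by
  have h1 := CH_chain h0 X T Y
  have h2 := CH_chain2 h0 X T Y
  have h3 : CH p T L ≤ CH p T (fun ω => (X ω, Y ω)) := CH_mono_cond h0 fun ω ω' a b c =>
    Prod.ext (hX ω ω' a b c) (hY ω ω' a b c)
  linarith

/-- **The row of the lower order given the higher orders.** `X`, `Y`: the lists at the window `x`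
(the lower order; the higher orders), `X'`, `Y'`: the same at an earlier window `x'`; `W`: the
condition at the first window, `W'`: the condition at `x'`. -/
theorem num_a {A B A' B' C D : Type} (h0 : ∀ ω, 0 ≤ p ω) {X : Ω → A} {Y : Ω → B} {X' : Ω → A'}
    {Y' : Ω → B'} {W : Ω → C} {W' : Ω → D} {a₁ a₂ a₃ a₅ a₆ a₇ a₈ k₁ k₂ : ℝ}
    (h1 : CH p (fun ω => (X ω, Y ω)) W ≤ a₁) (h2 : a₂ ≤ CH p Y W)
    (h3 : a₃ ≤ CH p (fun ω => (X' ω, Y' ω)) W) (h5 : CH p Y W ≤ a₅)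
    (h6 : a₆ ≤ CH p Y W') (h7 : CH p (fun ω => (X' ω, Y' ω)) W' ≤ a₇) (h8 : CH p W W' ≤ a₈)
    (k1 : CH p X' (fun ω => (X ω, (Y ω, W ω))) ≤ k₁) (k2 : CH p Y' (fun ω => (Y ω, W ω)) ≤ k₂) :
    CH p X (fun ω => (X' ω, (Y ω, W ω))) ≤ a₁ - a₂ - a₃ + a₅ - a₆ + a₇ + a₈ + k₁ + k₂ := by
  -- the row given the list
  have e1 := CH_chain h0 X X' (fun ω => (Y ω, W ω))
  have e2 := CH_chain2 h0 X X' (fun ω => (Y ω, W ω))
  have e3 := CH_chain h0 X Y W
  -- the lower row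
  have f1 := CH_chain2 h0 X' Y W
  have f2 := CH_chain h0 X' Y W
  have f3 : CH p (fun ω => (X' ω, Y' ω)) W + CH p Y (fun ω => ((X' ω, Y' ω), W ω)) ≤
      CH p (fun ω => (X' ω, Y ω)) W + k₂ := by
    have g1 := CH_chain2 h0 (fun ω => (X' ω, Y' ω)) Y W
    have g2 : CH p (fun ω => ((X' ω, Y' ω), Y ω)) W ≤
        CH p (fun ω => (Y' ω, (X' ω, Y ω))) W := CH_mono_left h0 fun ω ω' _ _ hh => by
      simp only [Prod.mk.injEq] at hh ⊢
      exact ⟨⟨hh.1.2.1, hh.1.1⟩, hh.1.2.2⟩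
    have g3 := CH_chain h0 Y' (fun ω => (X' ω, Y ω)) W
    have g4 : CH p Y' (fun ω => ((X' ω, Y ω), W ω)) ≤ CH p Y' (fun ω => (Y ω, W ω)) :=
      CH_mono_cond h0 fun ω ω' _ _ hh => by
        simp only [Prod.mk.injEq] at hh ⊢
        exact ⟨hh.1.2, hh.2⟩
    linarith
  have f4 : CH p Y W' ≤ CH p (fun ω => ((X' ω, Y' ω), W ω)) W' +
      CH p Y (fun ω => ((X' ω, Y' ω), W ω)) :=
    ch_via h0 Y _ (fun _ _ _ _ h => h) fun ω ω' _ _ hh => (Prod.ext_iff.mp hh).1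
  have f5 : CH p (fun ω => ((X' ω, Y' ω), W ω)) W' ≤ a₇ + a₈ := by
    have g1 := CH_subadd h0 (fun ω => (X' ω, Y' ω)) W W'
    linarith
  linarith

end Pool.NA97
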