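import Pool.Agent.H97.NA.Num

/-!
# Variables which determine real numbers up to an error

`Rs p W f δ`: the variable `W` determines the real function `f` up to `δ`. Codes of such functions
have few bits given `W`. Jets and coefficients of polynomials: `rs_jet`, `rs_co`.
-/

set_option autoImplicit false

namespace Pool.NA97

open Finset Real
open Pool.Agent.H49.Ent Pool.Agent.H32.Dense Pool.STK Pool.OWN68
open Pool.AVG5 (jt jt_dif co_sub of_fl CH_near fl_mul jt_sum)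

variable {Ω : Type} {p : Ω → ℝ} {𝒲 𝒲' : Type} {W : Ω → 𝒲} {W' : Ω → 𝒲'}

/-- `W` determines `f` up to `δ`. -/
def Rs (p : Ω → ℝ) (W : Ω → 𝒲) (f : Ω → ℝ) (δ : ℝ) : Prop :=
  ∀ ω ω', 0 < p ω → 0 < p ω' → W ω = W ω' → |f ω - f ω'| ≤ δ

theorem Rs.le {f : Ω → ℝ} {δ δ' : ℝ} (h : Rs p W f δ) (hd : δ ≤ δ') : Rs p W f δ' :=
  fun ω ω' a b c => (h ω ω' a b c).trans hd

theorem Rs.cond {f : Ω → ℝ} {δ : ℝ} (h : Rs p W f δ) (hd : Det p W' W) : Rs p W' f δ :=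
  fun ω ω' a b c => h ω ω' a b (hd ω ω' a b c)

theorem Rs.law {f : Ω → ℝ} {δ : ℝ} {q : Ω → ℝ} (h : Rs p W f δ) (hq : ∀ ω, 0 < q ω → 0 < p ω) :
    Rs q W f δ := fun ω ω' a b c => h ω ω' (hq ω a) (hq ω' b) c

/-- From a code. -/
theorem rs_fl {f : Ω → ℝ} {σ : ℝ} (hσ : 0 < σ) (h : Det p W (fun ω => ⌊σ * f ω⌋)) :
    Rs p W f (1 / σ) := fun ω ω' a b c => of_fl hσ (h ω ω' a b c)

theorem Rs.mul {f : Ω → ℝ} {δ a : ℝ} (h : Rs p W f δ) (ha : 0 ≤ a) :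
    Rs p W (fun ω => a * f ω) (a * δ) := fun ω ω' x y z => by
  rw [← mul_sub, abs_mul, abs_of_nonneg ha]
  exact mul_le_mul_of_nonneg_left (h ω ω' x y z) ha

/-- **Few bits.** -/
theorem Rs.few [Fintype Ω] {n : ℕ} (hp : IsLaw p) {f : Fin n → Ω → ℝ} {τ δ : Fin n → ℝ} {C : ℝ} (hC : 0 ≤ C)
    (hτ : ∀ i, 0 ≤ τ i) (h : ∀ i, Rs p W (f i) (δ i)) (hc : ∀ i, τ i * δ i ≤ C) :
    CH p (fun ω i => ⌊τ i * f i ω⌋) W ≤ n * Real.log (2 * (C + 1) + 1) := by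
  have h1 := CH_near hp (fun ω i => ⌊τ i * f i ω⌋) W (D := C + 1) (by linarith)
    fun ω ω' a b e i => (fl_mul (hτ i) (h i ω ω' a b e)).trans (by linarith [hc i])
  rwa [Fintype.card_fin] at h1

/-- Few bits, one function. -/
theorem Rs.few1 [Fintype Ω] (hp : IsLaw p) {f : Ω → ℝ} {τ δ : ℝ} {C : ℝ}
    (hτ : 0 ≤ τ) (h : Rs p W f δ) (hc : τ * δ ≤ C) :
    CH p (fun ω => ⌊τ * f ω⌋) W ≤ Real.log (2 * (C + 1) + 1) :=
  Pool.NA97.ch_nr hp _ _ (L := C + 1) (fun ω ω' a b e =>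
    (fl_mul hτ (h ω ω' a b e)).trans (by linarith)) |>.trans (le_of_eq (by ring_nf))

/-- Digits of a quotient. -/
theorem fl_div (g m : ℕ) (x : ℝ) : ⌊(2 : ℝ) ^ g * x⌋ / ((2 ^ m : ℕ) : ℤ) = ⌊(2 : ℝ) ^ g / 2 ^ m * x⌋ := by
  rw [← Int.floor_div_natCast]
  congr 1
  push_cast
  ring

section poly

variable {P : Ω → Polynomial ℝ} {θ : Ω → ℝ} {D k M : ℕ} {δ : ℝ}

/-- **The jets from the coefficients.** -/
theorem rs_jet (hd : ∀ ω, 0 < p ω → (P ω).natDegree ≤ D) (hθ : Det p W θ)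
    (h1 : ∀ ω, 0 < p ω → |θ ω| ≤ 1) (hδ : 0 ≤ δ)
    (h : ∀ i, k ≤ i → i ≤ D → Rs p W (fun ω => (P ω).coeff i) δ) :
    Rs p W (fun ω => jt (P ω) (θ ω) k) (2 ^ (D + 1) * δ) := by
  intro ω ω' a b e
  show |jt (P ω) (θ ω) k - jt (P ω') (θ ω') k| ≤ _
  rw [← hθ ω ω' a b e]
  exact jt_dif (hd ω a) (hd ω' b) (h1 ω a) hδ fun i hi hD => h i hi hD ω ω' a b e

/-- **The coefficients** from the jets of the orders up to `M` and the coefficients of the larger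
orders. -/
theorem rs_co (hd : ∀ ω, 0 < p ω → (P ω).natDegree ≤ D) (hθ : Det p W θ)
    (h1 : ∀ ω, 0 < p ω → |θ ω| ≤ 1) (hδ : 0 ≤ δ)
    (hj : ∀ i, k ≤ i → i ≤ M → Rs p W (fun ω => jt (P ω) (θ ω) i) δ)
    (hc : ∀ i, k ≤ i → M < i → i ≤ D → Rs p W (fun ω => (P ω).coeff i) δ) :
    Rs p W (fun ω => (P ω).coeff k) (2 ^ (D + 1) * (2 ^ (D + 1) * δ)) := by
  intro ω ω' a b e
  show |(P ω).coeff k - (P ω').coeff k| ≤ _
  have p2 : (1 : ℝ) ≤ 2 ^ (D + 1) := one_le_pow₀ (by norm_num)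
  refine co_sub (hd ω a) (hd ω' b) (h1 ω a) (by positivity) (θ := θ ω) fun i hi hD => ?_
  rcases Nat.lt_or_ge M i with hM | hM
  · refine jt_dif (hd ω a) (hd ω' b) (h1 ω a) hδ fun l hl hl' => ?_
    exact hc l (hi.trans hl) (by omega) hl' ω ω' a b e
  · have h2 := hj i hi hM ω ω' a b e
    have h3 : |jt (P ω) (θ ω) i - jt (P ω') (θ ω) i| ≤ δ := by
      have h4 := h2
      dsimp only at h4
      rwa [← hθ ω ω' a b e] at h4
    refine h3.trans ?_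
    nlinarith

theorem jt_hasse (P : Polynomial ℝ) (θ : ℝ) (s k : ℕ) :
    jt (Polynomial.hasseDeriv s P) θ k = ((k + s).choose s : ℝ) * jt P θ (k + s) := by
  unfold jt
  rw [Polynomial.taylor_coeff, Polynomial.taylor_coeff]
  have h1 := Polynomial.hasseDeriv_comp (R := ℝ) k s
  have h2 := LinearMap.congr_fun h1 P
  rw [LinearMap.comp_apply] at h2
  rw [h2, LinearMap.smul_apply, Polynomial.eval_smul, nsmul_eq_mul, Nat.choose_symm_add]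

theorem ev_hasse (P : Polynomial ℝ) (θ : ℝ) (s : ℕ) :
    (Polynomial.hasseDeriv s P).eval θ = jt P θ s := by
  unfold jt
  rw [Polynomial.taylor_coeff]

end poly

end Pool.NA97
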