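import Pool.Agent.H97.NA.Lbd

/-!
# Comparison of scales
-/

set_option autoImplicit false

namespace Pool.NA97

open Finset Real

/-- The constant of the scales. -/
noncomputable def cS (K' D : ℕ) : ℝ := (K'.factorial : ℝ) * 4 + 2 * 2 ^ K' + cD D

theorem cS_two (K' D : ℕ) : 2 ≤ cS K' D := by
  unfold cS
  have h1 : (1 : ℝ) ≤ 2 ^ K' := one_le_pow₀ (by norm_num)
  have h2 := cD_pos D
  have h3 : (0 : ℝ) ≤ (K'.factorial : ℝ) := Nat.cast_nonneg _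
  linarith

/-- The natural numbers of the windows. -/
structure Scl (J W gN q u : ℕ) (v γ μ η : ℝ) : Prop where
  W1 : (W : ℝ) ≤ v * J
  W2 : v * J ≤ (W : ℝ) + 1
  g1 : (2 : ℝ) ^ gN ≤ 2 ^ (γ * J)
  g2 : (2 : ℝ) ^ (γ * J) ≤ 2 * 2 ^ gN
  q1 : (2 : ℝ) ^ q ≤ 2 ^ (μ * J)
  q2 : (2 : ℝ) ^ (μ * J) ≤ 2 * 2 ^ q
  u2 : (2 : ℝ) ^ (η * J) ≤ 2 * 2 ^ u
  uq : u ≤ q

theorem two_floor {x : ℝ} (hx : 0 ≤ x) : (2 : ℝ) ^ ⌊x⌋₊ ≤ 2 ^ x ∧ (2 : ℝ) ^ x ≤ 2 * 2 ^ ⌊x⌋₊ := by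
  have h1 := Nat.floor_le hx
  have h2 := (Nat.lt_floor_add_one x).le
  constructor
  · rw [← Real.rpow_natCast]
    exact Real.rpow_le_rpow_of_exponent_le (by norm_num) h1
  · have h3 : (2 : ℝ) ^ x ≤ 2 ^ ((⌊x⌋₊ : ℝ) + 1) :=
      Real.rpow_le_rpow_of_exponent_le (by norm_num) h2
    rw [Real.rpow_add (by norm_num), Real.rpow_one, Real.rpow_natCast] at h3
    linarith

variable {J W gN q u K' D : ℕ} {v γ μ η : ℝ}

theorem Scl.gm (h : Scl J W gN q u v γ μ η) :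
    (2 : ℝ) ^ ((γ - μ) * J) ≤ 2 * (2 ^ gN / 2 ^ q) := by
  have e1 : (2 : ℝ) ^ ((γ - μ) * J) = 2 ^ (γ * J) / 2 ^ (μ * J) := by
    rw [sub_mul, Real.rpow_sub (by norm_num)]
  rw [e1, ← mul_div_assoc]
  exact div_le_div₀ (by positivity) h.g2 (by positivity) h.q1

theorem Scl.gm' (h : Scl J W gN q u v γ μ η) :
    (2 : ℝ) ^ gN / 2 ^ q ≤ 2 * 2 ^ ((γ - μ) * J) := by
  have e1 : (2 : ℝ) ^ ((γ - μ) * J) = 2 ^ (γ * J) / 2 ^ (μ * J) := by
    rw [sub_mul, Real.rpow_sub (by norm_num)]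
  rw [e1, ← mul_div_assoc, div_le_div_iff₀ (by positivity) (by positivity)]
  have h1 := h.g1
  have h2 := h.q2
  have h3 : (0 : ℝ) < 2 ^ q := by positivity
  have h4 : (0 : ℝ) < 2 ^ gN := by positivity
  calc (2 : ℝ) ^ gN * 2 ^ (μ * J) ≤ 2 ^ (γ * J) * (2 * 2 ^ q) :=
        mul_le_mul h1 h2 (by positivity) (by positivity)
    _ = 2 * 2 ^ (γ * J) * 2 ^ q := by ring

theorem Scl.gmu (h : Scl J W gN q u v γ μ η) :
    (2 : ℝ) ^ ((γ - μ + η) * J) ≤ 4 * (2 ^ gN / 2 ^ (q - u)) := by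
  have e1 : (2 : ℝ) ^ ((γ - μ + η) * J) = 2 ^ ((γ - μ) * J) * 2 ^ (η * J) := by
    rw [add_mul, Real.rpow_add (by norm_num)]
  have e2 : (2 : ℝ) ^ q = 2 ^ (q - u) * 2 ^ u := by
    rw [← pow_add, Nat.sub_add_cancel h.uq]
  have h3 : (0 : ℝ) < 2 ^ u := by positivity
  have e3 : (2 : ℝ) ^ gN / 2 ^ q * 2 ^ u = 2 ^ gN / 2 ^ (q - u) := by
    rw [e2]
    field_simp
  rw [e1]
  calc (2 : ℝ) ^ ((γ - μ) * J) * 2 ^ (η * J) ≤ (2 * (2 ^ gN / 2 ^ q)) * (2 * 2 ^ u) :=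
        mul_le_mul h.gm h.u2 (by positivity) (by positivity)
    _ = 4 * (2 ^ gN / 2 ^ q * 2 ^ u) := by ring
    _ = _ := by rw [e3]

theorem fac_le {k : ℕ} (hk : k ≤ K') : (k.factorial : ℝ) ≤ K'.factorial := by
  exact_mod_cast Nat.factorial_le hk

theorem Scl.L1 (h : Scl J W gN q u v γ μ η) {T o : ℝ} {k : ℕ} (hk : k ≤ K')
    (hh : T - k * (o - v) ≤ γ) : sg J W T o k ≤ cS K' D * 2 ^ gN := by
  refine (sg_le h.W1 hh).trans ?_
  have h1 := fac_le hk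
  have h2 := h.g2
  have h3 := cD_pos D
  have h4 : (0 : ℝ) < 2 ^ gN := by positivity
  have h5 : (0 : ℝ) ≤ (K'.factorial : ℝ) := Nat.cast_nonneg _
  calc (k.factorial : ℝ) * 2 ^ (γ * J) ≤ K'.factorial * (2 * 2 ^ gN) :=
        mul_le_mul h1 h2 (by positivity) h5
    _ = K'.factorial * 2 * 2 ^ gN := by ring
    _ ≤ _ := by
        refine mul_le_mul_of_nonneg_right ?_ h4.le
        unfold cS
        have : (0 : ℝ) ≤ 2 * 2 ^ K' := by positivity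
        linarith

theorem Scl.L2 (h : Scl J W gN q u v γ μ η) {T o : ℝ} {k : ℕ} (hk : k ≤ K')
    (hh : T - k * (o - v) ≤ γ - μ) : sg J W T o k ≤ cS K' D * (2 ^ gN / 2 ^ q) := by
  refine (sg_le h.W1 hh).trans ?_
  have h1 := fac_le hk
  have h2 := h.gm
  have h3 := cD_pos D
  have h4 : (0 : ℝ) < 2 ^ gN / 2 ^ q := by positivity
  have h5 : (0 : ℝ) ≤ (K'.factorial : ℝ) := Nat.cast_nonneg _
  calc (k.factorial : ℝ) * 2 ^ ((γ - μ) * J) ≤ K'.factorial * (2 * (2 ^ gN / 2 ^ q)) :=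
        mul_le_mul h1 h2 (by positivity) h5
    _ = K'.factorial * 2 * (2 ^ gN / 2 ^ q) := by ring
    _ ≤ _ := by
        refine mul_le_mul_of_nonneg_right ?_ h4.le
        unfold cS
        have : (0 : ℝ) ≤ 2 * 2 ^ K' := by positivity
        linarith

theorem Scl.L3 (h : Scl J W gN q u v γ μ η) {T o : ℝ} {k : ℕ} (hk : k ≤ K')
    (hh : T - k * (o - v) ≤ γ - μ + η) : sg J W T o k ≤ cS K' D * (2 ^ gN / 2 ^ (q - u)) := by
  refine (sg_le h.W1 hh).trans ?_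
  have h1 := fac_le hk
  have h2 := h.gmu
  have h3 := cD_pos D
  have h4 : (0 : ℝ) < 2 ^ gN / 2 ^ (q - u) := by positivity
  have h5 : (0 : ℝ) ≤ (K'.factorial : ℝ) := Nat.cast_nonneg _
  calc (k.factorial : ℝ) * 2 ^ ((γ - μ + η) * J) ≤ K'.factorial * (4 * (2 ^ gN / 2 ^ (q - u))) :=
        mul_le_mul h1 h2 (by positivity) h5
    _ = K'.factorial * 4 * (2 ^ gN / 2 ^ (q - u)) := by ring
    _ ≤ _ := by
        refine mul_le_mul_of_nonneg_right ?_ h4.le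
        unfold cS
        have : (0 : ℝ) ≤ 2 * 2 ^ K' := by positivity
        linarith

theorem Scl.L4 (h : Scl J W gN q u v γ μ η) {T o : ℝ} {k : ℕ} (hk : k ≤ K')
    (hh : γ ≤ T - k * (o - v)) : (2 : ℝ) ^ gN ≤ cS K' D * sg J W T o k := by
  have h1 := le_sg (J := J) (W := W) h.W2 hh
  have h2 : (2 : ℝ) ^ k ≤ 2 ^ K' := pow_le_pow_right₀ (by norm_num) hk
  have h3 := cD_pos D
  have h5 : (0 : ℝ) ≤ (K'.factorial : ℝ) := Nat.cast_nonneg _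
  refine (h.g1.trans h1).trans (mul_le_mul_of_nonneg_right ?_ (sg_pos _ _ _ _ _).le)
  unfold cS
  have : (0 : ℝ) ≤ 2 ^ K' := by positivity
  linarith

theorem Scl.L5 (h : Scl J W gN q u v γ μ η) {T o : ℝ} {k : ℕ} (hk : k ≤ K')
    (hh : γ - μ ≤ T - k * (o - v)) : (2 : ℝ) ^ gN / 2 ^ q ≤ cS K' D * sg J W T o k := by
  have h1 := le_sg (J := J) (W := W) h.W2 hh
  have h2 : (2 : ℝ) ^ k ≤ 2 ^ K' := pow_le_pow_right₀ (by norm_num) hk
  have h3 := cD_pos D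
  have h5 : (0 : ℝ) ≤ (K'.factorial : ℝ) := Nat.cast_nonneg _
  have h6 := sg_pos J W T o k
  calc (2 : ℝ) ^ gN / 2 ^ q ≤ 2 * 2 ^ ((γ - μ) * J) := h.gm'
    _ ≤ 2 * (2 ^ k * sg J W T o k) := by linarith
    _ ≤ 2 * (2 ^ K' * sg J W T o k) := by
        refine mul_le_mul_of_nonneg_left (mul_le_mul_of_nonneg_right h2 h6.le) (by norm_num)
    _ = 2 * 2 ^ K' * sg J W T o k := by ring
    _ ≤ _ := by
        refine mul_le_mul_of_nonneg_right ?_ h6.le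
        unfold cS
        linarith

theorem sg_mono {T o T' o' : ℝ} {k : ℕ} (hh : T - k * o ≤ T' - k * o') :
    sg J W T o k ≤ cS K' D * sg J W T' o' k := by
  have h1 : sg J W T o k ≤ 1 * sg J W T' o' k := by
    rw [one_mul]
    unfold sg
    refine mul_le_mul_of_nonneg_right (Real.rpow_le_rpow_of_exponent_le (by norm_num) ?_)
      (by positivity)
    exact mul_le_mul_of_nonneg_right hh (Nat.cast_nonneg _)
  have h2 := cS_two K' D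
  exact h1.trans (mul_le_mul_of_nonneg_right (by linarith) (sg_pos _ _ _ _ _).le)

/-- The digits of the order `s` behind the window `x`. -/
theorem Scl.lx (h : Scl J W gN q u v γ μ η) {T o Λ : ℝ} {s : ℕ} (hs : s ≤ K') (hΛ : 0 ≤ Λ)
    (hh : γ - Λ ≤ T - s * (o - v)) :
    Real.log (2 * (2 ^ gN / sg J W T o s + 1) + 1) ≤ Λ * J * Real.log 2 +
      Real.log (2 ^ (K' + 3)) := by
  have h1 := le_sg (J := J) (W := W) h.W2 hh
  have h6 := sg_pos J W T o s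
  have h2 : (2 : ℝ) ^ s ≤ 2 ^ K' := pow_le_pow_right₀ (by norm_num) hs
  have e1 : (2 : ℝ) ^ (γ * J) = 2 ^ (Λ * J) * 2 ^ ((γ - Λ) * J) := by
    rw [← Real.rpow_add (by norm_num)]
    congr 1
    ring
  have h3 : (2 : ℝ) ^ gN / sg J W T o s ≤ 2 ^ (Λ * J) * 2 ^ K' := by
    rw [div_le_iff₀ h6]
    refine h.g1.trans ?_
    rw [e1, mul_assoc]
    refine mul_le_mul_of_nonneg_left (h1.trans (mul_le_mul_of_nonneg_right h2 h6.le))
      (by positivity)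
  have h4 : (1 : ℝ) ≤ 2 ^ (Λ * J) := Real.one_le_rpow (by norm_num) (by positivity)
  have h5 : (1 : ℝ) ≤ 2 ^ K' := one_le_pow₀ (by norm_num)
  have h7 : (1 : ℝ) ≤ 2 ^ (Λ * J) * 2 ^ K' := one_le_mul_of_one_le_of_one_le h4 h5
  have h8 : 2 * ((2 : ℝ) ^ gN / sg J W T o s + 1) + 1 ≤ 2 ^ (Λ * J) * 2 ^ (K' + 3) := by
    have e2 : (2 : ℝ) ^ (Λ * J) * 2 ^ (K' + 3) = 8 * (2 ^ (Λ * J) * 2 ^ K') := by
      rw [pow_add]
      ring
    rw [e2]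
    linarith
  have h9 : 0 < (2 : ℝ) ^ gN / sg J W T o s := by positivity
  refine (Real.log_le_log (by positivity) h8).trans (le_of_eq ?_)
  rw [Real.log_mul (by positivity) (by positivity), Real.log_rpow (by norm_num)]

end Pool.NA97
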