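import Pool.Agent.H97.NA.Vfb

/-!
# The fullness of the lower orders

`vf_num`: let `K` be the highest order with a positive rate `φ K`, let `s < K`, and let `a` be the
slope of the place. Then `φ (s + 1) + (a - s) log 2 ≤ φ s`.
-/

set_option autoImplicit false

namespace Pool.NA97

open Finset Real MvPolynomial
open Pool.Agent.H49.Ent Pool.Agent.H32.Dense Pool.STK Pool.KA Pool.KSAT Pool.K2S Pool.PB Pool.GEN
open Pool.S6C Pool.RCD Pool.LA91 Pool.OWN68 Pool.LPJ30 Pool.LP30 Pool.RJ28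
open Pool.RV28 (SdI der_box fin_ev)
open Pool.RK28 (RvK)

variable {m : ℕ}

/-- **The box** around a point of differentiability. -/
theorem vf_bx {sn : ℕ → ℝ → ℝ} {d : ℕ} {G : Set ℝ} {g a : ℝ}
    (gap : ∀ η : ℝ, 0 < η → ∃ ρ : ℝ, 0 < ρ ∧ ∀ t : ℝ, 0 < t → t < ρ → ∀ x : ℝ, g - t ≤ x →
      x ≤ g + t → ∃ u ∈ G, x - η * t ≤ u ∧ u ≤ x)
    (hdl : ∀ l < d, HasDerivAt (fun x => sn l x) 1 g) (hdT : HasDerivAt (fun x => sn d x) a g)
    {C e : ℝ} (hC : 0 < C) (he : 0 < e) : ∃ ρ : ℝ, 0 < ρ ∧ ∀ r : ℝ, 0 < r → r < ρ →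
    (∀ w v, g - C * r ≤ w → w ≤ v → v ≤ g + C * r → |sn d v - sn d w - a * (v - w)| ≤ e * r) ∧
    (∀ l < d, ∀ w v, g - C * r ≤ w → w ≤ v → v ≤ g + C * r →
      |sn l v - sn l w - 1 * (v - w)| ≤ e * r) ∧
    ∀ x, g - C * r ≤ x → x ≤ g + C * r → ∃ u ∈ G, x - e * r ≤ u ∧ u ≤ x := by
  have hη : 0 < e / C := div_pos he hC
  obtain ⟨ρ₁, h1, H1⟩ := der_box hdT hη
  obtain ⟨ρ₂, h2, H2⟩ := fin_ev (D := d) (Pr := fun l t => ∀ w v : ℝ, g - t ≤ w → w ≤ v →
    v ≤ g + t → |sn l v - sn l w - 1 * (v - w)| ≤ e / C * t) fun l hl => der_box (hdl l hl) hη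
  obtain ⟨ρ₃, h3, H3⟩ := gap _ hη
  refine ⟨min ρ₁ (min ρ₂ ρ₃) / C, div_pos (lt_min h1 (lt_min h2 h3)) hC, fun r hr hrρ => ?_⟩
  rw [lt_div_iff₀ hC, mul_comm r C] at hrρ
  have e1 : e / C * (C * r) = e * r := by
    field_simp
  have hCr : 0 < C * r := mul_pos hC hr
  have k1 : C * r < ρ₁ := hrρ.trans_le (min_le_left _ _)
  have k2 : C * r < ρ₂ := hrρ.trans_le ((min_le_right _ _).trans (min_le_left _ _))
  have k3 : C * r < ρ₃ := hrρ.trans_le ((min_le_right _ _).trans (min_le_right _ _))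
  refine ⟨?_, ?_, ?_⟩
  · intro w v a1 a2 a3
    rw [← e1]
    exact H1 _ hCr k1 w v a1 a2 a3
  · intro l hl w v a1 a2 a3
    rw [← e1]
    exact H2 _ hCr k2 l hl w v a1 a2 a3
  · intro x a1 a2
    rw [← e1]
    exact H3 _ hCr k3 x a1 a2

/-- The last step. -/
theorem vf_fin {L Δ μ ζ E₃ κ Λ X K s a : ℝ} (hL0 : 0 < L) (hL1 : L ≤ 1) (hΔ : 0 ≤ Δ)
    (hμ : 0 < μ) (hζ : 0 < ζ) (hζ2 : ζ ≤ 1 / 2) (hE₃ : E₃ ≤ 3 * (ζ * μ)) (hκ : 8 * κ ≤ ζ * μ)
    (has : 0 < a - s - 1) {t y₁ : ℝ} (ht : 1 - 2 * ζ ≤ t) (hy₁ : (1 - 2 * ζ) * μ ≤ y₁)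
    (hX : (a - s) * (a - s - 1) * X ≤ (a - K) * μ + (a - s) * (a - s - 1) * (ζ * μ))
    (hΛ : (a - s - 1) * Λ ≤ (K - s - 1) * μ + (a - s - 1) * (ζ * μ))
    (key : t * y₁ * L - E₃ ≤ Δ * X + 8 * κ + Λ * L) :
    (a - s) * (a - K) * L ≤ Δ * (a - K) + (a - s) * (a - s - 1) * ((Δ + 9) * ζ) := by
  have hζμ : 0 < ζ * μ := mul_pos hζ hμ
  have h1 : (1 - 4 * ζ) * μ ≤ t * y₁ := by
    have h2 : 0 ≤ 1 - 2 * ζ := by linarith
    have h3 : (1 - 2 * ζ) * ((1 - 2 * ζ) * μ) ≤ t * y₁ :=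
      mul_le_mul ht hy₁ (mul_nonneg h2 hμ.le) (h2.trans ht)
    nlinarith [mul_pos hζ hζμ]
  have h2 : (1 - 4 * ζ) * μ * L ≤ t * y₁ * L := mul_le_mul_of_nonneg_right h1 hL0.le
  have h3 : μ * L ≤ Δ * X + Λ * L + 8 * (ζ * μ) := by
    have h4 : (1 - 4 * ζ) * μ * L = μ * L - 4 * (ζ * μ) * L := by ring
    have h5 : 4 * (ζ * μ) * L ≤ 4 * (ζ * μ) * 1 := mul_le_mul_of_nonneg_left hL1 (by positivity)
    linarith
  obtain ⟨p, hp⟩ : ∃ p, p = (a - s) * (a - s - 1) := ⟨_, rfl⟩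
  have hp0 : 0 < p := by rw [hp]; exact mul_pos (by linarith) has
  rw [← hp] at hX ⊢
  have h4 := mul_le_mul_of_nonneg_left h3 hp0.le
  have h5 := mul_le_mul_of_nonneg_left hX hΔ
  have h6 : (a - s) * L * ((a - s - 1) * Λ) ≤
      (a - s) * L * ((K - s - 1) * μ + (a - s - 1) * (ζ * μ)) :=
    mul_le_mul_of_nonneg_left hΛ (mul_nonneg (by linarith) hL0.le)
  have h7 : p * (Λ * L) ≤ (a - s) * L * ((K - s - 1) * μ) + p * (ζ * μ) * L := by
    have e1 : (a - s) * L * ((a - s - 1) * Λ) = p * (Λ * L) := by rw [hp]; ring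
    have e2 : (a - s) * L * ((K - s - 1) * μ + (a - s - 1) * (ζ * μ)) =
        (a - s) * L * ((K - s - 1) * μ) + p * (ζ * μ) * L := by rw [hp]; ring
    linarith
  have h8 : p * (ζ * μ) * L ≤ p * (ζ * μ) * 1 := mul_le_mul_of_nonneg_left hL1 (by positivity)
  have h9 : p * (μ * L) ≤ Δ * ((a - K) * μ + p * (ζ * μ)) +
      ((a - s) * L * ((K - s - 1) * μ) + p * (ζ * μ)) + 8 * (p * (ζ * μ)) := by
    have e1 : p * (Δ * X + Λ * L + 8 * (ζ * μ)) = Δ * (p * X) + p * (Λ * L) +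
        8 * (p * (ζ * μ)) := by ring
    linarith
  have e3 : μ * ((a - s) * (a - K) * L) ≤ μ * (Δ * (a - K) + p * ((Δ + 9) * ζ)) := by
    have e1 : μ * ((a - s) * (a - K) * L) = p * (μ * L) - (a - s) * L * ((K - s - 1) * μ) := by
      rw [hp]
      ring
    have e2 : μ * (Δ * (a - K) + p * ((Δ + 9) * ζ)) = Δ * ((a - K) * μ + p * (ζ * μ)) +
        p * (ζ * μ) + 8 * (p * (ζ * μ)) := by ring
    rw [e1, e2]
    linarith
  exact le_of_mul_le_mul_left e3 hμ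


/-- **The fullness of the lower orders**, one error. -/
theorem vf_one {S : PCl m} {γ₀ : ∀ J : ℕ, Fam m J → Type}
    {y₀ : ∀ (J : ℕ) (F : Fam m J), F.Ω → γ₀ J F} {C₀ : ℝ} (hS : S.Ne) (htm : TmC S C₀)
    (hpos : ∀ (τ : ℝ) (J : ℕ) (F : Fam m J) (A : F.Ω → Prop), S.St τ J F A → 0 < Pe F.p A)
    {c : ℕ → Fin m} (hyI : SdI c y₀)
    (hyT : ∀ (J : ℕ) (F : Fam m J), ∃ (R : Type) (β : F.ζ → R), ∀ ω ω',
      y₀ J F ω = y₀ J F ω' ↔ F.T ω = F.T ω' ∧ β (F.Z ω) = β (F.Z ω'))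
    {d : ℕ} {sn : ℕ → ℝ → ℝ} {G : Set ℝ} (hG : ChG S c d sn G) {g a : ℝ} (g1 : g < 1)
    (hTg : 0 < sn d g) (hat : ∀ b ∈ G, ∃ rk, Att S ((range d).image c) (c d) b (sn d b) rk)
    (hη : ∀ w : ℚ, ∃ η, RNum S (fun J F => ptr F J) (vg (w : ℝ)) η)
    (gap : ∀ η : ℝ, 0 < η → ∃ ρ : ℝ, 0 < ρ ∧ ∀ t : ℝ, 0 < t → t < ρ → ∀ x : ℝ, g - t ≤ x →
      x ≤ g + t → ∃ u ∈ G, x - η * t ≤ u ∧ u ≤ x)
    (hdl : ∀ l < d, HasDerivAt (fun x => sn l x) 1 g) (hdT : HasDerivAt (fun x => sn d x) a g)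
    {K K' s : ℕ} (hsK : s < K) (hKK : K ≤ K') (hKa : (K' : ℝ) < a) {D₁ : ℝ} (hD₁ : 0 < D₁)
    {n' : ℕ} {oB : Fin n' → ℕ} (hoB : ∀ ι, (oB ι : ℝ) = a)
    (hO : ∀ i : ℕ, K' < i → (∃ ι, oB ι = i) ∨ a + D₁ ≤ i)
    {φ : ℕ → ℝ} (hφ0 : 0 < φ K) (hφ1 : φ (K + 1) = 0) (hφm : φ (s + 1) ≤ φ s)
    (hR : ∀ j, RvK S y₀ c d (fun _ : Fin (K' + 1 - j) => c d) (fun i => odv j i)
      (fun _ : Fin n' => c d) oB sn (fun _ w => sn d w) (fun _ w => sn d w) G g (φ j))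
    {ζ : ℝ} (hζ : 0 < ζ) (hζ2 : ζ ≤ 1 / 2) :
    (a - s) * (a - K) * Real.log 2 ≤ (φ s - φ (s + 1)) * (a - K) +
      (a - s) * (a - s - 1) * ((φ s - φ (s + 1) + 9) * ζ) := by
  classical
  have cK : (K : ℝ) ≤ K' := by exact_mod_cast hKK
  have cs : (s : ℝ) + 1 ≤ K := by exact_mod_cast hsK
  have s0 : (0 : ℝ) ≤ s := Nat.cast_nonneg s
  have ha1 : 1 < a := by linarith
  obtain ⟨A₀, hA₀⟩ : ∃ A₀ : ℝ, A₀ = a - K' := ⟨_, rfl⟩
  have hA0 : 0 < A₀ := by rw [hA₀]; linarith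
  have aK : A₀ ≤ a - K := by rw [hA₀]; linarith
  obtain ⟨P, hP⟩ : ∃ P : ℝ, P = φ K := ⟨_, rfl⟩
  have hP0 : 0 < P := by rw [hP]; exact hφ0
  -- the constant of the window
  obtain ⟨cc, hcc, hcL⟩ := ex_small [D₁ / (16 * (a + 1)), A₀ / (8 * ((K' : ℝ) + 2)), 1 / 8]
    (by
      intro x hx
      simp only [List.mem_cons, List.not_mem_nil, or_false] at hx
      rcases hx with rfl | rfl | rfl
      · positivity
      · positivity
      · norm_num)
  have c1 : cc * (16 * (a + 1)) ≤ D₁ := by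
    have := hcL (D₁ / (16 * (a + 1))) (by simp)
    rwa [le_div_iff₀ (by positivity)] at this
  have c2 : cc * (8 * ((K' : ℝ) + 2)) ≤ A₀ := by
    have := hcL (A₀ / (8 * ((K' : ℝ) + 2))) (by simp)
    rwa [le_div_iff₀ (by positivity)] at this
  have c3 : cc ≤ 1 / 8 := hcL _ (by simp)
  clear hcL
  obtain ⟨M, hM⟩ : ∃ M : ℝ, M = (2 * a + 2 + 4 * 2) * 4 ^ d + 2 * 2 := ⟨_, rfl⟩
  have h4d : (1 : ℝ) ≤ 4 ^ d := one_le_pow₀ (by norm_num)
  have hM1 : 2 * a + 14 ≤ M := by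
    rw [hM]
    have := mul_le_mul_of_nonneg_left h4d (show 0 ≤ 2 * a + 2 + 4 * 2 by linarith)
    linarith
  have hK0 : (0 : ℝ) < K := by linarith
  -- the error
  obtain ⟨e, he, heL⟩ := ex_small [1 / 8, A₀ / 8, D₁ / 32, A₀ ^ 2 * cc / (a ^ 2 + 2 * A₀),
    ζ * cc / 2, A₀ * cc / 3, P * ζ * cc / (5 * a + 2 * P + 1),
    ζ ^ 2 * cc / (3 * K * (4 * P / A₀ + 8)), ζ * cc * A₀ / 3, ζ * cc / 8,
    ζ * cc / (2 / A₀ + 4)] (by
      intro x hx
      simp only [List.mem_cons, List.not_mem_nil, or_false] at hx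
      rcases hx with rfl | rfl | rfl | rfl | rfl | rfl | rfl | rfl | rfl | rfl | rfl <;> positivity)
  have e1 : e ≤ 1 / 8 := heL _ (by simp)
  have e2 : e ≤ A₀ / 8 := heL _ (by simp)
  have e3 : e ≤ D₁ / 32 := heL _ (by simp)
  have e4 : e * (a ^ 2 + 2 * A₀) ≤ A₀ ^ 2 * cc := by
    have := heL (A₀ ^ 2 * cc / (a ^ 2 + 2 * A₀)) (by simp)
    rwa [le_div_iff₀ (by positivity)] at this
  have e5 : e ≤ ζ * cc / 2 := heL _ (by simp)
  have e6 : e ≤ A₀ * cc / 3 := heL _ (by simp)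
  have e7 : e * (5 * a + 2 * P + 1) ≤ P * ζ * cc := by
    have := heL (P * ζ * cc / (5 * a + 2 * P + 1)) (by simp)
    rwa [le_div_iff₀ (by positivity)] at this
  have e8 : e * (3 * K * (4 * P / A₀ + 8)) ≤ ζ ^ 2 * cc := by
    have := heL (ζ ^ 2 * cc / (3 * K * (4 * P / A₀ + 8))) (by simp)
    rwa [le_div_iff₀ (by positivity)] at this
  have e9 : e ≤ ζ * cc * A₀ / 3 := heL _ (by simp)
  have e10 : e ≤ ζ * cc / 8 := heL _ (by simp)
  have e11 : e * (2 / A₀ + 4) ≤ ζ * cc := by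
    have := heL (ζ * cc / (2 / A₀ + 4)) (by simp)
    rwa [le_div_iff₀ (by positivity)] at this
  clear heL
  -- the rates
  choose κ₀ hκ₀ r₀ hr₀ HR using fun j => hR j e he
  obtain ⟨ρ, hρ, HB⟩ := vf_bx gap hdl hdT (C := M + 4) (by linarith) he
  -- the radius
  obtain ⟨r, hr, hrL⟩ := ex_small [ρ / 2, r₀ K / 2, r₀ (K + 1) / 2, r₀ s / 2, r₀ (s + 1) / 2,
    κ₀ K / M, κ₀ (K + 1) / M, κ₀ s / M, κ₀ (s + 1) / M, sn d g / (a + 2 + K'),
    (1 - g) / (2 * M + 4)] (by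
      intro x hx
      have hM0 : 0 < M := by linarith
      have hg1 : 0 < 1 - g := by linarith
      have z1 := hr₀ K
      have z2 := hr₀ (K + 1)
      have z3 := hr₀ s
      have z4 := hr₀ (s + 1)
      have z5 := hκ₀ K
      have z6 := hκ₀ (K + 1)
      have z7 := hκ₀ s
      have z8 := hκ₀ (s + 1)
      simp only [List.mem_cons, List.not_mem_nil, or_false] at hx
      rcases hx with rfl | rfl | rfl | rfl | rfl | rfl | rfl | rfl | rfl | rfl | rfl <;> positivity)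
  have hM0 : 0 < M := by linarith
  have rρ : r < ρ := by
    have := hrL (ρ / 2) (by simp)
    linarith
  have rR : ∀ j, j = K ∨ j = K + 1 ∨ j = s ∨ j = s + 1 → r < r₀ j ∧ M * r ≤ κ₀ j := by
    intro j hj
    have t1 : r ≤ r₀ j / 2 := hrL _ (by rcases hj with rfl | rfl | rfl | rfl <;> simp)
    have t2 : r ≤ κ₀ j / M := hrL _ (by rcases hj with rfl | rfl | rfl | rfl <;> simp)
    rw [le_div_iff₀ hM0] at t2
    exact ⟨by linarith [hr₀ j], by linarith⟩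
  have rT : r * (a + 2 + K') ≤ sn d g := by
    have := hrL (sn d g / (a + 2 + K')) (by simp)
    rwa [le_div_iff₀ (by positivity)] at this
  have rg : r * (2 * M + 4) ≤ 1 - g := by
    have := hrL ((1 - g) / (2 * M + 4)) (by simp)
    rwa [le_div_iff₀ (by positivity)] at this
  clear hrL
  obtain ⟨bT, bS, bG⟩ := HB r hr rρ
  clear HB
  obtain ⟨h, hh⟩ : ∃ h : ℝ, h = e * r := ⟨_, rfl⟩
  have hh0 : 0 < h := by rw [hh]; exact mul_pos he hr
  have hh1 : h ≤ r / 8 := by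
    have := mul_le_mul_of_nonneg_right e1 hr.le
    rw [hh]
    linarith
  rw [← hh] at bT bS bG
  have hMr : M * r = (2 * a + 2 + 4 * 2) * 4 ^ d * r + 2 * 2 * r := by
    rw [hM]
    ring
  have hMr0 : 16 * r ≤ M * r := mul_le_mul_of_nonneg_right (by linarith) hr.le
  have hCr : (M + 4) * r = M * r + 4 * r := by ring
  rw [hCr] at bT bS bG
  have rg' : 2 * (M * r) + 4 * r ≤ 1 - g := by
    have : r * (2 * M + 4) = 2 * (M * r) + 4 * r := by ring
    linarith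
  -- the windows
  obtain ⟨b, hb, b1, b2⟩ := bG (g - r / 2) (by linarith) (by linarith)
  obtain ⟨v, v1, v2⟩ := exists_rat_btwn (show g - r / 16 < g by linarith)
  have hccr : 0 < cc * r := mul_pos hcc hr
  obtain ⟨y, y1, y2⟩ := exists_rat_btwn (show (v : ℝ) + cc * r < v + 2 * (cc * r) by linarith)
  obtain ⟨μ, hμd⟩ : ∃ μ : ℝ, μ = y - v := ⟨_, rfl⟩
  have hμ1 : cc * r ≤ μ := by linarith
  have hμ2 : μ ≤ 2 * (cc * r) := by linarith
  have hμ0 : 0 < μ := by linarith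
  have hccr8 : cc * r ≤ r / 8 := by
    have := mul_le_mul_of_nonneg_right c3 hr.le
    linarith
  -- scaled errors
  have scl : ∀ {E B : ℝ}, 0 ≤ B → e * E ≤ B * cc → h * E ≤ B * μ := by
    intro E B hB hE
    have f1 := mul_le_mul_of_nonneg_right hE hr.le
    have f2 := mul_le_mul_of_nonneg_left hμ1 hB
    rw [hh]
    linarith
  have q2 : h * (a ^ 2 + 2 * A₀) ≤ A₀ ^ 2 * μ := scl (by positivity) e4
  have qζ : 2 * h ≤ ζ * μ := by
    have := scl (E := 2) (B := ζ) hζ.le (by linarith)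
    linarith
  have q3 : 3 * h ≤ A₀ * μ := by
    have := scl (E := 3) (B := A₀) hA0.le (by linarith)
    linarith
  have q7 : h * (5 * a + 2 * P + 1) ≤ P * ζ * μ := scl (by positivity) e7
  have q8 : h * (3 * K * (4 * P / A₀ + 8)) ≤ ζ ^ 2 * μ := scl (by positivity) e8
  have q9 : h * 3 ≤ ζ * A₀ * μ := scl (by positivity) (by linarith)
  have q10 : h * 8 ≤ ζ * μ := scl hζ.le (by linarith)
  have q11 : h * (2 / A₀ + 4) ≤ ζ * μ := scl hζ.le e11
  have q3' : h * 8 ≤ A₀ * r := by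
    have := mul_le_mul_of_nonneg_right e2 hr.le
    rw [hh]
    linarith
  have qD : h * 32 ≤ D₁ * r := by
    have := mul_le_mul_of_nonneg_right e3 hr.le
    rw [hh]
    linarith
  -- the other windows
  have aK0 : 0 < a - K := by linarith
  have as1 : 0 < a - s - 1 := by linarith
  have as0 : 0 < a - s := by linarith
  obtain ⟨o, ho⟩ : ∃ o : ℝ, (a - K) * (o - y) = μ + 2 * h :=
    ⟨y + (μ + 2 * h) / (a - K), by field_simp; ring⟩
  obtain ⟨o', ho'⟩ : ∃ o' : ℝ, (a - K) * (o' - y) = μ - 2 * h :=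
    ⟨y + (μ - 2 * h) / (a - K), by field_simp; ring⟩
  obtain ⟨o'', ho''⟩ : ∃ o'' : ℝ, (a - K) * (o'' - y) = ζ * μ - 2 * h :=
    ⟨y + (ζ * μ - 2 * h) / (a - K), by field_simp; ring⟩
  obtain ⟨O, hOy⟩ : ∃ O : ℝ, (a - K') * (O - y) = ((K' : ℝ) + 1) * μ + 2 * h :=
    ⟨y + (((K' : ℝ) + 1) * μ + 2 * h) / (a - K'), by
      have : a - K' ≠ 0 := by linarith
      field_simp
      ring⟩
  obtain ⟨x, hx⟩ : ∃ x : ℝ, (a - s - 1) * (y - x) = ((K : ℝ) - s - 1) * μ + 2 * h :=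
    ⟨y - (((K : ℝ) - s - 1) * μ + 2 * h) / (a - s - 1), by field_simp; ring⟩
  obtain ⟨x₃, x31, x32⟩ := exists_rat_btwn
    (show (y : ℝ) - (((K : ℝ) - s) * μ + 3 * h) / (a - s) <
      y - (((K : ℝ) - s) * μ + 2 * h) / (a - s) by
        have : (((K : ℝ) - s) * μ + 2 * h) / (a - s) < (((K : ℝ) - s) * μ + 3 * h) / (a - s) :=
          div_lt_div_of_pos_right (by linarith) as0
        linarith)
  have hx₃ : ((K : ℝ) - s) * μ + 2 * h ≤ (a - s) * (y - x₃) := by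
    have f1 : (((K : ℝ) - s) * μ + 2 * h) / (a - s) ≤ y - x₃ := by linarith
    rw [div_le_iff₀ as0] at f1
    linarith
  have hx₃' : (a - s) * (y - x₃) ≤ ((K : ℝ) - s) * μ + 3 * h := by
    have f1 : (y : ℝ) - x₃ ≤ (((K : ℝ) - s) * μ + 3 * h) / (a - s) := by linarith
    rw [le_div_iff₀ as0] at f1
    linarith
  have hOg : O ≤ g + r := by
    have f1 : A₀ * (O - y) ≤ A₀ * (r / 2) := by
      rw [← hA₀] at hOy
      have f2 : ((K' : ℝ) + 1) * μ ≤ ((K' : ℝ) + 1) * (2 * (cc * r)) :=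
        mul_le_mul_of_nonneg_left hμ2 (by positivity)
      have f3 : cc * (8 * ((K' : ℝ) + 2)) * r ≤ A₀ * r := mul_le_mul_of_nonneg_right c2 hr.le
      have f4 : ((K' : ℝ) + 1) * (2 * (cc * r)) * 4 ≤ cc * (8 * ((K' : ℝ) + 2)) * r := by
        have f5 : cc * (8 * ((K' : ℝ) + 2)) * r = ((K' : ℝ) + 1) * (2 * (cc * r)) * 4 +
          8 * (cc * r) := by ring
        linarith
      linarith
    have f2 := le_of_mul_le_mul_left f1 hA0
    linarith
  obtain ⟨σ₀, hσ₀⟩ : ∃ σ₀ : ℝ, σ₀ = h / (d + 1) := ⟨_, rfl⟩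
  have hσ0 : 0 < σ₀ := by rw [hσ₀]; positivity
  have hdσ : (d : ℝ) * σ₀ ≤ h := by
    rw [hσ₀, mul_div_assoc', div_le_iff₀ (by positivity)]
    have : h * ((d : ℝ) + 1) = d * h + h := by ring
    linarith
  have hσh : σ₀ ≤ h := by
    rw [hσ₀, div_le_iff₀ (by positivity)]
    have f1 : (0 : ℝ) ≤ h * d := mul_nonneg hh0.le (Nat.cast_nonneg d)
    have : h * ((d : ℝ) + 1) = h * d + h := by ring
    linarith
  obtain ⟨A, hA⟩ : ∃ A : ℝ, A = (2 * a + 2) * r := ⟨_, rfl⟩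
  have hA0' : 0 ≤ A := by rw [hA]; positivity
  obtain ⟨D, hD⟩ : ∃ D : ℝ, D = 2 * r := ⟨_, rfl⟩
  have hD0 : 0 < D := by rw [hD]; positivity
  have hMAD : (A + 4 * D) * 4 ^ d + 2 * D = M * r := by
    rw [hA, hD, hM]
    ring
  obtain ⟨X, hX⟩ : ∃ X : ℝ, X = (a - K + 1) * μ + 2 * h := ⟨_, rfl⟩
  have haKμ : (a - K + 1) * μ ≤ a * (2 * (cc * r)) :=
    mul_le_mul (by linarith) hμ2 hμ0.le (by linarith)
  have hac : a * (2 * (cc * r)) ≤ a * r / 4 := by
    have := mul_le_mul_of_nonneg_left hccr8 (show 0 ≤ a by linarith)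
    linarith
  have har : 0 < a * r := by positivity
  have har1 : r ≤ a * r := le_mul_of_one_le_left hr.le ha1.le
  have hX1 : X ≤ a * r := by
    rw [hX]
    linarith
  obtain ⟨j₀, hj₀⟩ := exists_nat_ge ((M + 2) * 4)
  have hvb : r / 4 ≤ v - b := by linarith
  have hb0 : 0 ≤ b := by
    obtain ⟨_, _, -, hch⟩ := hG.ch b hb
    exact hch.w0
  obtain ⟨nB, hnB⟩ : ∃ nB : Fin n' → ℝ, nB = fun _ => sn d b - a * b + (a - K + 1) * μ + 2 * h :=
    ⟨_, rfl⟩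
  obtain ⟨lv, hlv⟩ : ∃ lv : ℕ → ℝ, lv = fun l => dgj A D d l + 2 * D - σ₀ := ⟨_, rfl⟩
  have hN : VfB sn d K K' s j₀ oB nB lv σ₀ b v x₃ x y o o' o'' O O μ
      (sn d y - ((K : ℝ) - 1) * μ) (y - x + 4 * h) (ζ * μ) (h / 2) := by
    refine vfB_of (lo := g - (M * r + 4 * r)) (hi := g + (M * r + 4 * r)) (a := a) (h := h)
      (D₁ := D₁) bT hsK hKK hKa hoB hO (fun ι => by rw [hnB]) hh0 hμ0 hζ (by linarith) hb0
      (by linarith) (by linarith) (by linarith) (by linarith) (by linarith) ?_ ho ho' ho'' hOy hx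
      hx₃ hx₃' (by rw [← hA₀]; exact q2) qζ (by rw [← hA₀]; exact q3) hσ0 ?_ ?_
    · -- γ
      have f1 : sn d g - a * r - h ≤ sn d y := by
        rcases le_total g y with hgy | hgy
        · have f2 := abs_le.1 (bT g y (by linarith) hgy (by linarith))
          have f3 : 0 ≤ a * ((y : ℝ) - g) := mul_nonneg (by linarith) (by linarith)
          linarith [f2.1]
        · have f2 := abs_le.1 (bT y g (by linarith) hgy (by linarith))
          have f3 : a * (g - (y : ℝ)) ≤ a * r :=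
            mul_le_mul_of_nonneg_left (by linarith) (by linarith)
          linarith [f2.2]
      have f4 : ((K : ℝ) - 1) * μ ≤ K' * r := by
        have f5 : ((K : ℝ) - 1) * μ ≤ K' * μ := mul_le_mul_of_nonneg_right (by linarith) hμ0.le
        have f6 : (K' : ℝ) * μ ≤ K' * r :=
          mul_le_mul_of_nonneg_left (by linarith) (by positivity)
        linarith
      have f7 : r * (a + 2 + K') = a * r + 2 * r + K' * r := by ring
      linarith
    · intro l hl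
      have f1 := dgj_le hA0' hD0 d l
      rw [hlv]
      have f2 : (M + 2) * 4 * (r / 4) ≤ j₀ * (v - b) :=
        mul_le_mul hj₀ hvb (by positivity) (by positivity)
      have f3 : (M + 2) * 4 * (r / 4) = M * r + 2 * r := by ring
      simp only
      linarith
    · have f1 : D₁ * (r / 4) ≤ D₁ * (v - b) := mul_le_mul_of_nonneg_left hvb hD₁.le
      have f2 : cc * (16 * (a + 1)) * r ≤ D₁ * r := mul_le_mul_of_nonneg_right c1 hr.le
      have f3 : cc * (16 * (a + 1)) * r = 8 * (a * (2 * (cc * r))) + 16 * (cc * r) := by ring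
      linarith
  have hRt : ∀ j, j = K ∨ j = K + 1 ∨ j = s ∨ j = s + 1 → ∀ x' o₁ : ℝ, b ≤ x' → x' ≤ o₁ →
      o₁ ≤ g + r → RtJ S y₀ c d (fun _ : Fin (K' + 1 - j) => c d) (fun i => odv j i)
        (fun _ : Fin n' => c d) oB sn (fun _ w => sn d w) (fun _ w => sn d w)
        (fun l => sn l b + dgj A D d l + 2 * D) (fun l => sn l b + dgj A D d l + 2 * D - b)
        nB b x' o₁ (φ j * (o₁ - x')) h := by
    intro j hj x' o₁ f1 f2 f3
    obtain ⟨t1, t2⟩ := rR j hj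
    rw [hh]
    refine HR j r hr t1 b hb x' o₁ (by linarith) f1 f2 f3 _ _ (dgj A D d) nB ?_
    rw [← hh]
    have f4 := abs_le.1 (bT b o₁ (by linarith) (by linarith) (by linarith))
    have f5 : a * (o₁ - b) ≤ a * (2 * r) :=
      mul_le_mul_of_nonneg_left (by linarith) (by linarith)
    refine vf_nrJ (a := a) (X := X) hA0' hD0 (by linarith) (by linarith) (by linarith) ?_
      (by rw [hMAD]; exact t2) hoB (fun ι => by rw [hnB, hX]; ring) ?_ ?_
    · rw [hA]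
      linarith [f4.2]
    · rw [hA]
      linarith
    · have f6 : a * r ≤ M * r := mul_le_mul_of_nonneg_right (by linarith) hr.le
      linarith
  obtain ⟨rk, hrk⟩ := hat b hb
  obtain ⟨ηv, hηv⟩ := hη v
  obtain ⟨ηx, hηx⟩ := hη x₃
  obtain ⟨ηy, hηy⟩ := hη y
  have hoo : (a - K) * (o - o') = 4 * h := by
    have : (a - K) * (o - o') = (a - K) * (o - y) - (a - K) * (o' - y) := by ring
    rw [this, ho, ho']
    ring
  have hoo0 : 0 ≤ o - o' := by linarith [hN.po]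
  obtain ⟨E, hE⟩ : ∃ E : ℝ, E = φ K * (o - o') + 8 * h := ⟨_, rfl⟩
  rw [← hP] at hE
  have hE1 : E ≤ h * (4 * P / A₀ + 8) := by
    have f1 : A₀ * (o - o') ≤ 4 * h := by
      have := mul_le_mul_of_nonneg_right aK hoo0
      linarith
    have f2 : o - o' ≤ 4 * h / A₀ := by
      rw [le_div_iff₀ hA0]
      linarith
    have f3 := mul_le_mul_of_nonneg_left f2 hP0.le
    have f4 : P * (4 * h / A₀) = h * (4 * P / A₀) := by ring
    rw [hE]
    linarith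
  have hE0 : 8 * h ≤ E := by
    rw [hE]
    have := mul_nonneg hP0.le hoo0
    linarith
  have hEK : 3 * K * E ≤ ζ ^ 2 * μ := by
    have f1 := mul_le_mul_of_nonneg_left hE1 (show 0 ≤ 3 * (K : ℝ) by positivity)
    linarith
  obtain ⟨η₁, hη₁⟩ : ∃ η₁ : ℝ, η₁ = ζ * μ / K := ⟨_, rfl⟩
  have hη₁0 : 0 < η₁ := by rw [hη₁]; positivity
  have hE2 : 3 * E / η₁ ≤ ζ := by
    rw [hη₁, div_div_eq_mul_div, div_le_iff₀ (by positivity)]
    have f1 : 3 * E * K = 3 * K * E := by ring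
    have f2 : ζ * (ζ * μ) = ζ ^ 2 * μ := by ring
    rw [f1, f2]
    exact hEK
  have hKs : ((K - s : ℕ) : ℝ) = K - s := by
    rw [Nat.cast_sub hsK.le]
  have hη₁K : ((K - s : ℕ) : ℝ) * η₁ ≤ ζ * μ := by
    rw [hKs, hη₁, mul_div_assoc', div_le_iff₀ hK0]
    have f1 : 0 ≤ s * (ζ * μ) := by positivity
    have f2 : ((K : ℝ) - s) * (ζ * μ) = ζ * μ * K - s * (ζ * μ) := by ring
    linarith
  have key := vf_box (y₀ := y₀) (κ := h) (φ := φ) (E := E) (δ := ζ) (η₁ := η₁) hS htm hpos hyI hyT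
    hG hb hrk hN (half_pos hh0)
    (nH := fun l => sn l b + dgj A D d l + 2 * D)
    (nV := fun l => sn l b + dgj A D d l + 2 * D - b)
    (fun l _ => by rw [hlv]; ring) (fun l _ => rfl)
    (by
      rw [hlv]
      exact vf_nrC hA0' hD0 hσ0 (by linarith) (by rw [hMAD]; linarith))
    (by
      rw [hlv]
      refine vf_hiW (lo := g - (M * r + 4 * r)) (h := h) hA0' hD0 hσ0 (by linarith) hh0.le
        (by linarith) (fun l hl w f1 f2 => bS l hl w b f1 f2 (by linarith))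
        (fun x f1 f2 => bG x f1 (by linarith)) ?_ ?_
      · rw [hMAD]
        linarith
      · rw [hMAD]
        linarith)
    hηv hηx hηy ?_ hh0 hdσ hφ1 ?_ (by rw [hE, hP]) hE0 hζ (by linarith) hη₁0 ?_ (by linarith)
  rotate_left
  · -- the lists
    intro t ht
    have w1 := hN.bv
    have w2 := hN.v3
    have w3 := hN.x3
    have w4 := hN.xy
    have w5 := hN.yp
    have w6 := hN.po
    have w7 := hN.yr
    have w8 := hN.yO
    have w9 := hN.om
    have w10 := hN.rm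
    unfold Lq at ht
    simp only [List.mem_cons, List.not_mem_nil, or_false] at ht
    rcases ht with rfl | rfl | rfl | rfl | rfl | rfl | rfl | rfl | rfl | rfl | rfl | rfl
    all_goals exact hRt _ (by simp) _ _ (by linarith) (by linarith) (by linarith)
  · -- the last window
    rw [← hP]
    have f1 : 5 * h * (a - K) < P * ((a - K) * (o'' - y)) := by
      rw [ho'']
      have f3 := mul_pos hh0 hK0
      have f4 : P * (ζ * μ - 2 * h) = P * ζ * μ - 2 * P * h := by ring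
      have f5 : h * (5 * a + 2 * P + 1) = 5 * h * a + 2 * P * h + h := by ring
      have f6 : 5 * h * (a - K) = 5 * h * a - 5 * (h * K) := by ring
      linarith
    have f2 : (a - K) * (5 * h) < (a - K) * (P * (o'' - y)) := by linarith
    exact lt_of_mul_lt_mul_left f2 aK0.le
  · have f1 := mul_le_mul_of_nonneg_right hζ2 hμ0.le
    linarith
  -- the end
  have hl2 : 0 < Real.log 2 := Real.log_pos one_lt_two
  have hl21 : Real.log 2 ≤ 1 := by
    have := Real.log_two_lt_d9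
    linarith
  have hζμ : 0 < ζ * μ := by positivity
  refine vf_fin (ζ := ζ) (μ := μ) (E₃ := 3 * E) (κ := h) (Λ := y - x + 4 * h) (X := x - x₃)
    (t := 1 - ζ - 3 * E / η₁) (y₁ := μ - ζ * μ - (K - s : ℕ) * η₁) hl2 hl21 (by linarith) hμ0 hζ
    hζ2 ?_ (by linarith) as1 (by linarith) (by linarith) ?_ ?_ key
  · -- E
    have f1 : (1 : ℝ) ≤ K := by linarith
    have f2 : E ≤ K * E := le_mul_of_one_le_left (by linarith) f1
    have f3 : ζ ^ 2 * μ ≤ ζ * μ := by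
      have f4 : ζ * (ζ * μ) ≤ 1 * (ζ * μ) := mul_le_mul_of_nonneg_right (by linarith) hζμ.le
      have f5 : ζ * (ζ * μ) = ζ ^ 2 * μ := by ring
      linarith
    linarith
  · -- X
    have f1 := mul_le_mul_of_nonneg_left hx₃' as1.le
    have f2 : (a - s) * ((a - s - 1) * (y - x)) = (a - s) * (((K : ℝ) - s - 1) * μ + 2 * h) := by
      rw [hx]
    have f3 : (a - s) * (a - s - 1) * (x - x₃) = (a - s - 1) * ((a - s) * (y - x₃)) -
        (a - s) * ((a - s - 1) * (y - x)) := by ring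
    have f5 : 3 * h ≤ A₀ * (ζ * μ) := by linarith
    have f6 : (a - s - 1) * (3 * h) ≤ (a - s) * (a - s - 1) * (ζ * μ) := by
      have f7 : A₀ * (ζ * μ) ≤ (a - s) * (ζ * μ) :=
        mul_le_mul_of_nonneg_right (by linarith) hζμ.le
      have f8 := mul_le_mul_of_nonneg_left (f5.trans f7) as1.le
      linarith
    rw [f3, f2]
    have f9 : (a - s - 1) * (((K : ℝ) - s) * μ + 3 * h) -
        (a - s) * (((K : ℝ) - s - 1) * μ + 2 * h) =
        (a - K) * μ + (a - s - 1) * (3 * h) - (a - s) * (2 * h) := by ring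
    have f10 : 0 ≤ (a - s) * (2 * h) := by positivity
    linarith
  · -- Λ
    have f1 : (a - s - 1) * (y - x + 4 * h) = ((K : ℝ) - s - 1) * μ + 2 * h +
        (a - s - 1) * (4 * h) := by
      rw [mul_add, hx]
    have f2 : 2 * h ≤ (a - s - 1) * (h * (2 / A₀)) := by
      have f3 : A₀ * (h * (2 / A₀)) ≤ (a - s - 1) * (h * (2 / A₀)) :=
        mul_le_mul_of_nonneg_right (by linarith) (by positivity)
      have f4 : A₀ * (h * (2 / A₀)) = 2 * h := by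
        field_simp
      linarith
    have f5 := mul_le_mul_of_nonneg_left q11 as1.le
    have f6 : (a - s - 1) * (h * (2 / A₀ + 4)) = (a - s - 1) * (h * (2 / A₀)) +
        (a - s - 1) * (4 * h) := by ring
    rw [f1]
    linarith

end Pool.NA97
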