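import Pool.Agent.H97.NA.Box

/-!
# The fullness of the lower order: the windows

`vfB_of`: the numbers of the windows around a point of differentiability.
-/

set_option autoImplicit false

namespace Pool.NA97

open Finset Real

/-- **The windows** around a point of differentiability. -/
theorem vfB_of {sn : ℕ → ℝ → ℝ} {d K K' s j₀ : ℕ} {n' : ℕ} {oB : Fin n' → ℕ} {nB : Fin n' → ℝ}
    {lv : ℕ → ℝ} {σ₀ b v x₃ x y o o' o'' O μ h lo hi a D₁ ζ e₁ : ℝ}
    (hT : ∀ w v, lo ≤ w → w ≤ v → v ≤ hi → |sn d v - sn d w - a * (v - w)| ≤ h)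
    (hsK : s < K) (hKK : K ≤ K') (hKa : (K' : ℝ) < a) (hoB : ∀ ι, (oB ι : ℝ) = a)
    (hO : ∀ i : ℕ, K' < i → (∃ ι, oB ι = i) ∨ a + D₁ ≤ i)
    (hnB : ∀ ι, nB ι = sn d b - a * b + (a - K + 1) * μ + 2 * h)
    (h0 : 0 < h) (hμ : 0 < μ) (hζ : 0 < ζ) (hζ1 : ζ ≤ 1) (hb0 : 0 ≤ b) (hbl : lo ≤ b)
    (hbv : b ≤ v) (hyv : y = v + μ) (hy1 : y < 1) (hOh : O ≤ hi)
    (hγ : 0 ≤ sn d y - ((K : ℝ) - 1) * μ)
    (ho : (a - K) * (o - y) = μ + 2 * h) (ho' : (a - K) * (o' - y) = μ - 2 * h)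
    (ho'' : (a - K) * (o'' - y) = ζ * μ - 2 * h)
    (hOy : (a - K') * (O - y) = ((K' : ℝ) + 1) * μ + 2 * h)
    (hx : (a - s - 1) * (y - x) = ((K : ℝ) - s - 1) * μ + 2 * h)
    (hx₃ : ((K : ℝ) - s) * μ + 2 * h ≤ (a - s) * (y - x₃))
    (hx₃' : (a - s) * (y - x₃) ≤ ((K : ℝ) - s) * μ + 3 * h)
    (q2 : h * (a ^ 2 + 2 * (a - K')) ≤ (a - K') ^ 2 * μ) (qζ : 2 * h ≤ ζ * μ)
    (q3 : 3 * h ≤ (a - K') * μ) (hσ : 0 < σ₀)
    (hj : ∀ l < d, lv l + σ₀ / 2 + 2 * e₁ ≤ j₀ * (v - b))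
    (hD : (a - K + 1) * μ + h + 2 * e₁ ≤ D₁ * (v - b)) :
    VfB sn d K K' s j₀ oB nB lv σ₀ b v x₃ x y o o' o'' O O μ (sn d y - ((K : ℝ) - 1) * μ)
      (y - x + 4 * h) (ζ * μ) e₁ := by
  obtain ⟨A₀, hA₀⟩ : ∃ A₀ : ℝ, A₀ = a - K' := ⟨_, rfl⟩
  have hA0 : 0 < A₀ := by rw [hA₀]; linarith
  have cK : (K : ℝ) ≤ K' := by exact_mod_cast hKK
  have cs : (s : ℝ) + 1 ≤ K := by exact_mod_cast hsK
  have s0 : (0 : ℝ) ≤ s := Nat.cast_nonneg s
  have aK : A₀ ≤ a - K := by rw [hA₀]; linarith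
  have as : A₀ ≤ a - s - 1 := by linarith
  have ha1 : 1 ≤ a := by linarith
  have hA0a : A₀ ≤ a := by linarith
  rw [← hA₀] at hOy q2 q3
  have q1 : h * a ≤ A₀ * μ := by
    have h1 : h * a ^ 2 ≤ A₀ ^ 2 * μ := by nlinarith
    have h2 : A₀ ^ 2 * μ ≤ A₀ * a * μ := by
      have := mul_le_mul_of_nonneg_left hA0a (mul_nonneg hA0.le hμ.le)
      nlinarith
    have h3 : a * (h * a) ≤ a * (A₀ * μ) := by nlinarith
    exact le_of_mul_le_mul_left h3 (by linarith)
  have hμ2 : 2 * h ≤ μ := by nlinarith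
  -- the orders of the windows
  have yo : 0 ≤ o - y := by
    by_contra hc
    push Not at hc
    have := mul_neg_of_pos_of_neg (show 0 < a - K by linarith) hc
    linarith
  have yo' : 0 ≤ o' - y := by
    by_contra hc
    push Not at hc
    have := mul_neg_of_pos_of_neg (show 0 < a - K by linarith) hc
    linarith
  have yo'' : 0 ≤ o'' - y := by
    by_contra hc
    push Not at hc
    have := mul_neg_of_pos_of_neg (show 0 < a - K by linarith) hc
    linarith
  have hK1 : (0 : ℝ) ≤ K' := Nat.cast_nonneg _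
  have hKμ : 0 ≤ (K' : ℝ) * μ := mul_nonneg hK1 hμ.le
  have yO : 0 ≤ O - y := by
    by_contra hc
    push Not at hc
    have := mul_neg_of_pos_of_neg hA0 hc
    linarith
  have yx : 0 ≤ y - x := by
    by_contra hc
    push Not at hc
    have h1 := mul_neg_of_pos_of_neg (show 0 < a - s - 1 by linarith) hc
    have h2 : 0 ≤ ((K : ℝ) - s - 1) * μ := mul_nonneg (by linarith) hμ.le
    linarith
  have o'o : o' ≤ o := by
    have h1 : (a - K) * (o' - y) ≤ (a - K) * (o - y) := by linarith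
    have := le_of_mul_le_mul_left h1 (by linarith)
    linarith
  have kO : ∀ k : ℝ, k ≤ K' → A₀ * (O - y) ≤ (a - k) * (O - y) := fun k hk =>
    mul_le_mul_of_nonneg_right (by rw [hA₀]; linarith) yO
  have oO : o ≤ O := by
    have h1 : (a - K) * (o - y) ≤ (a - K) * (O - y) := by
      have := kO K cK
      linarith
    have := le_of_mul_le_mul_left h1 (by linarith)
    linarith
  have o''O : o'' ≤ O := by
    have h1 : (a - K) * (o'' - y) ≤ (a - K) * (O - y) := by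
      have := kO K cK
      have h2 : ζ * μ ≤ 1 * μ := mul_le_mul_of_nonneg_right hζ1 hμ.le
      linarith
    have := le_of_mul_le_mul_left h1 (by linarith)
    linarith
  have r1 : μ * A₀ - 2 * h ≤ (a - s) * (a - s - 1) * (x - x₃) := by
    have h1 := mul_le_mul_of_nonneg_left hx₃ (show 0 ≤ a - s - 1 by linarith)
    have h2 : (a - s) * ((a - s - 1) * (y - x)) = (a - s) * (((K : ℝ) - s - 1) * μ + 2 * h) := by
      rw [hx]
    have h3 := mul_le_mul_of_nonneg_left aK hμ.le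
    nlinarith
  have x3x : 0 < x - x₃ := by
    by_contra hc
    push Not at hc
    have h1 : (a - s) * (a - s - 1) * (x - x₃) ≤ 0 :=
      mul_nonpos_of_nonneg_of_nonpos (mul_nonneg (by linarith) (by linarith)) hc
    linarith
  have A0x : h ≤ A₀ * (x - x₃) := by
    have h1 : (a - s) * (a - s - 1) ≤ a ^ 2 := by nlinarith
    have h2 := mul_le_mul_of_nonneg_right h1 x3x.le
    have h3 : A₀ * (μ * A₀ - 2 * h) ≤ A₀ * (a ^ 2 * (x - x₃)) :=
      mul_le_mul_of_nonneg_left (r1.trans h2) hA0.le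
    have h4 : a ^ 2 * h ≤ a ^ 2 * (A₀ * (x - x₃)) := by nlinarith
    exact le_of_mul_le_mul_left h4 (by positivity)
  have v3 : v ≤ x₃ := by
    have h1 : (a - s) * (y - x₃) ≤ (a - s) * μ := by
      have := mul_le_mul_of_nonneg_right aK hμ.le
      nlinarith
    have := le_of_mul_le_mul_left h1 (by linarith)
    linarith
  have A0o : h ≤ A₀ * (o - y) := by
    have h1 : (a - K) * h ≤ (a - K) * (A₀ * (o - y)) := by
      have h2 : (a - K) * (A₀ * (o - y)) = A₀ * (μ + 2 * h) := by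
        rw [← ho]
        ring
      have h3 : (a - K) * h ≤ h * a := by nlinarith
      have h4 : 0 ≤ A₀ * (2 * h) := by positivity
      linarith
    exact le_of_mul_le_mul_left h1 (by linarith)
  -- the values
  have lov : lo ≤ v := hbl.trans hbv
  have Tyo := abs_le.1 (hT y o (by linarith) (by linarith) (by linarith))
  have Tyo' := abs_le.1 (hT y o' (by linarith) (by linarith) (by linarith))
  have Tyo'' := abs_le.1 (hT y o'' (by linarith) (by linarith) (by linarith))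
  have TyO := abs_le.1 (hT y O (by linarith) (by linarith) (by linarith))
  have Tx := abs_le.1 (hT x y (by linarith) (by linarith) (by linarith))
  have Tx3 := abs_le.1 (hT x₃ y (by linarith) (by linarith) (by linarith))
  have Txx := abs_le.1 (hT x₃ x (by linarith) (by linarith) (by linarith))
  have Tby := abs_le.1 (hT b y (by linarith) (by linarith) (by linarith))
  refine { sK := hsK, KK := hKK, b0 := hb0, bv := hbv, v3 := v3, x3 := by linarith,
           xy := by linarith, yv := hyv, yp := by linarith, po := o'o, yr := by linarith,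
           yO := by linarith, om := oO, rm := o''O, Om := le_rfl, y1 := hy1, hγ := rfl,
           γ0 := hγ, o3 := ?_, o4 := ?_, O6 := ?_, p2 := ?_, r2 := ?_, u1 := ?_, u2 := ?_,
           u3 := ?_, Λ0 := by linarith, Λx := ?_, η0 := mul_pos hζ hμ,
           ημ := ?_, σ0 := hσ, j0 := ?_, hi := ?_ }
  · intro k hk hk'
    have c1 : (k : ℝ) ≤ K' := by exact_mod_cast hk'
    have h1 : A₀ * (o - y) ≤ (a - k) * (o - y) :=
      mul_le_mul_of_nonneg_right (by rw [hA₀]; linarith) yo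
    have h2 : (a - k) * (o - y) = a * (o - y) - (k * o - k * y) := by ring
    linarith [Tyo.1]
  · have h2 : (a - K) * (o - y) = a * (o - y) - K * (o - y) := by ring
    have h3 : (K : ℝ) * (o - v) = K * (o - y) + K * μ := by rw [hyv]; ring
    have h4 : ((K : ℝ) - 1) * μ = K * μ - μ := by ring
    linarith [Tyo.1]
  · intro k hk hk'
    have c1 : (k : ℝ) ≤ K' := by exact_mod_cast hk'
    have h1 := kO k c1
    have h2 : (a - k) * (O - y) = a * (O - y) - k * (O - y) := by ring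
    have h3 : (k : ℝ) * (O - v) = k * (O - y) + k * μ := by rw [hyv]; ring
    have h4 : ((K : ℝ) - 1) * μ = K * μ - μ := by ring
    have h5 : (k : ℝ) * μ ≤ K' * μ := mul_le_mul_of_nonneg_right c1 hμ.le
    have h6 : 0 ≤ (K : ℝ) * μ := mul_nonneg (by linarith) hμ.le
    linarith [TyO.1]
  · have h2 : (a - K) * (o' - y) = a * (o' - y) - K * (o' - y) := by ring
    have h3 : (K : ℝ) * (o' - v) = K * (o' - y) + K * μ := by rw [hyv]; ring
    have h4 : ((K : ℝ) - 1) * μ = K * μ - μ := by ring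
    linarith [Tyo'.2]
  · have h2 : (a - K) * (o'' - y) = a * (o'' - y) - K * (o'' - y) := by ring
    have h3 : (K : ℝ) * (o'' - v) = K * (o'' - y) + K * μ := by rw [hyv]; ring
    have h4 : ((K : ℝ) - 1) * μ = K * μ - μ := by ring
    linarith [Tyo''.2]
  · have h3 : (s : ℝ) * (x₃ - v) = s * μ - s * (y - x₃) := by rw [hyv]; ring
    have h2 : (a - s) * (y - x₃) = a * (y - x₃) - s * (y - x₃) := by ring
    have h4 : ((K : ℝ) - 1) * μ = K * μ - μ := by ring
    have h5 : ((K : ℝ) - s) * μ = K * μ - s * μ := by ring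
    linarith [Tx3.1]
  · have h3 : ((s : ℝ) + 1) * (x - v) = (s + 1) * μ - (s + 1) * (y - x) := by rw [hyv]; ring
    have h2 : (a - s - 1) * (y - x) = a * (y - x) - (s + 1) * (y - x) := by ring
    have h4 : ((K : ℝ) - 1) * μ = K * μ - μ := by ring
    have h5 : ((K : ℝ) - s - 1) * μ = K * μ - (s + 1) * μ := by ring
    linarith [Tx.1]
  · intro k hk hk'
    have c1 : (k : ℝ) ≤ K' := by exact_mod_cast hk'
    have h1 : A₀ * (x - x₃) ≤ (a - k) * (x - x₃) :=
      mul_le_mul_of_nonneg_right (by rw [hA₀]; linarith) x3x.le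
    have h2 : (a - k) * (x - x₃) = a * (x - x₃) - (k * x - k * x₃) := by ring
    linarith [Txx.1]
  · have h3 : (s : ℝ) * (x - v) = s * μ - s * (y - x) := by rw [hyv]; ring
    have h2 : (a - s - 1) * (y - x) = a * (y - x) - s * (y - x) - (y - x) := by ring
    have h4 : ((K : ℝ) - 1) * μ = K * μ - μ := by ring
    have h5 : ((K : ℝ) - s - 1) * μ = K * μ - s * μ - μ := by ring
    linarith [Tx.2]
  · have := mul_le_mul_of_nonneg_right hζ1 hμ.le
    linarith
  · intro l hl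
    have := hj l hl
    have h1 : ((j₀ : ℝ) + 1) * (v - b) = j₀ * (v - b) + (v - b) := by ring
    linarith
  · intro i hi'
    have e1 : a * (y - b) = a * (v - b) + a * μ := by rw [hyv]; ring
    have h4 : ((K : ℝ) - 1) * μ = K * μ - μ := by ring
    have h5 : (a - K + 1) * μ = a * μ - K * μ + μ := by ring
    rcases hO i hi' with ⟨ι, hι⟩ | hi2
    · refine Or.inl ⟨ι, hι, ?_⟩
      have e2 : (i : ℝ) = a := by rw [← hι]; exact hoB ι
      rw [hnB ι, e2]
      have e3 : a * (v - b) = a * v - a * b := by ring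
      linarith [Tby.2]
    · refine Or.inr ?_
      have h6 : (a + D₁) * (v - b) ≤ i * (v - b) :=
        mul_le_mul_of_nonneg_right hi2 (by linarith)
      have h7 : (a + D₁) * (v - b) = a * (v - b) + D₁ * (v - b) := by ring
      linarith [Tby.2]


open Pool.KA Pool.LA91 Pool.OWN68 Pool.LPJ30 Pool.LP30 Pool.RJ28 Pool.S6C Pool.RCD Pool.PB
open Pool.RV28 (SdI der_box fin_ev)
open Pool.RK28 (RvK)

/-- **The digits** for the rates. -/
theorem vf_nrJ {sn : ℕ → ℝ → ℝ} {d n n' : ℕ} {oB : Fin n' → ℕ} {nB : Fin n' → ℝ}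
    {b o τ κ₀ A D a X : ℝ} (hA : 0 ≤ A) (hD : 0 < D) (hob : b ≤ o) (hbo : o - b ≤ D) (hτ : τ ≤ D)
    (hT : sn d o ≤ sn d b + A) (hκ : (A + 4 * D) * 4 ^ d + 2 * D ≤ κ₀)
    (hoB : ∀ ι, (oB ι : ℝ) = a) (hnB : ∀ ι, nB ι = sn d b - a * b + X)
    (hX : a * (o - b) + X ≤ 4 * A) (hX' : X ≤ κ₀) :
    NrJ sn d (fun (_ : Fin n) w => sn d w) oB (fun _ w => sn d w)
      (fun l => sn l b + dgj A D d l + 2 * D) (fun l => sn l b + dgj A D d l + 2 * D - b)
      (dgj A D d) nB b o τ κ₀ := by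
  have h1 := nrJ_dgj (sn := sn) (d := d) (n' := 0) (T := fun (_ : Fin n) w => sn d w)
    (oB := fun _ => 0) (TB := fun _ _ => 0) (b := b) (o := o) (τ := τ) (κ₀ := κ₀) hA hD hob hbo
    hτ (fun _ => hT) hκ
  refine { nr := h1.nr, g := h1.g, B1 := fun ι => ?_, B2 := fun ι l hl => ?_ }
  · rw [hnB, hoB]
    linarith
  · rw [hnB, hoB]
    have h2 := dgj_lt hA hD hl
    have h3 : a * (o - b) = a * o - a * b := by ring
    linarith

/-- **The near path** at one window. -/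
theorem vf_nrC {sn : ℕ → ℝ → ℝ} {d : ℕ} {b A D σ₀ : ℝ} (hA : 0 ≤ A) (hD : 0 < D) (hσ : 0 < σ₀)
    (hσD : σ₀ ≤ D) (h1 : (A + 4 * D) * 4 ^ d + 2 * D ≤ 1 - b) :
    NrC sn d (fun l => sn l b + dgj A D d l + 2 * D) (fun l => sn l b + dgj A D d l + 2 * D - b)
      (fun l => dgj A D d l + 2 * D - σ₀) σ₀ b b := by
  refine { σ0 := hσ, bW := le_rfl, lv0 := fun l hl => ?_, mn := fun l _ => le_rfl,
           h := fun l _ => ?_, v := fun l _ => ?_, r := fun l _ => ?_, s := fun l hl l' hl' => ?_ }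
  · have := dgj_lt hA hD hl
    linarith
  · linarith
  · linarith
  · have := dgj_le hA hD d l
    linarith
  · have h2 := dgj_lt hA hD hl
    have h3 := dgj_st hA hD hl' hl
    linarith

theorem vf_hiW {sn : ℕ → ℝ → ℝ} {d : ℕ} {G : Set ℝ} {b A D σ₀ lo h : ℝ} (hA : 0 ≤ A) (hD : 0 < D)
    (hσ : 0 < σ₀) (hσD : σ₀ ≤ D) (h0 : 0 ≤ h) (hhD : h ≤ D)
    (hsl : ∀ l < d, ∀ w, lo ≤ w → w ≤ b → |sn l b - sn l w - 1 * (b - w)| ≤ h)
    (hgap : ∀ x, lo ≤ x → x ≤ b → ∃ u ∈ G, x - h ≤ u ∧ u ≤ x)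
    (h1 : 2 * ((A + 4 * D) * 4 ^ d + 2 * D) + 3 * h ≤ 1 - b)
    (hlo : lo ≤ b - ((A + 4 * D) * 4 ^ d + 2 * D) - 2 * h) :
    HiW sn d (fun l => dgj A D d l + 2 * D - σ₀) (σ₀ / 2) G b := by
  have hM0 : 0 ≤ (A + 4 * D) * 4 ^ d + 2 * D := by positivity
  refine ⟨fun l _ => ?_, fun l hl => ?_⟩
  · have := dgj_le hA hD d l
    linarith
  · have f1 := dgj_le hA hD d l
    have f2 := dgj_lt hA hD hl
    obtain ⟨u, hu, u1, u2⟩ := hgap (b - (dgj A D d l + 2 * D + h)) (by linarith) (by linarith)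
    have f3 := abs_le.1 (hsl l hl u (by linarith) (by linarith))
    refine ⟨u, hu, by linarith, by linarith [f3.1], ?_, ?_, fun l' hl' => ?_⟩
    · linarith [f3.2]
    · linarith [f3.2]
    · have f4 := dgj_st hA hD hl' hl
      linarith [f3.2]

/-- A number below finitely many positive numbers. -/
theorem ex_small (L : List ℝ) (h : ∀ x ∈ L, 0 < x) : ∃ e : ℝ, 0 < e ∧ ∀ x ∈ L, e ≤ x := by
  induction L with
  | nil => exact ⟨1, one_pos, fun x hx => absurd hx (by simp)⟩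
  | cons a L ih =>
    obtain ⟨e, he, h1⟩ := ih fun x hx => h x (List.mem_cons_of_mem _ hx)
    refine ⟨min e a, lt_min he (h a List.mem_cons_self), fun x hx => ?_⟩
    rcases List.mem_cons.1 hx with rfl | hx
    · exact min_le_right _ _
    · exact (min_le_left _ _).trans (h1 x hx)

end Pool.NA97
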