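import Pool.Agent.H97.NA.Vf

/-!
# The fullness of the lower orders: the rates of a place

`vf_num`: `φ (s + 1) + (a - s) log 2 ≤ φ s` for `s < K`, `K` the highest order with a positive rate.
`vf_rk`: the same from `RkP`, the rates of the place.
-/

set_option autoImplicit false

namespace Pool.NA97

open Finset Real MvPolynomial
open Pool.Agent.H49.Ent Pool.Agent.H32.Dense Pool.STK Pool.KA Pool.KSAT Pool.K2S Pool.PB Pool.GEN
open Pool.S6C Pool.RCD Pool.LA91 Pool.OWN68 Pool.LPJ30 Pool.LP30 Pool.RJ28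
open Pool.RV28 (SdI)
open Pool.RK28

variable {m : ℕ}

/-- **The fullness of the lower orders.** -/
theorem vf_num {S : PCl m} {γ₀ : ∀ J : ℕ, Fam m J → Type}
    {y₀ : ∀ (J : ℕ) (F : Fam m J), F.Ω → γ₀ J F} {C₀ : ℝ} (hS : S.Ne) (htm : TmC S C₀)
    (hpos : ∀ (τ : ℝ) (J : ℕ) (F : Fam m J) (A : F.Ω → Prop), S.St τ J F A → 0 < Pe F.p A)
    {c : ℕ → Fin m} (hyI : SdI c y₀)
    (hyT : ∀ (J : ℕ) (F : Fam m J), ∃ (R : Type) (β : F.ζ → R), ∀ ω ω',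
      y₀ J F ω = y₀ J F ω' ↔ F.T ω = F.T ω' ∧ β (F.Z ω) = β (F.Z ω'))
    {d : ℕ} {sn : ℕ → ℝ → ℝ} {G : Set ℝ} (hG : ChG S c d sn G) {g a : ℝ} (g1 : g < 1)
    (hTg : 0 < sn d g) (hat : ∀ b ∈ G, ∃ rk, Att S ((range d).image c) (c d) b (sn d b) rk)
    (hη : ∀ w : ℚ, ∃ η, RNum S (fun J F => ptr F J) (vg (w : ℝ)) η)
    (gap : ∀ η : ℝ, 0 < η → ∃ ρ : ℝ, 0 < ρ ∧ ∀ t : ℝ, 0 < t → t < ρ → ∀ x : ℝ, g - t ≤ x →
      x ≤ g + t → ∃ u ∈ G, x - η * t ≤ u ∧ u ≤ x)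
    (hdl : ∀ l < d, HasDerivAt (fun x => sn l x) 1 g) (hdT : HasDerivAt (fun x => sn d x) a g)
    {K K' s : ℕ} (hsK : s < K) (hKK : K ≤ K') (hKa : (K' : ℝ) < a) {D₁ : ℝ} (hD₁ : 0 < D₁)
    {n' : ℕ} {oB : Fin n' → ℕ} (hoB : ∀ ι, (oB ι : ℝ) = a)
    (hO : ∀ i : ℕ, K' < i → (∃ ι, oB ι = i) ∨ a + D₁ ≤ i)
    {φ : ℕ → ℝ} (hφ0 : 0 < φ K) (hφ1 : φ (K + 1) = 0) (hφm : φ (s + 1) ≤ φ s)
    (hR : ∀ j, RvK S y₀ c d (fun _ : Fin (K' + 1 - j) => c d) (fun i => odv j i)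
      (fun _ : Fin n' => c d) oB sn (fun _ w => sn d w) (fun _ w => sn d w) G g (φ j)) :
    φ (s + 1) + (a - s) * Real.log 2 ≤ φ s := by
  have cK : (K : ℝ) ≤ K' := by exact_mod_cast hKK
  have cs : (s : ℝ) + 1 ≤ K := by exact_mod_cast hsK
  obtain ⟨C, hC⟩ : ∃ C : ℝ, C = (a - s) * (a - s - 1) * (φ s - φ (s + 1) + 9) := ⟨_, rfl⟩
  have hC0 : 0 ≤ C := by
    rw [hC]
    exact mul_nonneg (mul_nonneg (by linarith) (by linarith)) (by linarith)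
  have key : (a - s) * (a - K) * Real.log 2 ≤ (φ s - φ (s + 1)) * (a - K) := by
    refine le_of_forall_pos_le_add fun ε hε => ?_
    obtain ⟨ζ, hζ, hζL⟩ := ex_small [1 / 2, ε / (C + 1)] (by
      intro x hx
      simp only [List.mem_cons, List.not_mem_nil, or_false] at hx
      rcases hx with rfl | rfl <;> positivity)
    have h1 := vf_one hS htm hpos hyI hyT hG g1 hTg hat hη gap hdl hdT hsK hKK hKa hD₁ hoB hO hφ0
      hφ1 hφm hR hζ (hζL _ (by simp))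
    have h2 := hζL (ε / (C + 1)) (by simp)
    rw [le_div_iff₀ (by positivity)] at h2
    have h3 : (a - s) * (a - s - 1) * ((φ s - φ (s + 1) + 9) * ζ) = C * ζ := by
      rw [hC]
      ring
    rw [h3] at h1
    have h4 : ζ * (C + 1) = C * ζ + ζ := by ring
    linarith
  have h1 : (a - K) * ((a - s) * Real.log 2) ≤ (a - K) * (φ s - φ (s + 1)) := by linarith
  have h2 := le_of_mul_le_mul_left h1 (by linarith)
  linarith

section

variable {S : PCl m} {γ : ∀ J : ℕ, Fam m J → Type}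
  {y₀ : ∀ (J : ℕ) (F : Fam m J), F.Ω → γ J F} {c : ℕ → Fin m} {d : ℕ}
  {sn : ℕ → ℝ → ℝ} {G : Set ℝ} {n : ℕ} {k : Fin n → Fin m} {od : Fin n → ℕ}
  {T : Fin n → ℝ → ℝ}

/-- No jets of the second kind. -/
theorem rtJ_of0 {kB : Fin 0 → Fin m} {oB : Fin 0 → ℕ} {TB : Fin 0 → ℝ → ℝ} {nB : Fin 0 → ℝ}
    (hpos : ∀ (τ : ℝ) (J : ℕ) (F : Fam m J) (A : F.Ω → Prop), S.St τ J F A → 0 < Pe F.p A)
    {b x o ρ κ : ℝ} {nH nV : ℕ → ℝ} (h : RtV S y₀ c d k od sn T nH nV b x o ρ κ) :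
    RtJ S y₀ c d k od kB oB sn T TB nH nV nB b x o ρ κ := by
  obtain ⟨k1, hk1, e1, he1, H⟩ := h
  refine ⟨k1, hk1, e1, he1, fun K => Bas.mono 0 ((H K).and (pos_bas hpos)) ?_⟩
  rintro J - F A ⟨H, hA⟩ V z hz u q pa hu _ hpa
  have h0 := (isLaw_cond F.isLaw hA).nonneg
  have h1 := abs_le.1 (H V z hz u pa hu hpa)
  have h2 : CH (Pool.Agent.H49.Ent.cond F.p A True) u (fun ω => (pa ω, (z ω, y₀ J F ω))) ≤
      CH (Pool.Agent.H49.Ent.cond F.p A True) u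
        (fun ω => ((pa ω, q ω), (z ω, y₀ J F ω))) :=
    CH_mono_cond h0 fun ω ω' _ _ hh => by
      simp only [Prod.mk.injEq] at hh ⊢
      exact ⟨⟨hh.1, Subsingleton.elim _ _⟩, hh.2⟩
  have e1 : (ρ - κ) * J = ρ * J - κ * J := by ring
  have e2 : (ρ + κ) * J = ρ * J + κ * J := by ring
  constructor <;> linarith [h1.1, h1.2]

/-- The rates without jets of the second kind. -/
theorem rvK_of0 {kB : Fin 0 → Fin m} {oB : Fin 0 → ℕ} {TB : Fin 0 → ℝ → ℝ}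
    (hpos : ∀ (τ : ℝ) (J : ℕ) (F : Fam m J) (A : F.Ω → Prop), S.St τ J F A → 0 < Pe F.p A)
    {g φ : ℝ} (h : RvU S y₀ c d k od sn T G g φ) :
    RvK S y₀ c d k od kB oB sn T TB G g φ := by
  intro e he
  obtain ⟨κ₀, hκ, r₀, hr, H⟩ := h e he
  exact ⟨κ₀, hκ, r₀, hr, fun r h1 h2 b hb x o a1 a2 a3 a4 nH nV lv nB hN =>
    rtJ_of0 hpos (H r h1 h2 b hb x o a1 a2 a3 a4 nH nV lv hN.nr hN.g)⟩

end

/-- **The fullness of the lower orders** for the rates of a place: if the order `K` has a positive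
rate then all orders `s < K` are full. -/
theorem vf_rk {S : PCl m} {γ₀ : ∀ J : ℕ, Fam m J → Type}
    {y₀ : ∀ (J : ℕ) (F : Fam m J), F.Ω → γ₀ J F} {C₀ : ℝ} (hS : S.Ne) (htm : TmC S C₀)
    (hpos : ∀ (τ : ℝ) (J : ℕ) (F : Fam m J) (A : F.Ω → Prop), S.St τ J F A → 0 < Pe F.p A)
    {c : ℕ → Fin m} (hyI : SdI c y₀)
    (hyT : ∀ (J : ℕ) (F : Fam m J), ∃ (R : Type) (β : F.ζ → R), ∀ ω ω',
      y₀ J F ω = y₀ J F ω' ↔ F.T ω = F.T ω' ∧ β (F.Z ω) = β (F.Z ω'))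
    {d : ℕ} {sn : ℕ → ℝ → ℝ} {G : Set ℝ} (hG : ChG S c d sn G) {g a : ℝ} (g1 : g < 1)
    (hTg : 0 < sn d g) (hat : ∀ b ∈ G, ∃ rk, Att S ((range d).image c) (c d) b (sn d b) rk)
    (hη : ∀ w : ℚ, ∃ η, RNum S (fun J F => ptr F J) (vg (w : ℝ)) η)
    (gap : ∀ η : ℝ, 0 < η → ∃ ρ : ℝ, 0 < ρ ∧ ∀ t : ℝ, 0 < t → t < ρ → ∀ x : ℝ, g - t ≤ x →
      x ≤ g + t → ∃ u ∈ G, x - η * t ≤ u ∧ u ≤ x)
    (hdl : ∀ l < d, HasDerivAt (fun x => sn l x) 1 g) (hdT : HasDerivAt (fun x => sn d x) a g)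
    {K' : ℕ} (hKa : (K' : ℝ) < a) (haK : a ≤ K' + 1) (h : RkP S y₀ c d K' sn G g a) :
    ∃ φ : ℕ → ℝ, (∀ j, 0 ≤ φ j) ∧ (∀ j, φ (j + 1) ≤ φ j) ∧ (∀ j, K' < j → φ j = 0) ∧
    (∀ j, RvU S y₀ c d (fun _ : Fin (K' + 1 - j) => c d) (fun i => odv j i) sn
      (fun _ w => sn d w) G g (φ j)) ∧
    (a = K' + 1 → (∀ j, RvK S y₀ c d (fun _ : Fin (K' + 1 - j) => c d) (fun i => odv j i)
      (fun _ : Fin 1 => c d) (fun _ => K' + 1) sn (fun _ w => sn d w) (fun _ w => sn d w) G g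
      (φ j)) ∧
      SkG S y₀ c d (fun _ : Fin 1 => c d) (fun _ => K' + 1) sn (fun (_ : Fin 0) w => sn d w)
        (fun _ w => sn d w) G g) ∧
    ∀ K s : ℕ, s < K → 0 < φ K → φ (s + 1) + (a - s) * Real.log 2 ≤ φ s := by
  obtain ⟨φ, h1, h2, h3, h4, h5⟩ := h
  refine ⟨φ, h1, h2, h3, h4, h5, fun K s hs hK => ?_⟩
  -- the highest order with a positive rate
  obtain ⟨K₁, k1, k2, k3, k4⟩ : ∃ K₁, K ≤ K₁ ∧ K₁ ≤ K' ∧ 0 < φ K₁ ∧ φ (K₁ + 1) = 0 := by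
    by_contra hno
    push Not at hno
    have hstep : ∀ i, 0 < φ (K + i) := by
      intro i
      induction i with
      | zero => exact hK
      | succ i ih =>
        have hle : K + i ≤ K' := by
          by_contra hc
          rw [h3 (K + i) (by omega)] at ih
          exact lt_irrefl _ ih
        have := hno (K + i) (by omega) hle ih
        exact lt_of_le_of_ne (h1 _) (Ne.symm this)
    have h6 := hstep (K' + 1)
    rw [h3 _ (by omega)] at h6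
    exact lt_irrefl _ h6
  rcases haK.lt_or_eq with hlt | heq
  · refine vf_num (D₁ := K' + 1 - a) (n' := 0) (oB := fun _ => 0) hS htm hpos hyI hyT hG g1 hTg hat
      hη gap hdl hdT (show s < K₁ by omega) k2 hKa (by linarith) (fun ι => ι.elim0) (fun i hi => ?_)
      k3 k4 (h2 s) fun j => rvK_of0 hpos (h4 j)
    refine Or.inr ?_
    have : ((K' : ℝ) + 1) ≤ i := by exact_mod_cast hi
    linarith
  · refine vf_num (D₁ := 1) (n' := 1) (oB := fun _ => K' + 1) hS htm hpos hyI hyT hG g1 hTg hat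
      hη gap hdl hdT (show s < K₁ by omega) k2 hKa one_pos (fun ι => by
        push_cast
        exact heq.symm) (fun i hi => ?_)
      k3 k4 (h2 s) (h5 heq).1
    rcases Nat.lt_or_ge (K' + 1) i with hi2 | hi2
    · refine Or.inr ?_
      have : ((K' : ℝ) + 1 + 1) ≤ i := by exact_mod_cast hi2
      linarith
    · exact Or.inl ⟨0, by omega⟩

/-- The side information `F.T` is the time. -/
theorem hyT_T (J : ℕ) (F : Fam m J) : ∃ (R : Type) (β : F.ζ → R), ∀ ω ω',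
    F.T ω = F.T ω' ↔ F.T ω = F.T ω' ∧ β (F.Z ω) = β (F.Z ω') :=
  ⟨Unit, fun _ => (), fun _ _ => by simp⟩

/-- The side information `F.W` is the time and the unit. -/
theorem hyT_W (J : ℕ) (F : Fam m J) : ∃ (R : Type) (β : F.ζ → R), ∀ ω ω',
    F.W ω = F.W ω' ↔ F.T ω = F.T ω' ∧ β (F.Z ω) = β (F.Z ω') :=
  ⟨F.ζ, id, fun _ _ => Prod.ext_iff⟩

end Pool.NA97
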